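import Pool.Agent.H5.Iso.Cox

/-! The closed chamber lemma for the group of type (2,4,6). -/

namespace Pool.Agent.H5.Iso

/-- Data for the simultaneous induction. -/
structure Sim (R : (ℤ × ℤ × ℤ) → (ℝ × ℝ × ℝ) → Prop) : Prop where
  good : ∀ v u, R v u → Good v
  step : ∀ v u, R v u → ∀ j, R (S j v) (S j u)

theorem chain01 {R : (ℤ × ℤ × ℤ) → (ℝ × ℝ × ℝ) → Prop} (hR : Sim R) {v : ℤ × ℤ × ℤ}
    {u : ℝ × ℝ × ℝ} (h : R v u)
    (IH : ∀ v' u', R v' u' → sz v' < sz v → ∀ j, 0 < f j v' → 0 ≤ f j u')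
    (hi : 0 < f 0 v) (ht : f 1 v < 0) : 0 ≤ f 0 u := by
  obtain ⟨y, z, w⟩ := v
  obtain ⟨Y, Z, V⟩ := u
  have ne := fun v' u' (h' : R v' u') j => (hR.good v' u' h').f_ne j
  have h1 : R (S 1 (y, z, w)) (S 1 (Y, Z, V)) := hR.step _ _ h 1
  have l1 : sz (S 1 (y, z, w)) < sz (y, z, w) := sz_S_lt ht
  rcases lt_or_gt_of_ne (ne _ _ h1 0) with c1 | c1
  swap
  · have a1 := IH _ _ h1 l1 0 c1
    have a2 := IH _ _ h1 l1 1 (by rw [f_S_self]; omega)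
    clear IH ne h1 hR l1
    simp only [f, S] at *
    linarith
  have h2 : R (S 0 (S 1 (y, z, w))) (S 0 (S 1 (Y, Z, V))) := hR.step _ _ h1 0
  have l2 : sz (S 0 (S 1 (y, z, w))) < sz (y, z, w) := (sz_S_lt c1).trans l1
  rcases lt_or_gt_of_ne (ne _ _ h2 1) with c2 | c2
  swap
  · have a1 := IH _ _ h2 l2 1 c2
    have a2 := IH _ _ h2 l2 0 (by rw [f_S_self]; omega)
    clear IH ne h2 hR l2
    simp only [f, S] at *
    linarith
  have h3 : R (S 1 (S 0 (S 1 (y, z, w)))) (S 1 (S 0 (S 1 (Y, Z, V)))) := hR.step _ _ h2 1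
  have l3 : sz (S 1 (S 0 (S 1 (y, z, w)))) < sz (y, z, w) := (sz_S_lt c2).trans l2
  rcases lt_or_gt_of_ne (ne _ _ h3 0) with c3 | c3
  swap
  · have a1 := IH _ _ h3 l3 0 c3
    have a2 := IH _ _ h3 l3 1 (by rw [f_S_self]; omega)
    clear IH ne h3 hR l3
    simp only [f, S] at *
    linarith
  exfalso
  clear IH ne
  simp only [f, S] at *
  omega

theorem chain10 {R : (ℤ × ℤ × ℤ) → (ℝ × ℝ × ℝ) → Prop} (hR : Sim R) {v : ℤ × ℤ × ℤ}
    {u : ℝ × ℝ × ℝ} (h : R v u)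
    (IH : ∀ v' u', R v' u' → sz v' < sz v → ∀ j, 0 < f j v' → 0 ≤ f j u')
    (hi : 0 < f 1 v) (ht : f 0 v < 0) : 0 ≤ f 1 u := by
  obtain ⟨y, z, w⟩ := v
  obtain ⟨Y, Z, V⟩ := u
  have ne := fun v' u' (h' : R v' u') j => (hR.good v' u' h').f_ne j
  have h1 : R (S 0 (y, z, w)) (S 0 (Y, Z, V)) := hR.step _ _ h 0
  have l1 : sz (S 0 (y, z, w)) < sz (y, z, w) := sz_S_lt ht
  rcases lt_or_gt_of_ne (ne _ _ h1 1) with c1 | c1
  swap
  · have a1 := IH _ _ h1 l1 1 c1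
    have a2 := IH _ _ h1 l1 0 (by rw [f_S_self]; omega)
    clear IH ne h1 hR l1
    simp only [f, S] at *
    linarith
  have h2 : R (S 1 (S 0 (y, z, w))) (S 1 (S 0 (Y, Z, V))) := hR.step _ _ h1 1
  have l2 : sz (S 1 (S 0 (y, z, w))) < sz (y, z, w) := (sz_S_lt c1).trans l1
  rcases lt_or_gt_of_ne (ne _ _ h2 0) with c2 | c2
  swap
  · have a1 := IH _ _ h2 l2 0 c2
    have a2 := IH _ _ h2 l2 1 (by rw [f_S_self]; omega)
    clear IH ne h2 hR l2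
    simp only [f, S] at *
    linarith
  have h3 : R (S 0 (S 1 (S 0 (y, z, w)))) (S 0 (S 1 (S 0 (Y, Z, V)))) := hR.step _ _ h2 0
  have l3 : sz (S 0 (S 1 (S 0 (y, z, w)))) < sz (y, z, w) := (sz_S_lt c2).trans l2
  rcases lt_or_gt_of_ne (ne _ _ h3 1) with c3 | c3
  swap
  · have a1 := IH _ _ h3 l3 1 c3
    have a2 := IH _ _ h3 l3 0 (by rw [f_S_self]; omega)
    clear IH ne h3 hR l3
    simp only [f, S] at *
    linarith
  exfalso
  clear IH ne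
  simp only [f, S] at *
  omega

theorem chain02 {R : (ℤ × ℤ × ℤ) → (ℝ × ℝ × ℝ) → Prop} (hR : Sim R) {v : ℤ × ℤ × ℤ}
    {u : ℝ × ℝ × ℝ} (h : R v u)
    (IH : ∀ v' u', R v' u' → sz v' < sz v → ∀ j, 0 < f j v' → 0 ≤ f j u')
    (hi : 0 < f 0 v) (ht : f 2 v < 0) : 0 ≤ f 0 u := by
  obtain ⟨y, z, w⟩ := v
  obtain ⟨Y, Z, V⟩ := u
  have ne := fun v' u' (h' : R v' u') j => (hR.good v' u' h').f_ne j
  have h1 : R (S 2 (y, z, w)) (S 2 (Y, Z, V)) := hR.step _ _ h 2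
  have l1 : sz (S 2 (y, z, w)) < sz (y, z, w) := sz_S_lt ht
  rcases lt_or_gt_of_ne (ne _ _ h1 0) with c1 | c1
  swap
  · have a1 := IH _ _ h1 l1 0 c1
    have a2 := IH _ _ h1 l1 2 (by rw [f_S_self]; omega)
    clear IH ne h1 hR l1
    simp only [f, S] at *
    linarith
  exfalso
  clear IH ne
  simp only [f, S] at *
  omega

theorem chain20 {R : (ℤ × ℤ × ℤ) → (ℝ × ℝ × ℝ) → Prop} (hR : Sim R) {v : ℤ × ℤ × ℤ}
    {u : ℝ × ℝ × ℝ} (h : R v u)
    (IH : ∀ v' u', R v' u' → sz v' < sz v → ∀ j, 0 < f j v' → 0 ≤ f j u')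
    (hi : 0 < f 2 v) (ht : f 0 v < 0) : 0 ≤ f 2 u := by
  obtain ⟨y, z, w⟩ := v
  obtain ⟨Y, Z, V⟩ := u
  have ne := fun v' u' (h' : R v' u') j => (hR.good v' u' h').f_ne j
  have h1 : R (S 0 (y, z, w)) (S 0 (Y, Z, V)) := hR.step _ _ h 0
  have l1 : sz (S 0 (y, z, w)) < sz (y, z, w) := sz_S_lt ht
  rcases lt_or_gt_of_ne (ne _ _ h1 2) with c1 | c1
  swap
  · have a1 := IH _ _ h1 l1 2 c1
    have a2 := IH _ _ h1 l1 0 (by rw [f_S_self]; omega)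
    clear IH ne h1 hR l1
    simp only [f, S] at *
    linarith
  exfalso
  clear IH ne
  simp only [f, S] at *
  omega

theorem chain12 {R : (ℤ × ℤ × ℤ) → (ℝ × ℝ × ℝ) → Prop} (hR : Sim R) {v : ℤ × ℤ × ℤ}
    {u : ℝ × ℝ × ℝ} (h : R v u)
    (IH : ∀ v' u', R v' u' → sz v' < sz v → ∀ j, 0 < f j v' → 0 ≤ f j u')
    (hi : 0 < f 1 v) (ht : f 2 v < 0) : 0 ≤ f 1 u := by
  obtain ⟨y, z, w⟩ := v
  obtain ⟨Y, Z, V⟩ := u
  have ne := fun v' u' (h' : R v' u') j => (hR.good v' u' h').f_ne j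
  have h1 : R (S 2 (y, z, w)) (S 2 (Y, Z, V)) := hR.step _ _ h 2
  have l1 : sz (S 2 (y, z, w)) < sz (y, z, w) := sz_S_lt ht
  rcases lt_or_gt_of_ne (ne _ _ h1 1) with c1 | c1
  swap
  · have a1 := IH _ _ h1 l1 1 c1
    have a2 := IH _ _ h1 l1 2 (by rw [f_S_self]; omega)
    clear IH ne h1 hR l1
    simp only [f, S] at *
    linarith
  have h2 : R (S 1 (S 2 (y, z, w))) (S 1 (S 2 (Y, Z, V))) := hR.step _ _ h1 1
  have l2 : sz (S 1 (S 2 (y, z, w))) < sz (y, z, w) := (sz_S_lt c1).trans l1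
  rcases lt_or_gt_of_ne (ne _ _ h2 2) with c2 | c2
  swap
  · have a1 := IH _ _ h2 l2 2 c2
    have a2 := IH _ _ h2 l2 1 (by rw [f_S_self]; omega)
    clear IH ne h2 hR l2
    simp only [f, S] at *
    linarith
  have h3 : R (S 2 (S 1 (S 2 (y, z, w)))) (S 2 (S 1 (S 2 (Y, Z, V)))) := hR.step _ _ h2 2
  have l3 : sz (S 2 (S 1 (S 2 (y, z, w)))) < sz (y, z, w) := (sz_S_lt c2).trans l2
  rcases lt_or_gt_of_ne (ne _ _ h3 1) with c3 | c3
  swap
  · have a1 := IH _ _ h3 l3 1 c3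
    have a2 := IH _ _ h3 l3 2 (by rw [f_S_self]; omega)
    clear IH ne h3 hR l3
    simp only [f, S] at *
    linarith
  have h4 : R (S 1 (S 2 (S 1 (S 2 (y, z, w))))) (S 1 (S 2 (S 1 (S 2 (Y, Z, V))))) := hR.step _ _ h3 1
  have l4 : sz (S 1 (S 2 (S 1 (S 2 (y, z, w))))) < sz (y, z, w) := (sz_S_lt c3).trans l3
  rcases lt_or_gt_of_ne (ne _ _ h4 2) with c4 | c4
  swap
  · have a1 := IH _ _ h4 l4 2 c4
    have a2 := IH _ _ h4 l4 1 (by rw [f_S_self]; omega)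
    clear IH ne h4 hR l4
    simp only [f, S] at *
    linarith
  have h5 : R (S 2 (S 1 (S 2 (S 1 (S 2 (y, z, w)))))) (S 2 (S 1 (S 2 (S 1 (S 2 (Y, Z, V)))))) := hR.step _ _ h4 2
  have l5 : sz (S 2 (S 1 (S 2 (S 1 (S 2 (y, z, w)))))) < sz (y, z, w) := (sz_S_lt c4).trans l4
  rcases lt_or_gt_of_ne (ne _ _ h5 1) with c5 | c5
  swap
  · have a1 := IH _ _ h5 l5 1 c5
    have a2 := IH _ _ h5 l5 2 (by rw [f_S_self]; omega)
    clear IH ne h5 hR l5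
    simp only [f, S] at *
    linarith
  exfalso
  clear IH ne
  simp only [f, S] at *
  omega

theorem chain21 {R : (ℤ × ℤ × ℤ) → (ℝ × ℝ × ℝ) → Prop} (hR : Sim R) {v : ℤ × ℤ × ℤ}
    {u : ℝ × ℝ × ℝ} (h : R v u)
    (IH : ∀ v' u', R v' u' → sz v' < sz v → ∀ j, 0 < f j v' → 0 ≤ f j u')
    (hi : 0 < f 2 v) (ht : f 1 v < 0) : 0 ≤ f 2 u := by
  obtain ⟨y, z, w⟩ := v
  obtain ⟨Y, Z, V⟩ := u
  have ne := fun v' u' (h' : R v' u') j => (hR.good v' u' h').f_ne j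
  have h1 : R (S 1 (y, z, w)) (S 1 (Y, Z, V)) := hR.step _ _ h 1
  have l1 : sz (S 1 (y, z, w)) < sz (y, z, w) := sz_S_lt ht
  rcases lt_or_gt_of_ne (ne _ _ h1 2) with c1 | c1
  swap
  · have a1 := IH _ _ h1 l1 2 c1
    have a2 := IH _ _ h1 l1 1 (by rw [f_S_self]; omega)
    clear IH ne h1 hR l1
    simp only [f, S] at *
    linarith
  have h2 : R (S 2 (S 1 (y, z, w))) (S 2 (S 1 (Y, Z, V))) := hR.step _ _ h1 2
  have l2 : sz (S 2 (S 1 (y, z, w))) < sz (y, z, w) := (sz_S_lt c1).trans l1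
  rcases lt_or_gt_of_ne (ne _ _ h2 1) with c2 | c2
  swap
  · have a1 := IH _ _ h2 l2 1 c2
    have a2 := IH _ _ h2 l2 2 (by rw [f_S_self]; omega)
    clear IH ne h2 hR l2
    simp only [f, S] at *
    linarith
  have h3 : R (S 1 (S 2 (S 1 (y, z, w)))) (S 1 (S 2 (S 1 (Y, Z, V)))) := hR.step _ _ h2 1
  have l3 : sz (S 1 (S 2 (S 1 (y, z, w)))) < sz (y, z, w) := (sz_S_lt c2).trans l2
  rcases lt_or_gt_of_ne (ne _ _ h3 2) with c3 | c3
  swap
  · have a1 := IH _ _ h3 l3 2 c3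
    have a2 := IH _ _ h3 l3 1 (by rw [f_S_self]; omega)
    clear IH ne h3 hR l3
    simp only [f, S] at *
    linarith
  have h4 : R (S 2 (S 1 (S 2 (S 1 (y, z, w))))) (S 2 (S 1 (S 2 (S 1 (Y, Z, V))))) := hR.step _ _ h3 2
  have l4 : sz (S 2 (S 1 (S 2 (S 1 (y, z, w))))) < sz (y, z, w) := (sz_S_lt c3).trans l3
  rcases lt_or_gt_of_ne (ne _ _ h4 1) with c4 | c4
  swap
  · have a1 := IH _ _ h4 l4 1 c4
    have a2 := IH _ _ h4 l4 2 (by rw [f_S_self]; omega)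
    clear IH ne h4 hR l4
    simp only [f, S] at *
    linarith
  have h5 : R (S 1 (S 2 (S 1 (S 2 (S 1 (y, z, w)))))) (S 1 (S 2 (S 1 (S 2 (S 1 (Y, Z, V)))))) := hR.step _ _ h4 1
  have l5 : sz (S 1 (S 2 (S 1 (S 2 (S 1 (y, z, w)))))) < sz (y, z, w) := (sz_S_lt c4).trans l4
  rcases lt_or_gt_of_ne (ne _ _ h5 2) with c5 | c5
  swap
  · have a1 := IH _ _ h5 l5 2 c5
    have a2 := IH _ _ h5 l5 1 (by rw [f_S_self]; omega)
    clear IH ne h5 hR l5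
    simp only [f, S] at *
    linarith
  exfalso
  clear IH ne
  simp only [f, S] at *
  omega


theorem chain {R : (ℤ × ℤ × ℤ) → (ℝ × ℝ × ℝ) → Prop} (hR : Sim R) {v : ℤ × ℤ × ℤ}
    {u : ℝ × ℝ × ℝ} (h : R v u)
    (IH : ∀ v' u', R v' u' → sz v' < sz v → ∀ j, 0 < f j v' → 0 ≤ f j u')
    (i t : Fin 3) (hi : 0 < f i v) (ht : f t v < 0) : 0 ≤ f i u := by
  fin_cases i <;> fin_cases t
  · exact absurd hi (not_lt.2 ht.le)
  · exact chain01 hR h IH hi ht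
  · exact chain02 hR h IH hi ht
  · exact chain10 hR h IH hi ht
  · exact absurd hi (not_lt.2 ht.le)
  · exact chain12 hR h IH hi ht
  · exact chain20 hR h IH hi ht
  · exact chain21 hR h IH hi ht
  · exact absurd hi (not_lt.2 ht.le)

theorem nondesc (z : ℝ × ℝ × ℝ) (hz : ∀ i, 0 ≤ f i z) : ∀ (n : ℕ) (g : W),
    sz (act ℤ g p) ≤ n → ∀ i, 0 < f i (act ℤ g p) → 0 ≤ f i (act ℝ g z) := by
  have hR : Sim (fun v u => ∃ g : W, v = act ℤ g p ∧ u = act ℝ g z) := by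
    constructor
    · rintro v u ⟨g, rfl, rfl⟩
      exact good_act g
    · rintro v u ⟨g, rfl, rfl⟩ j
      exact ⟨s j * g, by rw [act_s_mul], by rw [act_s_mul]⟩
  intro n
  induction n with
  | zero => intro g hn; exact absurd (good_act g).sz_pos (by simpa using hn)
  | succ n ih =>
    intro g hn i hi
    by_cases hg : g = 1
    · subst hg; simpa using hz i
    · obtain ⟨t, ht⟩ := exists_descent hg
      refine chain hR ⟨g, rfl, rfl⟩ ?_ i t hi ht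
      rintro v' u' ⟨g', rfl, rfl⟩ hs j hj
      exact ih g' (by push_cast at hn; omega) j hj

theorem fixed_of_zero (i : Fin 3) (u : ℝ × ℝ × ℝ) (h0 : f i u = 0) : S i u = u := by
  obtain ⟨Y, Z, V⟩ := u
  fin_cases i <;> simp only [f] at h0 <;> simp only [S, Prod.mk.injEq]
  all_goals refine ⟨?_, ?_, ?_⟩ <;> first | trivial | rfl | linarith

/-- The closed chamber is a strict fundamental domain. -/
theorem chamber {z : ℝ × ℝ × ℝ} (hz : ∀ i, 0 ≤ f i z) : ∀ (n : ℕ) (g : W),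
    sz (act ℤ g p) ≤ n → (∀ i, 0 ≤ f i (act ℝ g z)) →
    act ℝ g z = z ∧ g ∈ Subgroup.closure {x | ∃ i, x = s i ∧ f i z = 0} := by
  intro n
  induction n with
  | zero => intro g hn; exact absurd (good_act g).sz_pos (by simpa using hn)
  | succ n ih =>
    intro g hn hgz
    by_cases hg : g = 1
    · subst hg; exact ⟨by simp, Subgroup.one_mem _⟩
    · obtain ⟨i, hi⟩ := exists_descent hg
      have hs : sz (act ℤ (s i * g) p) < sz (act ℤ g p) := by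
        rw [act_s_mul]; exact sz_S_lt hi
      have h1 : 0 ≤ f i (act ℝ (s i * g) z) := by
        refine nondesc z hz _ (s i * g) (Int.self_le_toNat _) i ?_
        rw [act_s_mul, f_S_self]; omega
      rw [act_s_mul, f_S_self] at h1
      have h0 : f i (act ℝ g z) = 0 := le_antisymm (by linarith) (hgz i)
      have hfix : S i (act ℝ g z) = act ℝ g z := fixed_of_zero i _ h0
      have h2 : act ℝ (s i * g) z = act ℝ g z := by rw [act_s_mul, hfix]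
      obtain ⟨h3, h4⟩ := ih (s i * g) (by push_cast at hn; omega) (by rw [h2]; exact hgz)
      rw [h2] at h3
      refine ⟨h3, ?_⟩
      have h5 : g = s i * (s i * g) := by rw [s_mul_s_mul]
      rw [h5]
      refine Subgroup.mul_mem _ (Subgroup.subset_closure ⟨i, rfl, ?_⟩) h4
      rw [← h3]; exact h0

/-- The closed chamber is a strict fundamental domain (final form). -/
theorem chamber' {z : ℝ × ℝ × ℝ} (hz : ∀ i, 0 ≤ f i z) (g : W) (hg : ∀ i, 0 ≤ f i (act ℝ g z)) :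
    act ℝ g z = z ∧ g ∈ Subgroup.closure {x | ∃ i, x = s i ∧ f i z = 0} :=
  chamber hz _ g (Int.self_le_toNat _) hg

end Pool.Agent.H5.Iso
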