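import Mathlib

/-! The extended triangle group of type (2,4,6) as an abstract group, its action on integral
vectors, normal forms and faithfulness. -/

namespace Pool.Agent.H5.Iso

/-- The relators of the Coxeter group of type (2,4,6). -/
def rels : Set (FreeGroup (Fin 3)) :=
  {FreeGroup.of 0 * FreeGroup.of 0, FreeGroup.of 1 * FreeGroup.of 1, FreeGroup.of 2 * FreeGroup.of 2,
    (FreeGroup.of 0 * FreeGroup.of 1) ^ 4, (FreeGroup.of 0 * FreeGroup.of 2) ^ 2,
    (FreeGroup.of 1 * FreeGroup.of 2) ^ 6}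

/-- The abstract extended triangle group of type (2,4,6). -/
abbrev W : Type := PresentedGroup rels

/-- The generating reflections. -/
def s (i : Fin 3) : W := PresentedGroup.of i

/-- The triples of elements of a group satisfying the Coxeter relations. -/
structure IsCox {G : Type*} [Group G] (t : Fin 3 → G) : Prop where
  sq : ∀ i, t i * t i = 1
  r01 : (t 0 * t 1) ^ 4 = 1
  r02 : (t 0 * t 2) ^ 2 = 1
  r12 : (t 1 * t 2) ^ 6 = 1

theorem IsCox.lift_rels {G : Type*} [Group G] {t : Fin 3 → G} (h : IsCox t) :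
    ∀ r ∈ rels, FreeGroup.lift t r = 1 := by
  intro r hr
  simp only [rels, Set.mem_insert_iff, Set.mem_singleton_iff] at hr
  rcases hr with rfl | rfl | rfl | rfl | rfl | rfl
  · simpa using h.sq 0
  · simpa using h.sq 1
  · simpa using h.sq 2
  · simpa using h.r01
  · simpa using h.r02
  · simpa using h.r12

/-- The homomorphism out of `W` given by a triple satisfying the Coxeter relations. -/
def lift {G : Type*} [Group G] {t : Fin 3 → G} (h : IsCox t) : W →* G :=
  PresentedGroup.toGroup h.lift_rels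

@[simp] theorem lift_s {G : Type*} [Group G] {t : Fin 3 → G} (h : IsCox t) (i : Fin 3) :
    lift h (s i) = t i := by
  simp [lift, s]

theorem isCox_s : IsCox s := by
  have key : ∀ r ∈ rels, (PresentedGroup.mk rels) r = 1 := fun r hr =>
    PresentedGroup.mk_eq_one_iff.2 (Subgroup.subset_normalClosure hr)
  constructor
  · intro i
    have : FreeGroup.of i * FreeGroup.of i ∈ rels := by
      fin_cases i <;> simp [rels]
    exact key _ this
  · exact key ((FreeGroup.of 0 * FreeGroup.of 1) ^ 4) (by simp [rels])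
  · exact key ((FreeGroup.of 0 * FreeGroup.of 2) ^ 2) (by simp [rels])
  · exact key ((FreeGroup.of 1 * FreeGroup.of 2) ^ 6) (by simp [rels])

theorem s_sq (i : Fin 3) : s i * s i = 1 := isCox_s.sq i

theorem s_inv (i : Fin 3) : (s i)⁻¹ = s i := by
  rw [inv_eq_iff_mul_eq_one]; exact s_sq i

@[simp] theorem s_mul_s_mul (i : Fin 3) (w : W) : s i * (s i * w) = w := by
  rw [← mul_assoc, s_sq, one_mul]

/-- Induction over words. -/
theorem W_induction {P : W → Prop} (h1 : P 1) (hs : ∀ i w, P w → P (s i * w)) : ∀ w, P w := by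
  intro w
  have hcl : w ∈ Subgroup.closure (Set.range s) := by
    have : Subgroup.closure (Set.range (PresentedGroup.of (rels := rels))) = ⊤ :=
      PresentedGroup.closure_range_of rels
    have e : Set.range s = Set.range (PresentedGroup.of (rels := rels)) := rfl
    rw [e, this]; trivial
  induction hcl using Subgroup.closure_induction_left with
  | one => exact h1
  | mul_left x hx y hy ih =>
    obtain ⟨i, rfl⟩ := hx
    exact hs i y ih
  | inv_mul_cancel x hx y hy ih =>
    obtain ⟨i, rfl⟩ := hx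
    rw [s_inv]
    exact hs i y ih

theorem hom_ext {G : Type*} [Group G] {f g : W →* G} (h : ∀ i, f (s i) = g (s i)) : f = g := by
  refine MonoidHom.ext fun w => ?_
  induction w using W_induction with
  | h1 => simp
  | hs i w ih => rw [map_mul, map_mul, h, ih]

/-! ### Braid relations -/

theorem braid01 : s 0 * (s 1 * (s 0 * s 1)) = s 1 * (s 0 * (s 1 * s 0)) := by
  have h := isCox_s.r01
  have h2 : (s 0 * s 1) ^ 2 * (s 0 * s 1) ^ 2 = 1 := by rw [← pow_add]; exact h
  have h3 : (s 0 * s 1) ^ 2 = ((s 0 * s 1) ^ 2)⁻¹ := eq_inv_of_mul_eq_one_left h2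
  rw [← inv_pow, mul_inv_rev, s_inv, s_inv, pow_two, pow_two] at h3
  simpa [mul_assoc] using h3

theorem braid02 : s 0 * s 2 = s 2 * s 0 := by
  have h := isCox_s.r02
  have h3 : s 0 * s 2 = (s 0 * s 2)⁻¹ := eq_inv_of_mul_eq_one_left (by rw [← pow_two]; exact h)
  rw [mul_inv_rev, s_inv, s_inv] at h3
  exact h3

theorem braid12 : s 1 * (s 2 * (s 1 * (s 2 * (s 1 * s 2)))) =
    s 2 * (s 1 * (s 2 * (s 1 * (s 2 * s 1)))) := by
  have h := isCox_s.r12
  have h2 : (s 1 * s 2) ^ 3 * (s 1 * s 2) ^ 3 = 1 := by rw [← pow_add]; exact h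
  have h3 : (s 1 * s 2) ^ 3 = ((s 1 * s 2) ^ 3)⁻¹ := eq_inv_of_mul_eq_one_left h2
  rw [← inv_pow, mul_inv_rev, s_inv, s_inv, pow_succ, pow_two, pow_succ, pow_two] at h3
  simpa [mul_assoc] using h3

/-! ### Integral vectors -/

/-- The reflections acting on triples. -/
def S {R : Type*} [CommRing R] (i : Fin 3) (v : R × R × R) : R × R × R :=
  match i with
  | 0 => (v.1, v.2.1, -v.2.2)
  | 1 => (v.1, v.2.2, v.2.1)
  | 2 => (2 * v.1 + 3 * v.2.1, -v.1 - 2 * v.2.1, v.2.2)

/-- The functionals whose non-negativity defines the chamber. -/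
def f {R : Type*} [CommRing R] (i : Fin 3) (v : R × R × R) : R :=
  match i with
  | 0 => -v.2.2
  | 1 => v.2.2 - v.2.1
  | 2 => v.1 + 3 * v.2.1

theorem S_S {R : Type*} [CommRing R] (i : Fin 3) (v : R × R × R) : S i (S i v) = v := by
  obtain ⟨y, z, w⟩ := v
  fin_cases i <;> simp [S, Prod.ext_iff]
  constructor <;> ring

/-- The reflections as permutations of triples. -/
def SP (R : Type*) [CommRing R] (i : Fin 3) : Equiv.Perm (R × R × R) where
  toFun := S i
  invFun := S i
  left_inv := S_S i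
  right_inv := S_S i

theorem isCox_SP (R : Type*) [CommRing R] : IsCox (SP R) := by
  constructor
  · intro i; ext1 v; exact S_S i v
  · ext1 v; obtain ⟨y, z, w⟩ := v
    simp [SP, S, pow_succ, Equiv.Perm.mul_apply]
  · ext1 v; obtain ⟨y, z, w⟩ := v
    simp [SP, S, pow_succ, Equiv.Perm.mul_apply, Prod.ext_iff]
    constructor <;> ring
  · ext1 v; obtain ⟨y, z, w⟩ := v
    simp [SP, S, pow_succ, Equiv.Perm.mul_apply, Prod.ext_iff]
    refine ⟨?_, ?_, ?_⟩ <;> ring

/-- The action of `W` on triples over a ring. -/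
def act (R : Type*) [CommRing R] : W →* Equiv.Perm (R × R × R) := lift (isCox_SP R)

theorem act_s_mul (R : Type*) [CommRing R] (i : Fin 3) (w : W) (v : R × R × R) :
    act R (s i * w) v = S i (act R w v) := by
  rw [map_mul, Equiv.Perm.mul_apply]
  simp [act, SP]

@[simp] theorem act_s (R : Type*) [CommRing R] (i : Fin 3) (v : R × R × R) :
    act R (s i) v = S i v := by
  simp [act, SP]

/-- The quadratic form. -/
def q {R : Type*} [CommRing R] (v : R × R × R) : R := v.1 ^ 2 - 3 * v.2.1 ^ 2 - 3 * v.2.2 ^ 2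

theorem q_S {R : Type*} [CommRing R] (i : Fin 3) (v : R × R × R) : q (S i v) = q v := by
  obtain ⟨y, z, w⟩ := v
  fin_cases i <;> simp [q, S] <;> ring

theorem q_act {R : Type*} [CommRing R] (g : W) (v : R × R × R) : q (act R g v) = q v := by
  induction g using W_induction with
  | h1 => simp
  | hs i w ih => rw [act_s_mul, q_S, ih]

/-- The size `(p, v)`. -/
def sz {R : Type*} [CommRing R] (v : R × R × R) : R := 7 * v.1 + 6 * v.2.1 + 3 * v.2.2

theorem sz_S0 {R : Type*} [CommRing R] (v : R × R × R) : sz (S 0 v) = sz v + 6 * f 0 v := by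
  simp [sz, S, f]; ring
theorem sz_S1 {R : Type*} [CommRing R] (v : R × R × R) : sz (S 1 v) = sz v + 3 * f 1 v := by
  simp [sz, S, f]; ring
theorem sz_S2 {R : Type*} [CommRing R] (v : R × R × R) : sz (S 2 v) = sz v + f 2 v := by
  simp [sz, S, f]; ring

/-- Good vectors: norm 34 in the forward cone. -/
def Good (v : ℤ × ℤ × ℤ) : Prop := q v = 34 ∧ 0 < v.1

theorem Good.S {v : ℤ × ℤ × ℤ} (h : Good v) (i : Fin 3) : Good (S i v) := by
  refine ⟨by rw [q_S]; exact h.1, ?_⟩
  obtain ⟨y, z, w⟩ := v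
  obtain ⟨h1, h2⟩ := h
  simp only [q] at h1 h2
  fin_cases i
  · simpa [Iso.S] using h2
  · simpa [Iso.S] using h2
  · simp only [Iso.S]
    by_contra hc
    push Not at hc
    nlinarith [sq_nonneg w, sq_nonneg (2 * y + 3 * z)]

theorem Good.sz_pos {v : ℤ × ℤ × ℤ} (h : Good v) : 0 < sz v := by
  obtain ⟨y, z, w⟩ := v
  obtain ⟨h1, h2⟩ := h
  simp only [q] at h1 h2
  simp only [sz]
  by_contra hc
  push Not at hc
  nlinarith [sq_nonneg (z - 2 * w), sq_nonneg (7 * y + 6 * z + 3 * w)]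

theorem Good.f_ne {v : ℤ × ℤ × ℤ} (h : Good v) (i : Fin 3) : f i v ≠ 0 := by
  obtain ⟨y, z, w⟩ := v
  obtain ⟨h1, h2⟩ := h
  simp only [q] at h1 h2
  fin_cases i
  · simp only [f]
    intro h0
    have hw : w = 0 := by simpa using h0
    subst hw
    have : (y ^ 2 - 3 * z ^ 2) % 8 = 34 % 8 := by
      have : y ^ 2 - 3 * z ^ 2 = 34 := by linarith
      rw [this]
    have hy : y % 8 = 0 ∨ y % 8 = 1 ∨ y % 8 = 2 ∨ y % 8 = 3 ∨ y % 8 = 4 ∨ y % 8 = 5 ∨ y % 8 = 6 ∨ y % 8 = 7 := by omega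
    have hz : z % 8 = 0 ∨ z % 8 = 1 ∨ z % 8 = 2 ∨ z % 8 = 3 ∨ z % 8 = 4 ∨ z % 8 = 5 ∨ z % 8 = 6 ∨ z % 8 = 7 := by omega
    rcases hy with hy | hy | hy | hy | hy | hy | hy | hy <;>
    rcases hz with hz | hz | hz | hz | hz | hz | hz | hz <;>
    simp [Int.sub_emod, Int.mul_emod, pow_two, hy, hz] at this
  · simp only [f]
    intro h0
    have hw : w = z := by linarith
    subst hw
    have : (y ^ 2 - 6 * w ^ 2) % 16 = 34 % 16 := by
      have : y ^ 2 - 6 * w ^ 2 = 34 := by linarith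
      rw [this]
    have h3 : (y ^ 2 - 6 * w ^ 2) % 16 = ((y % 16) ^ 2 - 6 * (w % 16) ^ 2) % 16 := by
      simp [Int.sub_emod, Int.mul_emod, pow_two]
    rw [h3] at this
    have hy0 : 0 ≤ y % 16 := Int.emod_nonneg _ (by norm_num)
    have hy1 : y % 16 < 16 := Int.emod_lt_of_pos _ (by norm_num)
    have hw0 : 0 ≤ w % 16 := Int.emod_nonneg _ (by norm_num)
    have hw1 : w % 16 < 16 := Int.emod_lt_of_pos _ (by norm_num)
    generalize y % 16 = a at *
    generalize w % 16 = b at *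
    clear h1 h2 h0 h3
    interval_cases a <;> interval_cases b <;> simp at this
  · simp only [f]
    intro h0
    have hy : y = -3 * z := by linarith
    subst hy
    have : 6 * z ^ 2 - 3 * w ^ 2 = 34 := by linarith
    omega

/-! ### Normal forms -/

/-- Normal form of a good vector. -/
def NF (v : ℤ × ℤ × ℤ) : W :=
  if h : 0 < sz v then
    if h0 : f 0 v < 0 then s 0 * NF (S 0 v)
    else if h1 : f 1 v < 0 then s 1 * NF (S 1 v)
    else if h2 : f 2 v < 0 then s 2 * NF (S 2 v)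
    else 1
  else 1
termination_by (sz v).toNat
decreasing_by
  · have := sz_S0 v; omega
  · have := sz_S1 v; omega
  · have := sz_S2 v; omega

theorem sz_S_lt {v : ℤ × ℤ × ℤ} {i : Fin 3} (h : f i v < 0) : sz (S i v) < sz v := by
  fin_cases i
  · have := sz_S0 v; simp only [Fin.zero_eta] at h ⊢; omega
  · have := sz_S1 v; simp only [Fin.mk_one] at h ⊢; omega
  · have := sz_S2 v; simp only [Fin.reduceFinMk] at h ⊢; omega

theorem f_S_self {R : Type*} [CommRing R] (i : Fin 3) (v : R × R × R) : f i (S i v) = - f i v := by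
  obtain ⟨y, z, w⟩ := v
  fin_cases i <;> simp [f, S]
  ring

/-- Pair lemma: two descents give the same element. -/
theorem pair01 {v : ℤ × ℤ × ℤ} (hv : Good v)
    (IH : ∀ u, Good u → sz u < sz v → ∀ i, f i u < 0 → NF u = s i * NF (S i u))
    (h0 : f 0 v < 0) (h1 : f 1 v < 0) : s 0 * NF (S 0 v) = s 1 * NF (S 1 v) := by
  obtain ⟨y, z, w⟩ := v
  have key : ∀ u : ℤ × ℤ × ℤ, Good u → sz u < sz (y, z, w) → ∀ i, f i u < 0 →
      NF u = s i * NF (S i u) ∧ Good (S i u) ∧ sz (S i u) < sz (y, z, w) := fun u hu hs i hi =>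
    ⟨IH u hu hs i hi, hu.S i, (sz_S_lt hi).trans hs⟩
  simp only [f] at h0 h1
  obtain ⟨a1, a2, a3⟩ := key (S 0 (y, z, w)) (hv.S 0) (sz_S_lt (by simpa [f] using h0)) 1
    (by simp only [f, S]; omega)
  obtain ⟨b1, b2, b3⟩ := key _ a2 a3 0 (by simp only [f, S]; omega)
  obtain ⟨c1, c2, c3⟩ := key _ b2 b3 1 (by simp only [f, S]; omega)
  obtain ⟨a1', a2', a3'⟩ := key (S 1 (y, z, w)) (hv.S 1) (sz_S_lt (by simpa [f] using h1)) 0
    (by simp only [f, S]; omega)
  obtain ⟨b1', b2', b3'⟩ := key _ a2' a3' 1 (by simp only [f, S]; omega)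
  obtain ⟨c1', c2', c3'⟩ := key _ b2' b3' 0 (by simp only [f, S]; omega)
  rw [a1, b1, c1, a1', b1', c1']
  have e : S 1 (S 0 (S 1 (S 0 (y, z, w)))) = S 0 (S 1 (S 0 (S 1 (y, z, w)))) := by
    simp [S]
  rw [e]
  have hb := braid01
  calc s 0 * (s 1 * (s 0 * (s 1 * NF (S 0 (S 1 (S 0 (S 1 (y, z, w))))))))
      = (s 0 * (s 1 * (s 0 * s 1))) * NF (S 0 (S 1 (S 0 (S 1 (y, z, w))))) := by
        simp only [mul_assoc]
    _ = _ := by rw [hb]; simp only [mul_assoc]

theorem pair02 {v : ℤ × ℤ × ℤ} (hv : Good v)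
    (IH : ∀ u, Good u → sz u < sz v → ∀ i, f i u < 0 → NF u = s i * NF (S i u))
    (h0 : f 0 v < 0) (h2 : f 2 v < 0) : s 0 * NF (S 0 v) = s 2 * NF (S 2 v) := by
  obtain ⟨y, z, w⟩ := v
  simp only [f] at h0 h2
  have a1 := IH (S 0 (y, z, w)) (hv.S 0) (sz_S_lt (by simpa [f] using h0)) 2
    (by simp only [f, S]; omega)
  have a1' := IH (S 2 (y, z, w)) (hv.S 2) (sz_S_lt (by simpa [f] using h2)) 0
    (by simp only [f, S]; omega)
  rw [a1, a1']
  have e : S 2 (S 0 (y, z, w)) = S 0 (S 2 (y, z, w)) := by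
    simp [S]
  rw [e, ← mul_assoc, braid02, mul_assoc]

theorem pair12 {v : ℤ × ℤ × ℤ} (hv : Good v)
    (IH : ∀ u, Good u → sz u < sz v → ∀ i, f i u < 0 → NF u = s i * NF (S i u))
    (h1 : f 1 v < 0) (h2 : f 2 v < 0) : s 1 * NF (S 1 v) = s 2 * NF (S 2 v) := by
  obtain ⟨y, z, w⟩ := v
  have key : ∀ u : ℤ × ℤ × ℤ, Good u → sz u < sz (y, z, w) → ∀ i, f i u < 0 →
      NF u = s i * NF (S i u) ∧ Good (S i u) ∧ sz (S i u) < sz (y, z, w) := fun u hu hs i hi =>
    ⟨IH u hu hs i hi, hu.S i, (sz_S_lt hi).trans hs⟩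
  simp only [f] at h1 h2
  obtain ⟨a1, a2, a3⟩ := key (S 1 (y, z, w)) (hv.S 1) (sz_S_lt (by simpa [f] using h1)) 2
    (by simp only [f, S]; omega)
  obtain ⟨b1, b2, b3⟩ := key _ a2 a3 1 (by simp only [f, S]; omega)
  obtain ⟨c1, c2, c3⟩ := key _ b2 b3 2 (by simp only [f, S]; omega)
  obtain ⟨d1, d2, d3⟩ := key _ c2 c3 1 (by simp only [f, S]; omega)
  obtain ⟨e1, e2, e3⟩ := key _ d2 d3 2 (by simp only [f, S]; omega)
  obtain ⟨a1', a2', a3'⟩ := key (S 2 (y, z, w)) (hv.S 2) (sz_S_lt (by simpa [f] using h2)) 1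
    (by simp only [f, S]; omega)
  obtain ⟨b1', b2', b3'⟩ := key _ a2' a3' 2 (by simp only [f, S]; omega)
  obtain ⟨c1', c2', c3'⟩ := key _ b2' b3' 1 (by simp only [f, S]; omega)
  obtain ⟨d1', d2', d3'⟩ := key _ c2' c3' 2 (by simp only [f, S]; omega)
  obtain ⟨e1', e2', e3'⟩ := key _ d2' d3' 1 (by simp only [f, S]; omega)
  rw [a1, b1, c1, d1, e1, a1', b1', c1', d1', e1']
  have e : S 2 (S 1 (S 2 (S 1 (S 2 (S 1 (y, z, w)))))) = S 1 (S 2 (S 1 (S 2 (S 1 (S 2 (y, z, w)))))) := by
    simp only [S, Prod.mk.injEq]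
    refine ⟨?_, ?_, ?_⟩ <;> ring
  rw [e]
  have hb := braid12
  generalize NF (S 1 (S 2 (S 1 (S 2 (S 1 (S 2 (y, z, w))))))) = x
  calc s 1 * (s 2 * (s 1 * (s 2 * (s 1 * (s 2 * x)))))
      = (s 1 * (s 2 * (s 1 * (s 2 * (s 1 * s 2))))) * x := by
        simp only [mul_assoc]
    _ = _ := by rw [hb]; simp only [mul_assoc]

theorem NF_desc : ∀ (n : ℕ) (v : ℤ × ℤ × ℤ), Good v → sz v ≤ n → ∀ i, f i v < 0 →
    NF v = s i * NF (S i v) := by
  intro n
  induction n with
  | zero => intro v hv hn; exact absurd hv.sz_pos (by simpa using hn)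
  | succ n ih =>
    intro v hv hn i hi
    have IH : ∀ u, Good u → sz u < sz v → ∀ i, f i u < 0 → NF u = s i * NF (S i u) := by
      intro u hu hs
      exact ih u hu (by push_cast at hn; omega)
    rw [NF, dif_pos hv.sz_pos]
    split_ifs with h0 h1 h2
    · fin_cases i
      · rfl
      · exact pair01 hv IH h0 hi
      · exact pair02 hv IH h0 hi
    · fin_cases i
      · exact absurd hi h0
      · rfl
      · exact pair12 hv IH h1 hi
    · fin_cases i
      · exact absurd hi h0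
      · exact absurd hi h1
      · rfl
    · fin_cases i
      · exact absurd hi h0
      · exact absurd hi h1
      · exact absurd hi h2

theorem NF_S {v : ℤ × ℤ × ℤ} (hv : Good v) (i : Fin 3) : NF (S i v) = s i * NF v := by
  rcases lt_or_gt_of_ne (hv.f_ne i) with h | h
  · rw [NF_desc _ v hv (Int.self_le_toNat _) i h, s_mul_s_mul]
  · have := NF_desc _ (S i v) (hv.S i) (Int.self_le_toNat _) i (by rw [f_S_self]; omega)
    rw [this, S_S]

/-- The base vector. -/
def p : ℤ × ℤ × ℤ := (7, -2, -1)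

theorem good_p : Good p := by constructor <;> norm_num [q, p]

theorem good_act (g : W) : Good (act ℤ g p) := by
  induction g using W_induction with
  | h1 => simpa using good_p
  | hs i w ih => rw [act_s_mul]; exact ih.S i

theorem NF_p : NF p = 1 := by
  rw [NF]; norm_num [sz, f, p]

theorem NF_act (g : W) : NF (act ℤ g p) = g := by
  induction g using W_induction with
  | h1 => simpa using NF_p
  | hs i w ih => rw [act_s_mul, NF_S (good_act w), ih]

theorem act_injective {g h : W} (e : act ℤ g p = act ℤ h p) : g = h := by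
  rw [← NF_act g, ← NF_act h, e]

/-- An element different from one has a descent. -/
theorem exists_descent {g : W} (hg : g ≠ 1) : ∃ i, f i (act ℤ g p) < 0 := by
  by_contra hc
  push Not at hc
  apply hg
  rw [← NF_act g, NF, dif_pos (good_act g).sz_pos]
  have h0 := hc 0
  have h1 := hc 1
  have h2 := hc 2
  rw [dif_neg (by omega), dif_neg (by omega), dif_neg (by omega)]

end Pool.Agent.H5.Iso
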