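import Pool.Agent.H5.Iso.Homol

/-! Tables for surface number 1 (generated). -/

namespace Pool.Agent.H5.Iso.D1

/-- Encoded permutations. -/
def T : Fin 3 → ℕ
  | 0 => 7250675329655408187415158086816289952207496876108201638450250854009101604855148333021714842822595084089356272270918535181726433402326695047605785456966217902009097773464558229800279664199015389880686768
  | 1 => 6792610450885558409958169698433355833092426228399006897980816333514317856286979903141743375136962666280256244802503615844404479727879939631477336289443993024830879092007533444466927094082987547746392115
  | 2 => 4791645542185593334073475419885184203292290426537089598389234107266721852238590529328078053788295219604378558027903543301600039464106164713421978750437377770207678532369082299840111278268650659532184628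

/-- The generating permutations of the 96 points. -/
def σ (a : Fin 3) (x : Fin 96) : Fin 96 := Fin.ofNat 96 ((T a >>> (7 * x.val)) % 128)

/-- Encoded cocycle. -/
def C : Fin 3 → ℕ
  | 0 => 9936524898327180504654504632528186617628822732213909763357836862161624041740343257750391077333540373947190524895880208766362312655216724581403892672907129209834748153969545274417962768032732532631013675642752447146986580535979585365664070537497518827795942990572932065956302989258879070639237380702405385056655235422181513936822961894006755513685
  | 1 => 20390775830945545913109815461939031701520115420706847487563012497875962229099526189914888984497299247372909309978301961414941781455273004086090420266664718226646629957068022160601688892350416695840876748506802065385264616551132756481458210707460299364312814233734881096104642660431664382615054210102017259777719081569341852295324219500672367023445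
  | 2 => 9936524290338016853131214910868427237033993403009420786770297943654666580902189957852370037756640707686279777149056767589671317648276665647535037219794638090984238848463058122132796945570063660022266065429972321145028287963712590704672269492315408805948081718812718373571729984305855069162459286249654917021480817394994983005644302589604444591445

/-- The cocycle. -/
def c (a : Fin 3) (x : Fin 96) (k : Fin 6) : ℤ := (((C a >>> (2 * (6 * x.val + k.val))) % 4 : ℕ) : ℤ) - 1

/-- Encoded first letters. -/
def L : ℕ := 2216977191327645272527886130585350804898736104226946422292

/-- First letter of the coset word. -/
def letter (x : Fin 96) : Fin 3 := Fin.ofNat 3 ((L >>> (2 * x.val)) % 4)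

/-- Coset words with fuel. -/
def wdF : ℕ → Fin 96 → List (Fin 3)
  | 0, _ => []
  | n + 1, x => if x = 0 then [] else letter x :: wdF n (σ (letter x) x)

/-- Coset words. -/
def wd (x : Fin 96) : List (Fin 3) := wdF 10 x

/-- The six free edges. -/
def basis : Fin 6 → Fin 3 × Fin 96
  | 0 => (2, 94)
  | 1 => (1, 23)
  | 2 => (1, 45)
  | 3 => (0, 14)
  | 4 => (1, 11)
  | 5 => (2, 30)

/-- The tree edges. -/
def M : ℕ := 123116640784216838233750964789456572336612823931807041078925886587934562898076068646059

/-- The elimination steps. -/
def steps : List (Fin 3 × Fin 96) :=
  [(0, 0), (1, 0), (1, 1), (1, 2), (1, 3), (1, 7), (1, 10), (1, 11), (1, 15), (1, 19), (1, 21), (1, 25), (1, 29), (1, 30), (1, 38), (2, 0), (2, 3), (2, 7), (2, 19), (0, 4), (0, 8), (0, 12), (0, 16), (0, 24), (0, 28), (1, 5), (1, 6), (1, 13), (1, 18), (1, 23), (1, 26), (2, 1), (2, 2), (0, 20), (0, 36), (1, 14), (2, 11), (2, 15), (0, 32), (1, 31), (1, 35), (0, 40), (0, 44)]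

theorem cert : Cert σ c wd basis M steps where
  perm := ⟨by decide +kernel, by decide +kernel⟩
  coc := ⟨by decide +kernel, by decide +kernel⟩
  wd0 := by decide +kernel
  wdrun := by decide +kernel
  known := by decide +kernel
  base := by decide +kernel
  loops := by decide +kernel
  final := by decide +kernel

end Pool.Agent.H5.Iso.D1
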