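import Pool.Agent.H5.Iso.Homol

/-! Tables for surface number 2 (generated). -/

namespace Pool.Agent.H5.Iso.D2

/-- Encoded permutations. -/
def T : Fin 3 → ℕ
  | 0 => 7250675329655408187415158086816289952207496876108201638450250854009101604855148333021714842822595084089356272270918535181726433402326695047605785456966217902009097773464558229800279664199015389880686768
  | 1 => 6792610450885558409958169698433355833092426228399006897980816333514317856286979903141743375136962666280256244802503615844404479727879939631477336289443993024830879092007533444466927094082987547746392115
  | 2 => 5252102297081227345245555941522998337159639253847334166376371310673099126310365521319554188130967911091211243795467754913504088284759938524558423149294303123329610566515650972749584573215983133860502580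

/-- The generating permutations of the 96 points. -/
def σ (a : Fin 3) (x : Fin 96) : Fin 96 := Fin.ofNat 96 ((T a >>> (7 * x.val)) % 128)

/-- Encoded cocycle. -/
def C : Fin 3 → ℕ
  | 0 => 24210312636685262907703575745222901004321487960670014321080050585539179920154528717333139160391093665285045806746862154222771282403463884198121560484255490392182670373866870542528174883218554416464592823784860170026999995710181018768215154569872639197619338831877168107853146095694411132941062051529405341099163980648212252009713691065867289580885
  | 1 => 20391012071699769918248020052377180938137740073988269780279942560037328904338021667337742017265684337236399019394775550982773734698690628226957108445722891234774558520007306904967870397659795878052388143640647280243821093706377512261305806407622363963009340131016155310403716791192935814288788419892593197642305479824031562592051394636887931311445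
  | 2 => 24214046299251964999345940794791461177750926747139417222361222279345892868175852393287773464435489128372640258916256711561112102996195861474493866034220304680177958316748180298620739793323901330417669751222699989064727669842512683201275977687437520364301965394865515451045172692719867116074710681208833138494039222621673971352853199694253811651925

/-- The cocycle. -/
def c (a : Fin 3) (x : Fin 96) (k : Fin 6) : ℤ := (((C a >>> (2 * (6 * x.val + k.val))) % 4 : ℕ) : ℤ) - 1

/-- Encoded first letters. -/
def L : ℕ := 2607006256691205038346261170263985712191181033995540764180

/-- First letter of the coset word. -/
def letter (x : Fin 96) : Fin 3 := Fin.ofNat 3 ((L >>> (2 * x.val)) % 4)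

/-- Coset words with fuel. -/
def wdF : ℕ → Fin 96 → List (Fin 3)
  | 0, _ => []
  | n + 1, x => if x = 0 then [] else letter x :: wdF n (σ (letter x) x)

/-- Coset words. -/
def wd (x : Fin 96) : List (Fin 3) := wdF 11 x

/-- The six free edges. -/
def basis : Fin 6 → Fin 3 × Fin 96
  | 0 => (2, 79)
  | 1 => (1, 23)
  | 2 => (2, 77)
  | 3 => (2, 9)
  | 4 => (0, 38)
  | 5 => (0, 87)

/-- The tree edges. -/
def M : ℕ := 244756241673006035100678370186106054777565158949415393343849716130952314137305573657771

/-- The elimination steps. -/
def steps : List (Fin 3 × Fin 96) :=
  [(0, 0), (1, 0), (1, 1), (1, 2), (1, 3), (1, 5), (1, 7), (1, 10), (1, 11), (1, 19), (1, 21), (1, 23), (1, 25), (1, 29), (1, 31), (1, 33), (1, 39), (2, 0), (2, 1), (2, 7), (2, 19), (0, 4), (0, 8), (0, 16), (0, 32), (0, 40), (1, 6), (1, 18), (1, 34), (1, 42), (2, 11), (0, 20), (0, 28), (0, 44), (1, 22), (2, 2), (2, 15), (1, 13), (1, 15), (0, 12), (0, 24), (1, 14), (2, 3)]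

theorem cert : Cert σ c wd basis M steps where
  perm := ⟨by decide +kernel, by decide +kernel⟩
  coc := ⟨by decide +kernel, by decide +kernel⟩
  wd0 := by decide +kernel
  wdrun := by decide +kernel
  known := by decide +kernel
  base := by decide +kernel
  loops := by decide +kernel
  final := by decide +kernel

end Pool.Agent.H5.Iso.D2
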