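import Pool.Agent.H5.Iso.Uhp

/-! Freeness of the action, cocompactness and Moebius form. -/

namespace Pool.Agent.H5.Iso

open UpperHalfPlane

theorem dihedral_form (i j : Fin 3) {h : W} (hh : h ∈ Subgroup.closure {x | x = s i ∨ x = s j}) :
    ∃ k : ℤ, h = (s i * s j) ^ k ∨ h = (s i * s j) ^ k * s i := by
  have key : ∀ k : ℤ, s i * (s i * s j) ^ k = (s i * s j) ^ (-k) * s i := by
    intro k
    have h1 : s i * (s i * s j) ^ k * (s i)⁻¹ = (s i * (s i * s j) * (s i)⁻¹) ^ k := by
      rw [conj_zpow]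
    have h2 : s i * (s i * s j) * (s i)⁻¹ = (s i * s j)⁻¹ := by
      rw [mul_inv_rev, s_inv, s_inv, s_mul_s_mul]
    rw [h2, inv_zpow', s_inv] at h1
    rw [← h1, mul_assoc, s_sq, mul_one]
  have key2 : ∀ k : ℤ, s j * (s i * s j) ^ k = (s i * s j) ^ (-(k + 1)) * s i := by
    intro k
    calc s j * (s i * s j) ^ k = s i * ((s i * s j) * (s i * s j) ^ k) := by
          rw [mul_assoc (s i) (s j), s_mul_s_mul]
      _ = s i * (s i * s j) ^ (1 + k) := by rw [zpow_one_add]
      _ = s i * (s i * s j) ^ (k + 1) := by rw [add_comm]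
      _ = _ := key (k + 1)
  induction hh using Subgroup.closure_induction_left with
  | one => exact ⟨0, by simp⟩
  | mul_left x hx y hy ih =>
    obtain ⟨k, hk⟩ := ih
    rcases hx with rfl | rfl
    · refine ⟨-k, ?_⟩
      rcases hk with rfl | rfl
      · right; exact key k
      · left; rw [← mul_assoc, key, mul_assoc, s_sq, mul_one]
    · refine ⟨-(k + 1), ?_⟩
      rcases hk with rfl | rfl
      · right; exact key2 k
      · left; rw [← mul_assoc, key2, mul_assoc, s_sq, mul_one]
  | inv_mul_cancel x hx y hy ih =>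
    obtain ⟨k, hk⟩ := ih
    rcases hx with rfl | rfl
    · rw [s_inv]
      refine ⟨-k, ?_⟩
      rcases hk with rfl | rfl
      · right; exact key k
      · left; rw [← mul_assoc, key, mul_assoc, s_sq, mul_one]
    · rw [s_inv]
      refine ⟨-(k + 1), ?_⟩
      rcases hk with rfl | rfl
      · right; exact key2 k
      · left; rw [← mul_assoc, key2, mul_assoc, s_sq, mul_one]

/-- The word `(i j)^k`. -/
def pw (i j : Fin 3) (k : ℕ) : List (Fin 3) := (List.replicate k [i, j]).flatten

theorem wprod_pw (i j : Fin 3) (k : ℕ) : wprod (pw i j k) = (s i * s j) ^ k := by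
  induction k with
  | zero => simp [pw]
  | succ k ih =>
    have : pw i j (k + 1) = i :: j :: pw i j k := by
      simp [pw, List.replicate_succ]
    rw [this, wprod_cons, wprod_cons, ih, pow_succ', mul_assoc]

/-- Freeness check for a pair of generators. -/
def PairFree (σ : Fin 3 → Fin 96 → Fin 96) (i j : Fin 3) (m : ℕ) : Prop :=
  ∀ x, (∀ k : Fin m, k.val ≠ 0 → run σ (pw i j k.val) x ≠ x) ∧
    (∀ k : Fin m, run σ (pw i j k.val ++ [i]) x ≠ x)

instance (σ : Fin 3 → Fin 96 → Fin 96) (i j : Fin 3) (m : ℕ) : Decidable (PairFree σ i j m) := by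
  unfold PairFree; infer_instance

theorem pair_free {σ : Fin 3 → Fin 96 → Fin 96} (hσ : PermOK σ) {i j : Fin 3} {m : ℕ} (hm : 0 < m)
    (hr : (s i * s j) ^ m = 1) (hf : PairFree σ i j m) {h : W}
    (hh : h ∈ Subgroup.closure {x | x = s i ∨ x = s j}) {x : Fin 96} (hx : hσ.hom h x = x) :
    h = 1 := by
  obtain ⟨k, hk⟩ := dihedral_form i j hh
  have hmz : (0 : ℤ) < m := by exact_mod_cast hm
  have hk0 := Int.emod_nonneg k hmz.ne'
  have hk1 := Int.emod_lt_of_pos k hmz
  obtain ⟨n, hn⟩ := Int.eq_ofNat_of_zero_le hk0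
  have hnm : n < m := by omega
  have e : (s i * s j) ^ k = (s i * s j) ^ n := by
    have h1 : k = m * (k / m) + n := by
      have := Int.mul_ediv_add_emod k m
      omega
    rw [h1, zpow_add, zpow_mul, zpow_natCast, hr, one_zpow, one_mul, zpow_natCast]
  rcases hk with hk | hk
  · rw [e] at hk
    by_cases h0 : n = 0
    · rw [hk, h0, pow_zero]
    · exfalso
      rw [hk, ← wprod_pw, hσ.hom_wprod] at hx
      exact (hf x).1 ⟨n, hnm⟩ h0 hx
  · exfalso
    rw [e] at hk
    have h2 : h = wprod (pw i j n ++ [i]) := by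
      rw [wprod_append, wprod_pw, hk]; simp
    rw [h2, hσ.hom_wprod] at hx
    exact (hf x).2 ⟨n, hnm⟩ hx

/-- All three checks. -/
structure AllFree (σ : Fin 3 → Fin 96 → Fin 96) : Prop where
  f01 : PairFree σ 0 1 4
  f02 : PairFree σ 0 2 2
  f12 : PairFree σ 1 2 6

theorem free1 : AllFree D1.σ := ⟨by decide +kernel, by decide +kernel, by decide +kernel⟩

theorem free2 : AllFree D2.σ := ⟨by decide +kernel, by decide +kernel, by decide +kernel⟩

/-- The stabilisers act freely on the upper half plane. -/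
theorem no_fixed {σ : Fin 3 → Fin 96 → Fin 96} (hσ : PermOK σ) (hf : AllFree σ) {g : W}
    (hg : g ∈ hσ.Lam) {z : ℍ} (hz : rho g z = z) : g = 1 := by
  obtain ⟨a, ha⟩ := to_chamber z
  have h1 : act ℝ (a * g * a⁻¹) (act ℝ a (Th z)) = act ℝ a (Th z) := by
    have e1 : (act ℝ a)⁻¹ (act ℝ a (Th z)) = Th z := by
      rw [← Equiv.Perm.mul_apply, inv_mul_cancel]; rfl
    rw [map_mul, map_mul, map_inv, Equiv.Perm.mul_apply, Equiv.Perm.mul_apply,
      e1, ← Th_rho g, hz]
  have h2 := chamber' ha (a * g * a⁻¹) (by rw [h1]; exact ha)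
  have h3 := h2.2
  have hx : hσ.hom (a * g * a⁻¹) (hσ.hom a 0) = hσ.hom a 0 := by
    have e1 : (hσ.hom a)⁻¹ (hσ.hom a 0) = 0 := by
      rw [← Equiv.Perm.mul_apply, inv_mul_cancel]; rfl
    rw [map_mul, map_mul, map_inv, Equiv.Perm.mul_apply, Equiv.Perm.mul_apply,
      e1, hσ.mem_Lam.1 hg]
  have hq : q (act ℝ a (Th z)) = 1 := by rw [q_act, q_Th]
  have h4 : a * g * a⁻¹ = 1 := by
    generalize act ℝ a (Th z) = u at *
    by_cases h0 : f 0 u = 0
    · by_cases h1' : f 1 u = 0
      · have h2' : f 2 u ≠ 0 := by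
          intro h2'
          obtain ⟨y, z', w⟩ := u
          simp only [f] at h0 h1' h2'
          simp only [q] at hq
          have : w = 0 := by linarith
          subst this
          have : z' = 0 := by linarith
          subst this
          have : y = 0 := by linarith
          subst this
          norm_num at hq
        refine pair_free hσ (i := 0) (j := 1) (m := 4) (by norm_num) isCox_s.r01 hf.f01 ?_ hx
        refine Subgroup.closure_mono ?_ h3
        rintro x ⟨i, rfl, hi⟩
        fin_cases i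
        · left; rfl
        · right; rfl
        · exact absurd hi h2'
      · refine pair_free hσ (i := 0) (j := 2) (m := 2) (by norm_num) isCox_s.r02 hf.f02 ?_ hx
        refine Subgroup.closure_mono ?_ h3
        rintro x ⟨i, rfl, hi⟩
        fin_cases i
        · left; rfl
        · exact absurd hi h1'
        · right; rfl
    · refine pair_free hσ (i := 1) (j := 2) (m := 6) (by norm_num) isCox_s.r12 hf.f12 ?_ hx
      refine Subgroup.closure_mono ?_ h3
      rintro x ⟨i, rfl, hi⟩
      fin_cases i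
      · exact absurd hi h0
      · left; rfl
      · right; rfl
  have : g = a⁻¹ * (a * g * a⁻¹) * a := by group
  rw [this, h4]; group

/-- Cocompactness of the stabilisers. -/
theorem cocompact {σ : Fin 3 → Fin 96 → Fin 96} {c : Fin 3 → Fin 96 → (Fin 6 → ℤ)}
    {wd : Fin 96 → List (Fin 3)} {basis : Fin 6 → Fin 3 × Fin 96} {M : ℕ}
    {steps : List (Fin 3 × Fin 96)} (C : Cert σ c wd basis M steps) :
    ∃ K : Set ℍ, IsCompact K ∧ ∀ z : ℍ, ∃ γ ∈ C.perm.Lam.map rho, γ z ∈ K := by
  refine ⟨⋃ x : Fin 96, (rho (C.t x)⁻¹) '' Metric.closedBall zI 3, ?_, ?_⟩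
  · refine isCompact_iUnion fun x => ?_
    exact (isCompact_closedBall _ _).image (rho (C.t x)⁻¹).continuous
  · intro z
    obtain ⟨g, hg⟩ := to_chamber z
    have h1 : rho g z ∈ Metric.closedBall zI 3 := by
      apply chamber_bounded
      rw [Th_rho]; exact hg
    refine ⟨rho ((C.t (C.perm.hom g 0))⁻¹ * g), ⟨_, ?_, rfl⟩, ?_⟩
    · show C.perm.hom _ 0 = 0
      rw [map_mul, Equiv.Perm.mul_apply, map_inv, Equiv.Perm.inv_eq_iff_eq, C.hom_t]
    · refine Set.mem_iUnion.2 ⟨C.perm.hom g 0, rho g z, h1, ?_⟩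
      rw [map_mul]; rfl

/-- Parity. -/
theorem isCox_par : IsCox (fun _ : Fin 3 => (-1 : ℤˣ)) := by
  constructor <;> decide

/-- The parity homomorphism. -/
def par : W →* ℤˣ := lift isCox_par

theorem par_s (i : Fin 3) : par (s i) = -1 := by simp [par]

/-- Parity is the change of colour. -/
theorem color {σ : Fin 3 → Fin 96 → Fin 96} (hσ : PermOK σ)
    (hc : ∀ i x, (σ i x).val < 48 ↔ ¬ x.val < 48) (g : W) (x : Fin 96) :
    ((hσ.hom g x).val < 48 ↔ x.val < 48) ↔ par g = 1 := by
  induction g using W_induction with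
  | h1 => simp
  | hs i w ih =>
    rw [hσ.hom_s_mul, map_mul, par_s, hc]
    have h1 : par w = 1 ∨ par w = -1 := Int.units_eq_one_or _
    rcases h1 with h1 | h1
    · have h2 := ih.2 h1
      rw [h1]
      constructor
      · intro h; exfalso; tauto
      · intro h; exact absurd h (by decide)
    · have h2 : ¬ ((hσ.hom w x).val < 48 ↔ x.val < 48) := by
        rw [ih, h1]; decide
      rw [h1]
      constructor
      · intro _; decide
      · intro _; tauto

theorem par_Lam {σ : Fin 3 → Fin 96 → Fin 96} (hσ : PermOK σ)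
    (hc : ∀ i x, (σ i x).val < 48 ↔ ¬ x.val < 48) {g : W} (hg : g ∈ hσ.Lam) : par g = 1 := by
  rw [← color hσ hc g 0, hσ.mem_Lam.1 hg]

theorem col1 : ∀ i x, (D1.σ i x).val < 48 ↔ ¬ x.val < 48 := by decide +kernel

theorem col2 : ∀ i x, (D2.σ i x).val < 48 ↔ ¬ x.val < 48 := by decide +kernel

end Pool.Agent.H5.Iso
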