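import Pool.Agent.H5.Iso.Cox

/-! Reidemeister-Schreier certificate for the abelianization of a point stabiliser. -/

namespace Pool.Agent.H5.Iso

/-- A word in the generators as an element of the group. -/
def wprod (l : List (Fin 3)) : W := (l.map s).prod

@[simp] theorem wprod_nil : wprod [] = 1 := rfl

@[simp] theorem wprod_cons (a : Fin 3) (l : List (Fin 3)) : wprod (a :: l) = s a * wprod l := by
  simp [wprod]

theorem wprod_append (l m : List (Fin 3)) : wprod (l ++ m) = wprod l * wprod m := by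
  simp [wprod]

theorem exists_wprod (g : W) : ∃ l, wprod l = g := by
  induction g using W_induction with
  | h1 => exact ⟨[], rfl⟩
  | hs i w ih => obtain ⟨l, rfl⟩ := ih; exact ⟨i :: l, wprod_cons i l⟩

theorem lift_wprod {G : Type*} [Group G] {t : Fin 3 → G} (h : IsCox t) (l : List (Fin 3)) :
    lift h (wprod l) = (l.map t).prod := by
  induction l with
  | nil => simp
  | cons a l ih => simp [ih]

/-- The three relators as words. -/
def relw : Fin 3 → List (Fin 3)
  | 0 => [0, 1, 0, 1, 0, 1, 0, 1]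
  | 1 => [0, 2, 0, 2]
  | 2 => [1, 2, 1, 2, 1, 2, 1, 2, 1, 2, 1, 2]

theorem wprod_relw (r : Fin 3) : wprod (relw r) = 1 := by
  fin_cases r
  · have := isCox_s.r01
    simp only [pow_succ, pow_zero, one_mul] at this
    simpa [relw, mul_assoc] using this
  · have := isCox_s.r02
    simp only [pow_succ, pow_zero, one_mul] at this
    simpa [relw, mul_assoc] using this
  · have := isCox_s.r12
    simp only [pow_succ, pow_zero, one_mul] at this
    simpa [relw, mul_assoc] using this

theorem isCox_of_words {G : Type*} [Group G] {t : Fin 3 → G} (h : ∀ i, t i * t i = 1)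
    (hr : ∀ r, ((relw r).map t).prod = 1) : IsCox t := by
  refine ⟨h, ?_, ?_, ?_⟩
  · have := hr 0
    simp only [pow_succ, pow_zero, one_mul]
    simpa [relw, mul_assoc] using this
  · have := hr 1
    simp only [pow_succ, pow_zero, one_mul]
    simpa [relw, mul_assoc] using this
  · have := hr 2
    simp only [pow_succ, pow_zero, one_mul]
    simpa [relw, mul_assoc] using this

section

variable (σ : Fin 3 → Fin 96 → Fin 96)

/-- Following a word (letters applied from the right). -/
def run : List (Fin 3) → Fin 96 → Fin 96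
  | [], x => x
  | a :: l, x => σ a (run l x)

/-- The conditions on the permutation data. -/
structure PermOK : Prop where
  inv : ∀ i x, σ i (σ i x) = x
  rel : ∀ r x, run σ (relw r) x = x

variable {σ}

/-- The generating permutations. -/
def PermOK.P (h : PermOK σ) (i : Fin 3) : Equiv.Perm (Fin 96) where
  toFun := σ i
  invFun := σ i
  left_inv := h.inv i
  right_inv := h.inv i

theorem PermOK.prod_P (h : PermOK σ) (l : List (Fin 3)) (x : Fin 96) :
    (l.map h.P).prod x = run σ l x := by
  induction l with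
  | nil => rfl
  | cons a l ih => simp only [List.map_cons, List.prod_cons, Equiv.Perm.mul_apply, ih, run]; rfl

theorem PermOK.isCox (h : PermOK σ) : IsCox h.P := by
  refine isCox_of_words ?_ ?_
  · intro i; ext1 x; exact h.inv i x
  · intro r; ext1 x; rw [h.prod_P, h.rel]; rfl

/-- The permutation representation. -/
def PermOK.hom (h : PermOK σ) : W →* Equiv.Perm (Fin 96) := lift h.isCox

theorem PermOK.hom_s (h : PermOK σ) (i : Fin 3) (x : Fin 96) : h.hom (s i) x = σ i x := by
  simp [PermOK.hom, PermOK.P]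

theorem PermOK.hom_s_mul (h : PermOK σ) (i : Fin 3) (w : W) (x : Fin 96) :
    h.hom (s i * w) x = σ i (h.hom w x) := by
  rw [map_mul, Equiv.Perm.mul_apply, h.hom_s]

theorem PermOK.hom_wprod (h : PermOK σ) (l : List (Fin 3)) (x : Fin 96) :
    h.hom (wprod l) x = run σ l x := by
  rw [PermOK.hom, lift_wprod, h.prod_P]

/-- The stabiliser of the point `0`. -/
def PermOK.Lam (h : PermOK σ) : Subgroup W where
  carrier := {g | h.hom g 0 = 0}
  one_mem' := by simp
  mul_mem' := by
    intro a b ha hb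
    simp only [Set.mem_ofPred_eq] at *
    rw [map_mul, Equiv.Perm.mul_apply, hb, ha]
  inv_mem' := by
    intro a ha
    simp only [Set.mem_ofPred_eq] at *
    rw [map_inv, Equiv.Perm.inv_eq_iff_eq]
    exact ha.symm

theorem PermOK.mem_Lam (h : PermOK σ) {g : W} : g ∈ h.Lam ↔ h.hom g 0 = 0 := Iff.rfl

/-! ### The cocycle -/

variable (σ) in
/-- The sum of a cocycle along a path. -/
def csum (c : Fin 3 → Fin 96 → (Fin 6 → ℤ)) : List (Fin 3) → Fin 96 → (Fin 6 → ℤ)
  | [], _ => 0
  | a :: l, x => c a (run σ l x) + csum c l x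

variable (σ) in
/-- The conditions on the cocycle. -/
structure CocOK (c : Fin 3 → Fin 96 → (Fin 6 → ℤ)) : Prop where
  inv : ∀ i x, c i (σ i x) + c i x = 0
  rel : ∀ r x, csum σ c (relw r) x = 0

/-- The generating permutations of the maximal abelian cover. -/
def CocOK.Q {c : Fin 3 → Fin 96 → (Fin 6 → ℤ)} (h : PermOK σ) (hc : CocOK σ c) (i : Fin 3) :
    Equiv.Perm (Fin 96 × (Fin 6 → ℤ)) where
  toFun z := (σ i z.1, c i z.1 + z.2)
  invFun z := (σ i z.1, c i z.1 + z.2)
  left_inv := by
    rintro ⟨x, v⟩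
    simp only [Prod.mk.injEq]
    refine ⟨h.inv i x, ?_⟩
    rw [← add_assoc, hc.inv, zero_add]
  right_inv := by
    rintro ⟨x, v⟩
    simp only [Prod.mk.injEq]
    refine ⟨h.inv i x, ?_⟩
    rw [← add_assoc, hc.inv, zero_add]

theorem CocOK.prod_Q {c : Fin 3 → Fin 96 → (Fin 6 → ℤ)} (h : PermOK σ) (hc : CocOK σ c)
    (l : List (Fin 3)) (x : Fin 96) (v : Fin 6 → ℤ) :
    (l.map (CocOK.Q h hc)).prod (x, v) = (run σ l x, csum σ c l x + v) := by
  induction l with
  | nil => simp [run, csum]
  | cons a l ih =>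
    simp only [List.map_cons, List.prod_cons, Equiv.Perm.mul_apply, ih, run, csum]
    simp only [CocOK.Q, Equiv.coe_fn_mk, add_assoc]

theorem CocOK.isCox {c : Fin 3 → Fin 96 → (Fin 6 → ℤ)} (h : PermOK σ) (hc : CocOK σ c) :
    IsCox (CocOK.Q h hc) := by
  refine isCox_of_words ?_ ?_
  · intro i; ext1 x; exact (CocOK.Q h hc i).left_inv x
  · intro r; ext1 x; obtain ⟨x, v⟩ := x; rw [CocOK.prod_Q, h.rel, hc.rel, zero_add]; rfl

/-- The action on the maximal abelian cover. -/
def CocOK.hom {c : Fin 3 → Fin 96 → (Fin 6 → ℤ)} (h : PermOK σ) (hc : CocOK σ c) :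
    W →* Equiv.Perm (Fin 96 × (Fin 6 → ℤ)) := lift (CocOK.isCox h hc)

theorem CocOK.hom_wprod {c : Fin 3 → Fin 96 → (Fin 6 → ℤ)} (h : PermOK σ) (hc : CocOK σ c)
    (l : List (Fin 3)) (x : Fin 96) (v : Fin 6 → ℤ) :
    CocOK.hom h hc (wprod l) (x, v) = (run σ l x, csum σ c l x + v) := by
  rw [CocOK.hom, lift_wprod, CocOK.prod_Q]

theorem CocOK.hom_apply {c : Fin 3 → Fin 96 → (Fin 6 → ℤ)} (h : PermOK σ) (hc : CocOK σ c)
    (g : W) (x : Fin 96) (v : Fin 6 → ℤ) :
    CocOK.hom h hc g (x, v) = (h.hom g x, (CocOK.hom h hc g (x, 0)).2 + v) := by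
  obtain ⟨l, rfl⟩ := exists_wprod g
  rw [CocOK.hom_wprod, CocOK.hom_wprod, h.hom_wprod]
  simp

/-- The period homomorphism. -/
def CocOK.phi {c : Fin 3 → Fin 96 → (Fin 6 → ℤ)} (h : PermOK σ) (hc : CocOK σ c) :
    h.Lam →* Multiplicative (Fin 6 → ℤ) where
  toFun g := Multiplicative.ofAdd (CocOK.hom h hc g (0, 0)).2
  map_one' := by simp
  map_mul' := by
    rintro ⟨g, hg⟩ ⟨k, hk⟩
    rw [← ofAdd_add]
    congr 1
    simp only [map_mul, Equiv.Perm.mul_apply, MulMemClass.mk_mul_mk]
    rw [CocOK.hom_apply h hc k 0 0]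
    rw [CocOK.hom_apply h hc g]
    rw [h.mem_Lam.1 hk]

theorem CocOK.phi_wprod {c : Fin 3 → Fin 96 → (Fin 6 → ℤ)} (h : PermOK σ) (hc : CocOK σ c)
    (l : List (Fin 3)) (hl : wprod l ∈ h.Lam) :
    CocOK.phi h hc ⟨wprod l, hl⟩ = Multiplicative.ofAdd (csum σ c l 0) := by
  simp only [CocOK.phi, MonoidHom.coe_mk, OneHom.coe_mk]
  rw [CocOK.hom_wprod]
  simp

/-! ### Elimination -/

/-- Edges along a path. -/
def edges (σ : Fin 3 → Fin 96 → Fin 96) : List (Fin 3) → Fin 96 → List (Fin 3 × Fin 96)
  | [], _ => []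
  | a :: l, x => (a, run σ l x) :: edges σ l x

/-- Index of an edge. -/
def eidx (e : Fin 3 × Fin 96) : ℕ := 96 * e.1.val + e.2.val

/-- One elimination step on the bit mask of known edges. -/
def estep (σ : Fin 3 → Fin 96 → Fin 96) (M : ℕ) (rx : Fin 3 × Fin 96) : ℕ :=
  match (edges σ (relw rx.1) rx.2).filter (fun e => !(M.testBit (eidx e))) with
  | [e] => M ||| 2 ^ (eidx e) ||| 2 ^ (eidx (e.1, σ e.1 e.2))
  | _ => M

theorem eidx_injective {e e' : Fin 3 × Fin 96} (h : eidx e = eidx e') : e = e' := by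
  obtain ⟨a, x⟩ := e
  obtain ⟨b, y⟩ := e'
  simp only [eidx] at h
  have h1 : a = b := by ext; omega
  have h2 : x = y := by ext; subst h1; omega
  rw [h1, h2]

theorem testBit_two_pow_or (M i j : ℕ) (h : (M ||| 2 ^ i).testBit j = true) :
    M.testBit j = true ∨ j = i := by
  rw [Nat.testBit_or, Bool.or_eq_true] at h
  rcases h with h | h
  · exact Or.inl h
  · right
    rw [Nat.testBit_two_pow] at h
    simpa using (by simpa using h : i = j).symm

theorem prod_edges_eq_filter {A : Type*} [CommGroup A] (τ : Fin 3 × Fin 96 → A) (M : ℕ)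
    (hM : ∀ e, M.testBit (eidx e) = true → τ e = 1) (l : List (Fin 3 × Fin 96)) :
    (l.map τ).prod = ((l.filter (fun e => !(M.testBit (eidx e)))).map τ).prod := by
  induction l with
  | nil => simp
  | cons e l ih =>
    rw [List.map_cons, List.prod_cons, List.filter_cons]
    by_cases h : M.testBit (eidx e) = true
    · rw [hM e h]; simp [h, ih]
    · simp only [Bool.not_eq_true] at h
      simp [h, ih]

theorem estep_sound {A : Type*} [CommGroup A] (τ : Fin 3 × Fin 96 → A)
    (hinv : ∀ a x, τ (a, σ a x) * τ (a, x) = 1)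
    (hrel : ∀ r x, ((edges σ (relw r) x).map τ).prod = 1) (M : ℕ)
    (hM : ∀ e, M.testBit (eidx e) = true → τ e = 1) (rx : Fin 3 × Fin 96) :
    ∀ e, (estep σ M rx).testBit (eidx e) = true → τ e = 1 := by
  intro e he
  unfold estep at he
  split at he
  · rename_i e0 heq
    have h1 := prod_edges_eq_filter τ M hM (edges σ (relw rx.1) rx.2)
    rw [heq, hrel] at h1
    have h2 : τ e0 = 1 := by simpa using h1.symm
    rcases testBit_two_pow_or _ _ _ he with h | h
    · rcases testBit_two_pow_or _ _ _ h with h | h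
      · exact hM e h
      · rw [eidx_injective h]; exact h2
    · rw [eidx_injective h]
      have := hinv e0.1 e0.2
      rw [show (e0.1, e0.2) = e0 from rfl, h2, mul_one] at this
      exact this
  · exact hM e he

theorem foldl_sound {A : Type*} [CommGroup A] (τ : Fin 3 × Fin 96 → A)
    (hinv : ∀ a x, τ (a, σ a x) * τ (a, x) = 1)
    (hrel : ∀ r x, ((edges σ (relw r) x).map τ).prod = 1) (steps : List (Fin 3 × Fin 96)) :
    ∀ (M : ℕ), (∀ e, M.testBit (eidx e) = true → τ e = 1) →
    ∀ e, (steps.foldl (estep σ) M).testBit (eidx e) = true → τ e = 1 := by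
  induction steps with
  | nil => intro M hM; simpa using hM
  | cons rx l ih =>
    intro M hM
    rw [List.foldl_cons]
    exact ih _ (estep_sound τ hinv hrel M hM rx)

variable (σ) in
/-- The full certificate. -/
structure Cert (c : Fin 3 → Fin 96 → (Fin 6 → ℤ)) (wd : Fin 96 → List (Fin 3))
    (basis : Fin 6 → Fin 3 × Fin 96) (M : ℕ) (steps : List (Fin 3 × Fin 96)) : Prop where
  perm : PermOK σ
  coc : CocOK σ c
  wd0 : wd 0 = []
  wdrun : ∀ x, run σ (wd x) 0 = x
  known : ∀ e : Fin 3 × Fin 96, M.testBit (eidx e) = true →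
    (wd (σ e.1 e.2) = e.1 :: wd e.2 ∨ wd e.2 = e.1 :: wd (σ e.1 e.2)) ∧ c e.1 e.2 = 0
  base : ∀ k, c (basis k).1 (basis k).2 = Pi.single k 1
  loops : ∀ k : Fin 6, run σ (wd (σ (basis k).1 (basis k).2)).reverse (σ (basis k).1 (basis k).2) = 0 ∧
    csum σ c ((wd (σ (basis k).1 (basis k).2)).reverse ++ (basis k).1 :: wd (basis k).2) 0 = Pi.single k 1
  final : ∀ e : Fin 3 × Fin 96, (steps.foldl (estep σ)
    (((List.finRange 6).map basis).foldl (fun m e => m ||| 2 ^ (eidx e) ||| 2 ^ (eidx (e.1, σ e.1 e.2))) M)).testBit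
      (eidx e) = true

section Main

variable {c : Fin 3 → Fin 96 → (Fin 6 → ℤ)} {wd : Fin 96 → List (Fin 3)}
    {basis : Fin 6 → Fin 3 × Fin 96} {M : ℕ} {steps : List (Fin 3 × Fin 96)}

/-- Coset representatives. -/
def Cert.t (_C : Cert σ c wd basis M steps) (x : Fin 96) : W := wprod (wd x)

theorem Cert.hom_t (C : Cert σ c wd basis M steps) (x : Fin 96) : C.perm.hom (C.t x) 0 = x := by
  rw [Cert.t, C.perm.hom_wprod, C.wdrun]

theorem Cert.mem (C : Cert σ c wd basis M steps) (g : W) (x y : Fin 96) (h : C.perm.hom g x = y) :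
    (C.t y)⁻¹ * g * C.t x ∈ C.perm.Lam := by
  rw [C.perm.mem_Lam, map_mul, map_mul, Equiv.Perm.mul_apply, Equiv.Perm.mul_apply, C.hom_t, h,
    map_inv, Equiv.Perm.inv_eq_iff_eq, C.hom_t]

/-- The Schreier cocycle in the abelianization. -/
def Cert.eta (C : Cert σ c wd basis M steps) (g : W) (x : Fin 96) : Abelianization C.perm.Lam :=
  Abelianization.of ⟨(C.t (C.perm.hom g x))⁻¹ * g * C.t x, C.mem g x _ rfl⟩

theorem Cert.eta_mul (C : Cert σ c wd basis M steps) (g h : W) (x : Fin 96) :
    C.eta (g * h) x = C.eta g (C.perm.hom h x) * C.eta h x := by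
  unfold Cert.eta
  rw [← map_mul]
  congr 1
  ext
  simp only [map_mul, Equiv.Perm.mul_apply, MulMemClass.mk_mul_mk]
  group

theorem Cert.eta_one (C : Cert σ c wd basis M steps) (x : Fin 96) : C.eta 1 x = 1 := by
  have := C.eta_mul 1 1 x
  simpa using this

theorem Cert.eta_mem (C : Cert σ c wd basis M steps) (g : C.perm.Lam) :
    C.eta g 0 = Abelianization.of g := by
  unfold Cert.eta
  congr 1
  ext
  have h0 : C.t 0 = 1 := by rw [Cert.t, C.wd0, wprod_nil]
  have h1 : C.perm.hom (g : W) 0 = 0 := g.2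
  simp only [h1, h0]
  simp

theorem Cert.eta_wprod (C : Cert σ c wd basis M steps) (l : List (Fin 3)) (x : Fin 96) :
    C.eta (wprod l) x = ((edges σ l x).map (fun e => C.eta (s e.1) e.2)).prod := by
  induction l with
  | nil => simp [edges, C.eta_one]
  | cons a l ih =>
    rw [wprod_cons, C.eta_mul, ih, C.perm.hom_wprod]
    simp [edges]

/-- The product over the basis with the exponents of the cocycle. -/
def Cert.mon (C : Cert σ c wd basis M steps) (v : Fin 6 → ℤ) : Abelianization C.perm.Lam :=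
  ∏ k, C.eta (s (basis k).1) (basis k).2 ^ v k

theorem Cert.mon_add (C : Cert σ c wd basis M steps) (u v : Fin 6 → ℤ) :
    C.mon (u + v) = C.mon u * C.mon v := by
  simp only [Cert.mon, Pi.add_apply, zpow_add, Finset.prod_mul_distrib]

theorem Cert.mon_zero (C : Cert σ c wd basis M steps) : C.mon 0 = 1 := by
  simp [Cert.mon]

theorem Cert.mon_single (C : Cert σ c wd basis M steps) (k : Fin 6) :
    C.mon (Pi.single k 1) = C.eta (s (basis k).1) (basis k).2 := by
  simp only [Cert.mon]
  rw [Finset.prod_eq_single k]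
  · simp
  · intro b _ hb; simp [Pi.single_eq_of_ne hb]
  · simp

theorem Cert.mon_csum (C : Cert σ c wd basis M steps) (l : List (Fin 3)) (x : Fin 96) :
    C.mon (csum σ c l x) = ((edges σ l x).map (fun e => C.mon (c e.1 e.2))).prod := by
  induction l with
  | nil => simp [edges, csum, C.mon_zero]
  | cons a l ih => simp [edges, csum, C.mon_add, ih]

theorem Cert.run_relw (C : Cert σ c wd basis M steps) (r : Fin 3) (x : Fin 96) :
    run σ (relw r) x = x := C.perm.rel r x

theorem Cert.eta_s (C : Cert σ c wd basis M steps) (a : Fin 3) (x : Fin 96) :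
    C.eta (s a) x = C.mon (c a x) := by
  set τ : Fin 3 × Fin 96 → Abelianization C.perm.Lam :=
    fun e => C.eta (s e.1) e.2 * (C.mon (c e.1 e.2))⁻¹ with hτ
  have hinv : ∀ a x, τ (a, σ a x) * τ (a, x) = 1 := by
    intro a x
    have h1 : C.eta (s a) (σ a x) * C.eta (s a) x = 1 := by
      have := C.eta_mul (s a) (s a) x
      rw [s_sq, C.eta_one, C.perm.hom_s] at this
      exact this.symm
    have h2 : C.mon (c a (σ a x)) * C.mon (c a x) = 1 := by
      rw [← C.mon_add, C.coc.inv, C.mon_zero]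
    simp only [hτ]
    calc C.eta (s a) (σ a x) * (C.mon (c a (σ a x)))⁻¹ * (C.eta (s a) x * (C.mon (c a x))⁻¹)
        = (C.eta (s a) (σ a x) * C.eta (s a) x) * (C.mon (c a (σ a x)) * C.mon (c a x))⁻¹ := by
          rw [mul_inv]; exact mul_mul_mul_comm _ _ _ _
      _ = 1 := by rw [h1, h2]; simp
  have hrel : ∀ r x, ((edges σ (relw r) x).map τ).prod = 1 := by
    intro r x
    have h1 : ((edges σ (relw r) x).map (fun e => C.eta (s e.1) e.2)).prod = 1 := by
      rw [← C.eta_wprod, wprod_relw, C.eta_one]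
    have h2 : ((edges σ (relw r) x).map (fun e => C.mon (c e.1 e.2))).prod = 1 := by
      rw [← C.mon_csum, C.coc.rel, C.mon_zero]
    have h3 : ((edges σ (relw r) x).map τ).prod =
        ((edges σ (relw r) x).map (fun e => C.eta (s e.1) e.2)).prod *
        (((edges σ (relw r) x).map (fun e => C.mon (c e.1 e.2))).prod)⁻¹ := by
      generalize edges σ (relw r) x = l
      induction l with
      | nil => simp
      | cons e l ih =>
        rw [List.map_cons, List.prod_cons, ih, List.map_cons, List.map_cons, List.prod_cons,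
          List.prod_cons, mul_inv]
        exact mul_mul_mul_comm _ _ _ _
    rw [h3, h1, h2]; simp
  have hM0 : ∀ e, M.testBit (eidx e) = true → τ e = 1 := by
    intro e he
    obtain ⟨h1, h2⟩ := C.known e he
    simp only [hτ, h2, C.mon_zero, inv_one, mul_one]
    unfold Cert.eta
    have : (⟨(C.t (C.perm.hom (s e.1) e.2))⁻¹ * s e.1 * C.t e.2, C.mem (s e.1) e.2 _ rfl⟩ :
        C.perm.Lam) = 1 := by
      ext
      simp only [C.perm.hom_s, Subgroup.coe_one]
      rcases h1 with h1 | h1
      · simp only [Cert.t, h1, wprod_cons]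
        group
      · simp only [Cert.t, h1, wprod_cons]
        rw [mul_assoc, s_mul_s_mul]; group
    rw [this, map_one]
  have hbase : ∀ k, τ (basis k) = 1 := by
    intro k
    simp only [hτ]
    rw [C.base k, C.mon_single]; simp
  have hM1 : ∀ (L : List (Fin 3 × Fin 96)), (∀ e ∈ L, τ e = 1) → ∀ M : ℕ,
      (∀ e, M.testBit (eidx e) = true → τ e = 1) →
      ∀ e, (L.foldl (fun m e => m ||| 2 ^ (eidx e) ||| 2 ^ (eidx (e.1, σ e.1 e.2))) M).testBit
        (eidx e) = true → τ e = 1 := by
    intro L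
    induction L with
    | nil => intro _ M hM; simpa using hM
    | cons e0 L ih =>
      intro hL M hM
      rw [List.foldl_cons]
      refine ih (fun e he => hL e (List.mem_cons_of_mem _ he)) _ ?_
      intro e he
      have h2 : τ e0 = 1 := hL e0 (List.mem_cons_self ..)
      rcases testBit_two_pow_or _ _ _ he with h | h
      · rcases testBit_two_pow_or _ _ _ h with h | h
        · exact hM e h
        · rw [eidx_injective h]; exact h2
      · rw [eidx_injective h]
        have := hinv e0.1 e0.2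
        rw [show (e0.1, e0.2) = e0 from rfl, h2, mul_one] at this
        exact this
  have hfin := foldl_sound τ hinv hrel steps _
    (hM1 ((List.finRange 6).map basis) (by simpa using hbase) M hM0) (a, x) (C.final (a, x))
  have : C.eta (s a) x * (C.mon (c a x))⁻¹ = 1 := hfin
  exact mul_inv_eq_one.1 this

theorem Cert.of_eq (C : Cert σ c wd basis M steps) (g : C.perm.Lam) :
    Abelianization.of g = C.mon (CocOK.phi C.perm C.coc g).toAdd := by
  rw [← C.eta_mem]
  obtain ⟨g, hg⟩ := g
  obtain ⟨l, rfl⟩ := exists_wprod g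
  rw [CocOK.phi_wprod]
  simp only [toAdd_ofAdd]
  rw [C.eta_wprod, C.mon_csum]
  congr 1
  refine List.map_congr_left ?_
  intro e _
  exact C.eta_s e.1 e.2

/-- The abelianization is free abelian of rank six. -/
theorem Cert.abelianization (C : Cert σ c wd basis M steps) :
    Nonempty (Abelianization C.perm.Lam ≃* Multiplicative (Fin 6 → ℤ)) := by
  let F : Abelianization C.perm.Lam →* Multiplicative (Fin 6 → ℤ) :=
    Abelianization.lift (CocOK.phi C.perm C.coc)
  have hF : ∀ g, F (Abelianization.of g) = CocOK.phi C.perm C.coc g := fun g => by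
    simp [F]
  refine ⟨MulEquiv.ofBijective F ⟨?_, ?_⟩⟩
  · rw [injective_iff_map_eq_one]
    intro a ha
    obtain ⟨g, rfl⟩ := QuotientGroup.mk_surjective a
    have h1 : (QuotientGroup.mk g : Abelianization C.perm.Lam) = Abelianization.of g := rfl
    rw [h1] at ha ⊢
    rw [hF] at ha
    rw [C.of_eq, ha]
    exact C.mon_zero
  · intro v
    have hb : ∀ k : Fin 6, ∃ g : C.perm.Lam, CocOK.phi C.perm C.coc g =
        Multiplicative.ofAdd (Pi.single k 1) := by
      intro k
      obtain ⟨h1, h2⟩ := C.loops k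
      refine ⟨⟨wprod ((wd (σ (basis k).1 (basis k).2)).reverse ++ (basis k).1 :: wd (basis k).2), ?_⟩,
        ?_⟩
      · rw [C.perm.mem_Lam, wprod_append, wprod_cons, map_mul, map_mul, Equiv.Perm.mul_apply,
          Equiv.Perm.mul_apply, C.perm.hom_wprod, C.perm.hom_wprod, C.wdrun, C.perm.hom_s, h1]
      · rw [CocOK.phi_wprod, h2]
    choose g hg using hb
    refine ⟨∏ k, Abelianization.of (g k) ^ v.toAdd k, ?_⟩
    rw [map_prod]
    have h1 : ∀ k, F (Abelianization.of (g k) ^ v.toAdd k) =
        Multiplicative.ofAdd (Pi.single k (v.toAdd k)) := by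
      intro k
      rw [map_zpow, hF, hg, ← ofAdd_zsmul]
      congr 1
      ext j
      by_cases hj : j = k
      · subst hj; simp
      · simp [Pi.single_eq_of_ne hj]
    simp only [h1]
    rw [← ofAdd_sum]
    have h2 : ∑ k, Pi.single k (v.toAdd k) = (v.toAdd : Fin 6 → ℤ) :=
      Finset.univ_sum_single v.toAdd
    rw [h2]
    rfl

end Main

end

end Pool.Agent.H5.Iso
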