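import Pool.Agent.H5.Iso.Lin
import Pool.Agent.H5.Iso.Transp

/-! The intertwining matrices. -/

namespace Pool.Agent.H5.Iso

open UpperHalfPlane

/-- Encoded orbital labels. -/
def LT : ℕ := 623811686582810643386674715631053053685226476145865906625715787076938166234616327426234566286602075647152423537686772048203509758737994668480570169714480490102715838059540724460600602123356535436973348254038975730914254747948173534697816647636496471088264681291837329364698823206524869648710204025867935593353128488850241171324454490949311234884116805947880441530029389223992511299657636028021933306373300549519873870352218775278811555601784776606202968802256977375231606595832924182955728960417808580811591155669991231930953016994482162287799870747120257761220734304628595147272186445915137953871903401766456608235482300025079580234968879991768757835397962558569313350094791811733761364899314797165326810198363149245393522295189731414419458485314808617893436033361355258553578682461403454551357322682624369328845554154219208708807336316286362587597230511735267566547156222656996723645561503201480191050149852976987998884462789224297111365045272505240243973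495950444490112622559010590043561849059303774829356590660992976082282886662992022150032391576629413307619209351038804566146631048708319131635622126438521165614929885007046239971371723528038466455677030413065515073444799708204734887805822970096534717766525305415294918354549247980534679087602195694633480740602562693665726965232241841483456461764194581368330334826830509193120050231511181697748594720290195857213315818831377205600944304499486777056829350100913334010411769514737968796912617199007819892378230988610579226079295918666257049075808425771416954129407725730247645007324075638007006719980392575447600385330236357744737305752587688968598608001552096501919592220444648634528648489682719642951154719474401788273197074514742278220436298172809617398150392252423092658619598528911777932312465622030596504187611215092049825352295383814091034884309818398847674832205608373375916206036704861808822564736091480598992517334528645955848136232574068853654838757806497782375964941245464289733889944466709077537558852059437694262846847956418517643352223501187592454950466804189598930501530577843792786779196345212560749671209994761122535827116800276872439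13605372660713181183746656142325483603773061737074056094737311511457458038639683325307558255962932599861162395369833910393639917953589194478223386926069603822635330719388876060241026612979641673607457732963824382284148903557690967392545235920316012026808675140755452502103808015490143565518219969317724775257833164111728398127421656561586557543405234806098977253437719927796738684137696542287626309009872307393428553794229712981832582044236846593326008658814239272435694238952417387898355943882328471694566578297754301149497222808218845282909757527820509111515273537263177363146087207884738820634954706101228860361792210817339551700353324468185729121163640795362955792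

/-- Label of a pair of black points. -/
def labB (y x : ℕ) : ℕ := (LT >>> (4 * (48 * y + x))) % 16

/-- Label of a pair of points. -/
def lab (y x : Fin 96) : ℕ :=
  if y.val < 48 then (if x.val < 48 then labB y.val x.val else 10)
  else (if x.val < 48 then 10 else labB (D2.σ 0 y).val (D1.σ 0 x).val)

theorem lab_equiv : ∀ i y x, lab (D2.σ i y) (D1.σ i x) = lab y x := by decide +kernel

/-- Coefficients of the first intertwiner. -/
def mc : ℕ → ℤ
  | 0 => 1
  | 1 => 1
  | 2 => -1
  | 5 => 1
  | _ => 0

/-- Coefficients of the second intertwiner. -/
def nc : ℕ → ℤ
  | 0 => 3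
  | 1 => 16
  | 2 => -3
  | 5 => 10
  | 7 => -2
  | 8 => -8
  | 9 => -8
  | _ => 0

/-- The black points. -/
abbrev B : Type := {x : Fin 96 // x.val < 48}

/-- The base black point. -/
def b0 : B := ⟨0, by decide⟩

theorem sum1 : ∀ x : B, ∑ y : B, nc (lab y.1 0) * mc (lab y.1 x.1) = if x = b0 then 96 else 0 := by
  decide +kernel

theorem sum2 : ∀ y : B, ∑ x : B, mc (lab 0 x.1) * nc (lab y.1 x.1) = if y = b0 then 96 else 0 := by
  decide +kernel

theorem lab_W (g : W) (y x : Fin 96) :
    lab (D2.cert.perm.hom g y) (D1.cert.perm.hom g x) = lab y x := by
  induction g using W_induction with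
  | h1 => simp
  | hs i w ih => rw [PermOK.hom_s_mul, PermOK.hom_s_mul, lab_equiv, ih]

/-- The even subgroup. -/
abbrev Ev : Subgroup W := par.ker

theorem Ev_color {σ : Fin 3 → Fin 96 → Fin 96} (hσ : PermOK σ)
    (hc : ∀ i x, (σ i x).val < 48 ↔ ¬ x.val < 48) (g : Ev) (x : Fin 96) :
    (hσ.hom g x).val < 48 ↔ x.val < 48 := (color hσ hc g x).2 g.2

/-- The action of the even subgroup on the black points. -/
def blk {σ : Fin 3 → Fin 96 → Fin 96} (hσ : PermOK σ)
    (hc : ∀ i x, (σ i x).val < 48 ↔ ¬ x.val < 48) : Ev →* Equiv.Perm B where
  toFun g := (hσ.hom (g : W)).subtypePerm (p := fun x : Fin 96 => x.val < 48)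
    (fun x => Ev_color hσ hc g x)
  map_one' := by
    ext x
    simp
  map_mul' g h := by
    apply Equiv.ext
    intro x
    apply Subtype.ext
    show hσ.hom ((g * h : Ev) : W) x.1 = hσ.hom g (hσ.hom h x.1)
    rw [Subgroup.coe_mul, map_mul, Equiv.Perm.mul_apply]

theorem blk_apply {σ : Fin 3 → Fin 96 → Fin 96} (hσ : PermOK σ)
    (hc : ∀ i x, (σ i x).val < 48 ↔ ¬ x.val < 48) (g : Ev) (x : B) :
    (blk hσ hc g x).1 = hσ.hom (g : W) x.1 := rfl

theorem blk_trans {σ : Fin 3 → Fin 96 → Fin 96} {c : Fin 3 → Fin 96 → (Fin 6 → ℤ)}
    {wd : Fin 96 → List (Fin 3)} {basis : Fin 6 → Fin 3 × Fin 96} {M : ℕ}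
    {steps : List (Fin 3 × Fin 96)} (C : Cert σ c wd basis M steps)
    (hc : ∀ i x, (σ i x).val < 48 ↔ ¬ x.val < 48) (x : B) : ∃ g, blk C.perm hc g b0 = x := by
  have h1 : par (C.t x.1) = 1 := by
    rw [← color C.perm hc (C.t x.1) 0, C.hom_t]
    simp [x.2]
  refine ⟨⟨C.t x.1, h1⟩, ?_⟩
  apply Subtype.ext
  rw [blk_apply]
  exact C.hom_t x.1

theorem mem_map_iff {σ : Fin 3 → Fin 96 → Fin 96} (hσ : PermOK σ)
    (hc : ∀ i x, (σ i x).val < 48 ↔ ¬ x.val < 48) (γ : ℍ ≃ᵢ ℍ) :
    γ ∈ hσ.Lam.map rho ↔ ∃ g : Ev, blk hσ hc g b0 = b0 ∧ (rho.comp Ev.subtype) g = γ := by
  constructor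
  · rintro ⟨g, hg, rfl⟩
    refine ⟨⟨g, par_Lam hσ hc hg⟩, ?_, rfl⟩
    apply Subtype.ext
    rw [blk_apply]
    exact hg
  · rintro ⟨g, hg, rfl⟩
    refine ⟨g, ?_, rfl⟩
    have := congrArg Subtype.val hg
    rw [blk_apply] at this
    exact this

/-- Isospectrality. -/
theorem isospectral (μ : ℝ) :
    Module.rank ℝ (Submodule.span ℝ (Tr.Eig (D1.cert.perm.Lam.map rho) μ)) =
    Module.rank ℝ (Submodule.span ℝ (Tr.Eig (D2.cert.perm.Lam.map rho) μ)) := by
  refine Tr.rank_span_Eig_eq (rho.comp Ev.subtype) ?_ (blk D1.cert.perm col1) (blk D2.cert.perm col2)
    b0 b0 (blk_trans D1.cert col1) (blk_trans D2.cert col2)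
    (fun y x => (mc (lab y.1 x.1) : ℝ)) ?_ (fun x y => (nc (lab y.1 x.1) : ℝ)) ?_
    (c := 96) (by norm_num) ?_ ?_ _ _ (mem_map_iff D1.cert.perm col1) (mem_map_iff D2.cert.perm col2) μ
  · intro g
    exact Mob_of_even g.2
  · intro g x y
    simp only [blk_apply, lab_W]
  · intro g x y
    simp only [blk_apply, lab_W]
  · intro x
    have h := sum1 x
    have h2 : ((∑ y : B, nc (lab y.1 0) * mc (lab y.1 x.1) : ℤ) : ℝ) =
        ((if x = b0 then 96 else 0 : ℤ) : ℝ) := by rw [h]
    push_cast at h2
    exact h2
  · intro y
    have h := sum2 y
    have h2 : ((∑ x : B, mc (lab 0 x.1) * nc (lab y.1 x.1) : ℤ) : ℝ) =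
        ((if y = b0 then 96 else 0 : ℤ) : ℝ) := by rw [h]
    push_cast at h2
    exact h2

end Pool.Agent.H5.Iso
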