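import Pool.Agent.H5.Iso.Moeb

/-! Isometries are linear on the hyperboloid; the two groups are not conjugate. -/

namespace Pool.Agent.H5.Iso

open UpperHalfPlane Matrix

/-- The three words witnessing non-conjugacy. -/
def w3 : Fin 3 → List (Fin 3)
  | 0 => [2, 1, 2, 0, 1, 2, 1, 0]
  | 1 => [1, 2, 0, 1, 2, 0, 1, 2, 1, 0, 1, 0]
  | 2 => [1, 0, 1, 2, 1, 2, 1, 0, 1, 2, 0, 1, 2, 0]

theorem w3_mem : ∀ i, run D2.σ (w3 i) 0 = 0 := by decide +kernel

theorem w3_moves : ∀ x, ∃ i, run D1.σ (w3 i) x ≠ x := by decide +kernel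

/-- The two stabilisers are not conjugate in the abstract group. -/
theorem nonconj (a : W) : ¬ ∀ g : W, g ∈ D1.cert.perm.Lam ↔ a * g * a⁻¹ ∈ D2.cert.perm.Lam := by
  intro h
  obtain ⟨i, hi⟩ := w3_moves (D1.cert.perm.hom a 0)
  apply hi
  have h1 : a⁻¹ * wprod (w3 i) * a ∈ D1.cert.perm.Lam := by
    rw [h]
    have : a * (a⁻¹ * wprod (w3 i) * a) * a⁻¹ = wprod (w3 i) := by group
    rw [this, D2.cert.perm.mem_Lam, D2.cert.perm.hom_wprod, w3_mem]
  rw [D1.cert.perm.mem_Lam, map_mul, map_mul, map_inv, Equiv.Perm.mul_apply, Equiv.Perm.mul_apply,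
    Equiv.Perm.inv_eq_iff_eq, D1.cert.perm.hom_wprod] at h1
  exact h1

theorem exists_z2 : ∃ z : ℍ, Th z = (2, 1, 0) := Th_surj _ (by norm_num [q]) (by norm_num)
theorem exists_z3 : ∃ z : ℍ, Th z = (2, 0, 1) := Th_surj _ (by norm_num [q]) (by norm_num)

theorem vec_bil (u v : ℝ × ℝ × ℝ) : vec u ⬝ᵥ (J *ᵥ vec v) = bil u v := by
  simp only [J, Matrix.mulVec_diagonal, dotProduct, Fin.sum_univ_three, vec, dJ, bil]
  simp
  ring

/-- Isometries of the upper half plane are linear on the hyperboloid. -/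
theorem linear (φ : ℍ ≃ᵢ ℍ) : ∃ A : Matrix (Fin 3) (Fin 3) ℝ, Aᵀ * J * A = J ∧ 0 < A 0 0 ∧
    ∀ z, vec (Th (φ z)) = A *ᵥ vec (Th z) := by
  obtain ⟨z2, h2⟩ := exists_z2
  obtain ⟨z3, h3⟩ := exists_z3
  set u1 := Th (φ zI) with hu1
  set u2 := Th (φ z2) with hu2
  set u3 := Th (φ z3) with hu3
  have hb : ∀ z w, bil (Th (φ z)) (Th (φ w)) = bil (Th z) (Th w) := by
    intro z w; rw [bil_Th, bil_Th, φ.isometry.dist_eq]
  have b11 : bil u1 u1 = 1 := by rw [hu1, hb, Th_zI]; norm_num [bil]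
  have b12 : bil u1 u2 = 2 := by rw [hu1, hu2, hb, Th_zI, h2]; norm_num [bil]
  have b13 : bil u1 u3 = 2 := by rw [hu1, hu3, hb, Th_zI, h3]; norm_num [bil]
  have b22 : bil u2 u2 = 1 := by rw [hu2, hb, h2]; norm_num [bil]
  have b23 : bil u2 u3 = 4 := by rw [hu2, hu3, hb, h2, h3]; norm_num [bil]
  have b33 : bil u3 u3 = 1 := by rw [hu3, hb, h3]; norm_num [bil]
  have hp : 0 < u1.1 := Th_pos _
  let A : Matrix (Fin 3) (Fin 3) ℝ :=
    !![u1.1, u2.1 - 2 * u1.1, u3.1 - 2 * u1.1;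
       u1.2.1, u2.2.1 - 2 * u1.2.1, u3.2.1 - 2 * u1.2.1;
       u1.2.2, u2.2.2 - 2 * u1.2.2, u3.2.2 - 2 * u1.2.2]
  have hA : Aᵀ * J * A = J := by
    simp only [bil] at b11 b12 b13 b22 b23 b33
    ext i j
    fin_cases i <;> fin_cases j <;>
      simp [A, J, Matrix.mul_apply, Fin.sum_univ_three, dJ, Matrix.diagonal] <;> linarith
  refine ⟨A, hA, hp, fun z => ?_⟩
  -- pairing with the columns
  have c1 : bil u1 (Th (φ z)) = bil (1, 0, 0) (Th z) := by rw [hu1, hb, Th_zI]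
  have c2 : bil u2 (Th (φ z)) = bil (2, 1, 0) (Th z) := by rw [hu2, hb, h2]
  have c3 : bil u3 (Th (φ z)) = bil (2, 0, 1) (Th z) := by rw [hu3, hb, h3]
  have key : Aᵀ *ᵥ (J *ᵥ vec (Th (φ z))) = J *ᵥ vec (Th z) := by
    generalize Th (φ z) = v at *
    generalize Th z = u at *
    simp only [bil] at c1 c2 c3
    ext i
    fin_cases i <;>
      simp [A, J, Matrix.mulVec, dotProduct, Fin.sum_univ_three, dJ, Matrix.diagonal, vec] <;>
      linarith
  have h4 := mul_inv_A hA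
  calc vec (Th (φ z)) = (A * (Ji * Aᵀ * J)) *ᵥ vec (Th (φ z)) := by rw [h4, Matrix.one_mulVec]
    _ = A *ᵥ (Ji *ᵥ (Aᵀ *ᵥ (J *ᵥ vec (Th (φ z))))) := by
        simp only [Matrix.mulVec_mulVec, Matrix.mul_assoc]
    _ = A *ᵥ ((Ji * J) *ᵥ vec (Th z)) := by
        rw [key]
        congr 1
        exact Matrix.mulVec_mulVec (vec (Th z)) Ji J
    _ = A *ᵥ vec (Th z) := by rw [Ji_J, Matrix.one_mulVec]

/-- Matrices agreeing on the hyperboloid are equal. -/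
theorem mat_ext {A B : Matrix (Fin 3) (Fin 3) ℝ} (h : ∀ z : ℍ, A *ᵥ vec (Th z) = B *ᵥ vec (Th z)) :
    A = B := by
  obtain ⟨z2, h2⟩ := exists_z2
  obtain ⟨z3, h3⟩ := exists_z3
  have a1 := h zI
  have a2 := h z2
  have a3 := h z3
  rw [Th_zI] at a1
  rw [h2] at a2
  rw [h3] at a3
  ext i j
  have b1 := congrFun a1 i
  have b2 := congrFun a2 i
  have b3 := congrFun a3 i
  simp [Matrix.mulVec, dotProduct, Fin.sum_univ_three, vec] at b1 b2 b3
  fin_cases j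
  · simpa using b1
  · simp only [Fin.mk_one]; linarith
  · simp only [Fin.reduceFinMk]; linarith

theorem vec_Th_rho (g : W) (z : ℍ) : vec (Th (rho g z)) = MR g *ᵥ vec (Th z) := by
  rw [Th_rho, vec_act]; rfl

/-- The two groups are not conjugate in the full isometry group. -/
theorem not_isometric : ¬ ∃ φ : ℍ ≃ᵢ ℍ, ∀ γ : ℍ ≃ᵢ ℍ,
    γ ∈ D1.cert.perm.Lam.map rho ↔ φ * γ * φ⁻¹ ∈ D2.cert.perm.Lam.map rho := by
  rintro ⟨φ, hφ⟩
  obtain ⟨A, hA, hp, hz⟩ := linear φ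
  have h1 : ∀ g ∈ D1.cert.perm.Lam, ∃ g' : W, A * MR g = MR g' * A := by
    intro g hg
    obtain ⟨g', _, hg'⟩ := (hφ (rho g)).1 ⟨g, hg, rfl⟩
    refine ⟨g', ?_⟩
    apply mat_ext
    intro z
    have e1 : φ (rho g z) = rho g' (φ z) := by
      rw [hg']
      show φ (rho g z) = φ (rho g (φ⁻¹ (φ z)))
      have : φ⁻¹ (φ z) = z := φ.symm_apply_apply z
      rw [this]
    rw [← Matrix.mulVec_mulVec, ← vec_Th_rho, ← hz, e1, vec_Th_rho, hz, Matrix.mulVec_mulVec]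
  obtain ⟨a, ha⟩ := rigid hA hp h1
  have h2 : φ = rho a := by
    ext1 z
    apply Th_injective
    apply vec_injective
    rw [hz, ha, vec_Th_rho]
  apply nonconj a
  intro g
  constructor
  · intro hg
    obtain ⟨g', hg1, hg'⟩ := (hφ (rho g)).1 ⟨g, hg, rfl⟩
    rw [h2, ← map_inv, ← map_mul, ← map_mul] at hg'
    rw [← rho_injective hg']; exact hg1
  · intro hg
    obtain ⟨g', hg1, hg'⟩ := (hφ (rho g)).2 (by
      rw [h2, ← map_inv, ← map_mul, ← map_mul]; exact ⟨_, hg, rfl⟩)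
    rw [← rho_injective hg']; exact hg1

end Pool.Agent.H5.Iso
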