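import Pool.Agent.H5.Iso.Free

/-! Even elements act by Moebius transformations; isometries are linear on the hyperboloid. -/

namespace Pool.Agent.H5.Iso

open UpperHalfPlane ComplexConjugate

theorem im_of_Th (w : ℍ) : w.im = 1 / ((Th w).1 + √3 * (Th w).2.2) := by
  have h1 := w.im_pos
  have h4 : (√3 : ℝ) ≠ 0 := by positivity
  simp only [Th]
  field_simp
  ring

theorem re_of_Th (w : ℍ) : w.re = -√3 * (Th w).2.1 * w.im := by
  have h1 := w.im_pos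
  have h4 : (√3 : ℝ) ≠ 0 := by positivity
  simp only [Th]
  field_simp

theorem den_pos {z : ℍ} (a : ℝ) : 0 < (z.re - a) ^ 2 + z.im ^ 2 := by
  have h1 := z.im_pos
  positivity

theorem im_s0 (z : ℍ) : (rho (s 0) z).im = z.im / (z.re ^ 2 + z.im ^ 2) := by
  rw [im_of_Th, Th_rho, act_s]
  have h1 := z.im_pos
  have h2 := den_pos (z := z) 0
  rw [sub_zero] at h2
  have h4 : (√3 : ℝ) ≠ 0 := by positivity
  have e : (S 0 (Th z)).1 + √3 * (S 0 (Th z)).2.2 = (z.re ^ 2 + z.im ^ 2) / z.im := by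
    simp only [S, Th]
    field_simp
    ring
  rw [e, one_div_div]

theorem re_s0 (z : ℍ) : (rho (s 0) z).re = z.re / (z.re ^ 2 + z.im ^ 2) := by
  rw [re_of_Th, im_s0, Th_rho, act_s]
  have h1 := z.im_pos
  have h2 := den_pos (z := z) 0
  rw [sub_zero] at h2
  have h4 : (√3 : ℝ) ≠ 0 := by positivity
  simp only [S, Th]
  field_simp

theorem im_s1 (z : ℍ) : (rho (s 1) z).im = 2 * z.im / ((z.re - 1) ^ 2 + z.im ^ 2) := by
  rw [im_of_Th, Th_rho, act_s]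
  have h1 := z.im_pos
  have h2 := den_pos (z := z) 1
  have h4 : (√3 : ℝ) ≠ 0 := by positivity
  have e : (S 1 (Th z)).1 + √3 * (S 1 (Th z)).2.2 = ((z.re - 1) ^ 2 + z.im ^ 2) / (2 * z.im) := by
    simp only [S, Th]
    field_simp
    ring
  rw [e, one_div_div]

theorem re_s1 (z : ℍ) : (rho (s 1) z).re = (z.re ^ 2 + z.im ^ 2 - 1) / ((z.re - 1) ^ 2 + z.im ^ 2) := by
  rw [re_of_Th, im_s1, Th_rho, act_s]
  have h1 := z.im_pos
  have h2 := den_pos (z := z) 1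
  have h4 : (√3 : ℝ) ≠ 0 := by positivity
  simp only [S, Th]
  field_simp
  ring

theorem im_s2 (z : ℍ) : (rho (s 2) z).im = 2 * z.im / ((z.re - √3) ^ 2 + z.im ^ 2) := by
  rw [im_of_Th, Th_rho, act_s]
  have h1 := z.im_pos
  have h2 := den_pos (z := z) √3
  have h4 : (√3 : ℝ) ≠ 0 := by positivity
  have h5 : (√3 : ℝ) ^ 2 = 3 := Real.sq_sqrt (by norm_num)
  have e : (S 2 (Th z)).1 + √3 * (S 2 (Th z)).2.2 = ((z.re - √3) ^ 2 + z.im ^ 2) / (2 * z.im) := by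
    simp only [S, Th]
    field_simp
    ring_nf
    rw [show (√3 : ℝ) ^ 3 = √3 ^ 2 * √3 by ring, h5]
    ring
  rw [e, one_div_div]

theorem re_s2 (z : ℍ) : (rho (s 2) z).re =
    (√3 * (z.re ^ 2 + z.im ^ 2) - 4 * z.re + √3) / ((z.re - √3) ^ 2 + z.im ^ 2) := by
  rw [re_of_Th, im_s2, Th_rho, act_s]
  have h1 := z.im_pos
  have h2 := den_pos (z := z) √3
  have h4 : (√3 : ℝ) ≠ 0 := by positivity
  have h5 : (√3 : ℝ) ^ 2 = 3 := Real.sq_sqrt (by norm_num)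
  simp only [S, Th]
  field_simp
  ring_nf

/-- Moebius form. -/
def Mob (g : W) : Prop := ∃ a b c d : ℝ, a * d - b * c = 1 ∧
  ∀ z : ℍ, ((rho g z : ℍ) : ℂ) = ((a : ℂ) * (z : ℂ) + (b : ℂ)) / ((c : ℂ) * (z : ℂ) + (d : ℂ))

/-- Anti-Moebius form. -/
def AMob (g : W) : Prop := ∃ a b c d : ℝ, a * d - b * c = -1 ∧
  ∀ z : ℍ, ((rho g z : ℍ) : ℂ) = ((a : ℂ) * conj (z : ℂ) + (b : ℂ)) / ((c : ℂ) * conj (z : ℂ) + (d : ℂ))

theorem coe_eq_mk (z : ℍ) : (z : ℂ) = ⟨z.re, z.im⟩ := rfl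

theorem AMob_s (i : Fin 3) : AMob (s i) := by
  have h2 : (√2 : ℝ) ^ 2 = 2 := Real.sq_sqrt (by norm_num)
  have h20 : (√2 : ℝ) ≠ 0 := by positivity
  have h3 : (√3 : ℝ) ^ 2 = 3 := Real.sq_sqrt (by norm_num)
  fin_cases i
  · refine ⟨0, 1, 1, 0, by norm_num, fun z => ?_⟩
    have h1 := z.im_pos
    have hd := den_pos (z := z) 0
    rw [sub_zero] at hd
    simp only [Fin.zero_eta]
    rw [coe_eq_mk (rho (s 0) z), im_s0, re_s0, coe_eq_mk z]
    apply Complex.ext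
    · simp [Complex.normSq_apply]
      field_simp
    · simp [Complex.normSq_apply]
      field_simp
  · refine ⟨1 / √2, 1 / √2, 1 / √2, -1 / √2, by field_simp; rw [h2]; norm_num, fun z => ?_⟩
    have h1 := z.im_pos
    have hd := den_pos (z := z) 1
    simp only [Fin.mk_one]
    rw [coe_eq_mk (rho (s 1) z), im_s1, re_s1, coe_eq_mk z]
    have e : (((1 / √2 : ℝ) : ℂ) * conj (⟨z.re, z.im⟩ : ℂ) + ((1 / √2 : ℝ) : ℂ)) /
        (((1 / √2 : ℝ) : ℂ) * conj (⟨z.re, z.im⟩ : ℂ) + ((-1 / √2 : ℝ) : ℂ)) =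
        (conj (⟨z.re, z.im⟩ : ℂ) + 1) / (conj (⟨z.re, z.im⟩ : ℂ) - 1) := by
      have h5 : ((1 / √2 : ℝ) : ℂ) ≠ 0 := by
        exact_mod_cast (by positivity : (1 / √2 : ℝ) ≠ 0)
      rw [show ((-1 / √2 : ℝ) : ℂ) = -((1 / √2 : ℝ) : ℂ) by push_cast; ring]
      rw [show ((1 / √2 : ℝ) : ℂ) * conj (⟨z.re, z.im⟩ : ℂ) + ((1 / √2 : ℝ) : ℂ) =
        ((1 / √2 : ℝ) : ℂ) * (conj (⟨z.re, z.im⟩ : ℂ) + 1) by ring]
      rw [show ((1 / √2 : ℝ) : ℂ) * conj (⟨z.re, z.im⟩ : ℂ) + -((1 / √2 : ℝ) : ℂ) =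
        ((1 / √2 : ℝ) : ℂ) * (conj (⟨z.re, z.im⟩ : ℂ) - 1) by ring]
      rw [mul_div_mul_left _ _ h5]
    rw [e]
    have hd' : (z.re - 1) * (z.re - 1) + z.im * z.im ≠ 0 := by
      have : (z.re - 1) * (z.re - 1) + z.im * z.im = (z.re - 1) ^ 2 + z.im ^ 2 := by ring
      rw [this]; exact hd.ne'
    apply Complex.ext
    · simp [Complex.div_re, Complex.normSq_apply]
      field_simp
      ring
    · simp [Complex.div_im, Complex.normSq_apply]
      field_simp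
      ring
  · refine ⟨-√3 / √2, 1 / √2, -1 / √2, √3 / √2, ?_, fun z => ?_⟩
    · field_simp; rw [h2, h3]; norm_num
    have h1 := z.im_pos
    have hd := den_pos (z := z) √3
    simp only [Fin.reduceFinMk]
    rw [coe_eq_mk (rho (s 2) z), im_s2, re_s2, coe_eq_mk z]
    have e : (((-√3 / √2 : ℝ) : ℂ) * conj (⟨z.re, z.im⟩ : ℂ) + ((1 / √2 : ℝ) : ℂ)) /
        (((-1 / √2 : ℝ) : ℂ) * conj (⟨z.re, z.im⟩ : ℂ) + ((√3 / √2 : ℝ) : ℂ)) =
        (-(√3 : ℝ) * conj (⟨z.re, z.im⟩ : ℂ) + 1) / (-conj (⟨z.re, z.im⟩ : ℂ) + (√3 : ℝ)) := by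
      have h5 : ((1 / √2 : ℝ) : ℂ) ≠ 0 := by
        exact_mod_cast (by positivity : (1 / √2 : ℝ) ≠ 0)
      rw [show ((-1 / √2 : ℝ) : ℂ) = -((1 / √2 : ℝ) : ℂ) by push_cast; ring]
      rw [show ((-√3 / √2 : ℝ) : ℂ) = -((1 / √2 : ℝ) : ℂ) * (√3 : ℝ) by push_cast; ring]
      rw [show ((√3 / √2 : ℝ) : ℂ) = ((1 / √2 : ℝ) : ℂ) * (√3 : ℝ) by push_cast; ring]
      rw [show -((1 / √2 : ℝ) : ℂ) * (√3 : ℝ) * conj (⟨z.re, z.im⟩ : ℂ) + ((1 / √2 : ℝ) : ℂ) =
        ((1 / √2 : ℝ) : ℂ) * (-(√3 : ℝ) * conj (⟨z.re, z.im⟩ : ℂ) + 1) by ring]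
      rw [show -((1 / √2 : ℝ) : ℂ) * conj (⟨z.re, z.im⟩ : ℂ) + ((1 / √2 : ℝ) : ℂ) * (√3 : ℝ) =
        ((1 / √2 : ℝ) : ℂ) * (-conj (⟨z.re, z.im⟩ : ℂ) + (√3 : ℝ)) by ring]
      rw [mul_div_mul_left _ _ h5]
    rw [e]
    have hd' : (√3 - z.re) * (√3 - z.re) + z.im * z.im ≠ 0 := by
      have : (√3 - z.re) * (√3 - z.re) + z.im * z.im = (z.re - √3) ^ 2 + z.im ^ 2 := by ring
      rw [this]; exact hd.ne'
    have hd2 : (-z.re + √3) * (-z.re + √3) + z.im * z.im ≠ 0 := by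
      have : (-z.re + √3) * (-z.re + √3) + z.im * z.im = (z.re - √3) ^ 2 + z.im ^ 2 := by ring
      rw [this]; exact hd.ne'
    have h33 : (√3 : ℝ) ^ 3 = 3 * √3 := by rw [pow_succ, h3]
    have h34 : (√3 : ℝ) ^ 4 = 9 := by
      rw [show (√3 : ℝ) ^ 4 = (√3 ^ 2) ^ 2 by ring, h3]; norm_num
    apply Complex.ext
    · simp [Complex.div_re, Complex.normSq_apply]
      field_simp
      ring_nf
      rw [h3, h33, h34]
      ring
    · simp [Complex.div_im, Complex.normSq_apply]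
      field_simp
      ring_nf
      rw [h3, h33, h34]
      ring

theorem den_ne {c d : ℝ} (h : c ≠ 0 ∨ d ≠ 0) (z : ℍ) : (c : ℂ) * (z : ℂ) + (d : ℂ) ≠ 0 := by
  intro h0
  have h1 := congrArg Complex.im h0
  have h2 := congrArg Complex.re h0
  simp at h1 h2
  rcases h1 with h1 | h1
  · rw [h1] at h2
    rcases h with h | h
    · exact h h1
    · simp at h2; exact h h2
  · exact z.im_pos.ne' h1

theorem den_ne_conj {c d : ℝ} (h : c ≠ 0 ∨ d ≠ 0) (z : ℍ) :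
    (c : ℂ) * conj (z : ℂ) + (d : ℂ) ≠ 0 := by
  intro h0
  apply den_ne h z
  have := congrArg conj h0
  simpa using this

theorem frac {a b c d x y Z : ℂ} (hne : c * Z + d ≠ 0) :
    x * ((a * Z + b) / (c * Z + d)) + y = ((x * a + y * c) * Z + (x * b + y * d)) / (c * Z + d) := by
  rw [eq_div_iff hne, add_mul, mul_assoc, div_mul_cancel₀ _ hne]; ring

theorem step_Mob {i : Fin 3} {g : W} (h : Mob g) : AMob (s i * g) := by
  obtain ⟨a, b, c, d, hdet, hz⟩ := h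
  obtain ⟨a', b', c', d', hdet', hz'⟩ := AMob_s i
  refine ⟨a' * a + b' * c, a' * b + b' * d, c' * a + d' * c, c' * b + d' * d, ?_, fun z => ?_⟩
  · have : (a' * a + b' * c) * (c' * b + d' * d) - (a' * b + b' * d) * (c' * a + d' * c) =
        (a' * d' - b' * c') * (a * d - b * c) := by ring
    rw [this, hdet, hdet']; norm_num
  · have hcd : c ≠ 0 ∨ d ≠ 0 := by
      by_contra hc
      push Not at hc
      rw [hc.1, hc.2] at hdet; norm_num at hdet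
    have hne := den_ne_conj hcd z
    rw [map_mul]
    show ((rho (s i) (rho g z) : ℍ) : ℂ) = _
    rw [hz', hz, map_div₀, map_add, map_add, map_mul, map_mul, Complex.conj_ofReal,
      Complex.conj_ofReal, Complex.conj_ofReal, Complex.conj_ofReal]
    have e1 : (a' : ℂ) * (((a : ℂ) * conj (z : ℂ) + b) / ((c : ℂ) * conj (z : ℂ) + d)) + b' =
        (((a' * a + b' * c : ℝ) : ℂ) * conj (z : ℂ) + ((a' * b + b' * d : ℝ) : ℂ)) /
          ((c : ℂ) * conj (z : ℂ) + d) := by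
      push_cast
      exact frac hne
    have e2 : (c' : ℂ) * (((a : ℂ) * conj (z : ℂ) + b) / ((c : ℂ) * conj (z : ℂ) + d)) + d' =
        (((c' * a + d' * c : ℝ) : ℂ) * conj (z : ℂ) + ((c' * b + d' * d : ℝ) : ℂ)) /
          ((c : ℂ) * conj (z : ℂ) + d) := by
      push_cast
      exact frac hne
    rw [e1, e2, div_div_div_cancel_right₀ hne]

theorem step_AMob {i : Fin 3} {g : W} (h : AMob g) : Mob (s i * g) := by
  obtain ⟨a, b, c, d, hdet, hz⟩ := h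
  obtain ⟨a', b', c', d', hdet', hz'⟩ := AMob_s i
  refine ⟨a' * a + b' * c, a' * b + b' * d, c' * a + d' * c, c' * b + d' * d, ?_, fun z => ?_⟩
  · have : (a' * a + b' * c) * (c' * b + d' * d) - (a' * b + b' * d) * (c' * a + d' * c) =
        (a' * d' - b' * c') * (a * d - b * c) := by ring
    rw [this, hdet, hdet']; norm_num
  · have hcd : c ≠ 0 ∨ d ≠ 0 := by
      by_contra hc
      push Not at hc
      rw [hc.1, hc.2] at hdet; norm_num at hdet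
    have hne := den_ne hcd z
    rw [map_mul]
    show ((rho (s i) (rho g z) : ℍ) : ℂ) = _
    rw [hz', hz, map_div₀, map_add, map_add, map_mul, map_mul, Complex.conj_ofReal,
      Complex.conj_ofReal, Complex.conj_ofReal, Complex.conj_ofReal, Complex.conj_conj]
    have e1 : (a' : ℂ) * (((a : ℂ) * (z : ℂ) + b) / ((c : ℂ) * (z : ℂ) + d)) + b' =
        (((a' * a + b' * c : ℝ) : ℂ) * (z : ℂ) + ((a' * b + b' * d : ℝ) : ℂ)) /
          ((c : ℂ) * (z : ℂ) + d) := by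
      push_cast
      exact frac hne
    have e2 : (c' : ℂ) * (((a : ℂ) * (z : ℂ) + b) / ((c : ℂ) * (z : ℂ) + d)) + d' =
        (((c' * a + d' * c : ℝ) : ℂ) * (z : ℂ) + ((c' * b + d' * d : ℝ) : ℂ)) /
          ((c : ℂ) * (z : ℂ) + d) := by
      push_cast
      exact frac hne
    rw [e1, e2, div_div_div_cancel_right₀ hne]

theorem Mob_or (g : W) : (par g = 1 ∧ Mob g) ∨ (par g = -1 ∧ AMob g) := by
  induction g using W_induction with
  | h1 =>
    left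
    refine ⟨by simp, 1, 0, 0, 1, by norm_num, fun z => ?_⟩
    simp
  | hs i w ih =>
    rcases ih with ⟨h1, h2⟩ | ⟨h1, h2⟩
    · right
      exact ⟨by rw [map_mul, par_s, h1]; decide, step_Mob h2⟩
    · left
      exact ⟨by rw [map_mul, par_s, h1]; decide, step_AMob h2⟩

theorem Mob_of_even {g : W} (h : par g = 1) : Mob g := by
  rcases Mob_or g with h1 | h1
  · exact h1.2
  · rw [h] at h1; exact absurd h1.1 (by decide)

end Pool.Agent.H5.Iso
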