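import Pool.Agent.H5.Iso.Data1
import Pool.Agent.H5.Iso.Data2

/-! Rigidity: a real isometry of the form conjugating the first group into the integral group
belongs to the integral group. -/

namespace Pool.Agent.H5.Iso

open Matrix

/-- Matrices of the generating reflections. -/
def mS : Fin 3 → Matrix (Fin 3) (Fin 3) ℤ
  | 0 => !![1, 0, 0; 0, 1, 0; 0, 0, -1]
  | 1 => !![1, 0, 0; 0, 0, 1; 0, 1, 0]
  | 2 => !![2, 3, 0; -1, -2, 0; 0, 0, 1]

theorem mS_sq (i : Fin 3) : mS i * mS i = 1 := by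
  fin_cases i <;> decide

/-- The generating matrices as units. -/
def mU (i : Fin 3) : (Matrix (Fin 3) (Fin 3) ℤ)ˣ := ⟨mS i, mS i, mS_sq i, mS_sq i⟩

theorem isCox_mU : IsCox mU := by
  refine isCox_of_words ?_ ?_
  · intro i; ext1; exact mS_sq i
  · intro r
    fin_cases r
    · ext1; decide
    · ext1; decide
    · ext1; decide +kernel

/-- The matrix of a group element. -/
def Mt (g : W) : Matrix (Fin 3) (Fin 3) ℤ := (lift isCox_mU g).val

theorem Mt_one : Mt 1 = 1 := by simp [Mt]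

theorem Mt_mul (g h : W) : Mt (g * h) = Mt g * Mt h := by simp [Mt]

theorem Mt_s (i : Fin 3) : Mt (s i) = mS i := by simp [Mt, mU]

theorem Mt_wprod (l : List (Fin 3)) : Mt (wprod l) = (l.map mS).prod := by
  induction l with
  | nil => exact Mt_one
  | cons a l ih => rw [wprod_cons, Mt_mul, Mt_s, ih]; rfl

/-- A triple as a vector. -/
def vec {R : Type*} (v : R × R × R) : Fin 3 → R := ![v.1, v.2.1, v.2.2]

theorem vec_injective {R : Type*} : Function.Injective (vec : R × R × R → (Fin 3 → R)) := by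
  rintro ⟨a, b, c⟩ ⟨a', b', c'⟩ h
  have h0 := congrFun h 0
  have h1 := congrFun h 1
  have h2 := congrFun h 2
  simp only [vec, Matrix.cons_val_zero, Matrix.cons_val_one, Matrix.cons_val] at h0 h1 h2
  rw [h0, h1, h2]

theorem vec_act {R : Type*} [CommRing R] (g : W) (v : R × R × R) :
    vec (act R g v) = ((Mt g).map (Int.cast : ℤ → R)) *ᵥ vec v := by
  induction g using W_induction with
  | h1 => rw [Mt_one, Matrix.map_one _ (Int.cast_zero) (Int.cast_one)]; simp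
  | hs i w ih =>
    rw [act_s_mul, Mt_mul, Mt_s]
    have e : (mS i * Mt w).map (Int.cast : ℤ → R) = (mS i).map (Int.cast : ℤ → R) *
        (Mt w).map (Int.cast : ℤ → R) := by
      exact Matrix.map_mul (f := Int.castRingHom R)
    rw [e, ← Matrix.mulVec_mulVec, ← ih]
    obtain ⟨y, z, w⟩ := act R w v
    ext j
    fin_cases i <;> fin_cases j <;>
      simp [vec, S, mS, Matrix.mulVec, dotProduct, Fin.sum_univ_three] <;> ring

/-- Diagonal of the form. -/
def dJ : Fin 3 → ℝ := ![1, -3, -3]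

/-- Matrix of the form. -/
def J : Matrix (Fin 3) (Fin 3) ℝ := Matrix.diagonal dJ

/-- The nine words. -/
def rw9 : Fin 9 → List (Fin 3)
  | 0 => []
  | 1 => [0, 1, 2, 1, 2, 0, 1, 2]
  | 2 => [0, 1, 0, 1, 2, 1, 0, 2, 1, 2, 0, 1]
  | 3 => [1, 2, 1, 2, 1, 0, 1, 2, 0, 1, 2, 0, 1, 0]
  | 4 => [0, 2, 1, 0, 1, 2, 1, 0, 2, 1, 2, 1, 2, 1, 0, 1]
  | 5 => [1, 0, 2, 1, 2, 0, 1, 2, 1, 0, 1, 0]
  | 6 => [2, 1, 0, 2, 1, 2, 1, 0]
  | 7 => [1, 0, 1, 2, 1, 0, 1, 2, 1, 2, 0, 1, 2, 1, 2, 0]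
  | 8 => [1, 0, 2, 1, 2, 1, 2, 1, 0, 1, 2, 1, 0, 1, 2, 0]

/-- The coefficients. -/
def co9 : Matrix (Fin 9) (Fin 9) ℤ :=
  !![768, -12, -12, -48, 0, 84, 84, 0, 0; 0, 18, -12, 0, -2, -3, -3, -3, 5; 0, 12, 3, 0, 1, 3, -18, -6, 5; 0, -18, 36, 0, -6, 9, -27, 9, -3; -7440, 132, 240, 384, 36, -636, -528, 36, 0; -6672, 120, 237, 336, 27, -552, -435, 27, 0; 0, 0, 45, 0, 3, -63, 18, 18, -21; -6672, 156, 201, 336, 27, -516, -471, 27, 0; 7536, -120, -228, -336, -36, 552, 444, -36, 0]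

/-- The coefficients, indexed. -/
def cf (i j : Fin 3) (k : Fin 9) : ℤ := co9 ⟨3 * i.val + j.val, by omega⟩ k

/-- Combination identity. -/
theorem comb (i j : Fin 3) :
    ∑ k, cf i j k • ((rw9 k).map mS).prod =
      Matrix.single i j (864 : ℤ) := by
  revert i j
  decide +kernel

theorem rw9_mem (k : Fin 9) : wprod (rw9 k) ∈ D1.cert.perm.Lam := by
  rw [D1.cert.perm.mem_Lam, D1.cert.perm.hom_wprod]
  revert k
  decide +kernel

/-- Real matrix of a group element. -/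
def MR (g : W) : Matrix (Fin 3) (Fin 3) ℝ := (Mt g).map (Int.cast : ℤ → ℝ)

theorem MR_mul (g h : W) : MR (g * h) = MR g * MR h := by
  unfold MR
  rw [Mt_mul]
  exact Matrix.map_mul (f := Int.castRingHom ℝ)

theorem MR_one : MR 1 = 1 := by
  unfold MR
  rw [Mt_one, Matrix.map_one _ (Int.cast_zero) (Int.cast_one)]

/-- Being an integer. -/
def IsZ (r : ℝ) : Prop := ∃ z : ℤ, r = z

theorem IsZ.add {a b : ℝ} (ha : IsZ a) (hb : IsZ b) : IsZ (a + b) := by
  obtain ⟨x, rfl⟩ := ha; obtain ⟨y, rfl⟩ := hb; exact ⟨x + y, by push_cast; ring⟩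
theorem IsZ.sub {a b : ℝ} (ha : IsZ a) (hb : IsZ b) : IsZ (a - b) := by
  obtain ⟨x, rfl⟩ := ha; obtain ⟨y, rfl⟩ := hb; exact ⟨x - y, by push_cast; ring⟩
theorem IsZ.mul {a b : ℝ} (ha : IsZ a) (hb : IsZ b) : IsZ (a * b) := by
  obtain ⟨x, rfl⟩ := ha; obtain ⟨y, rfl⟩ := hb; exact ⟨x * y, by push_cast; ring⟩
theorem IsZ.neg {a : ℝ} (ha : IsZ a) : IsZ (-a) := by
  obtain ⟨x, rfl⟩ := ha; exact ⟨-x, by push_cast; ring⟩

/-- The quadratic relations between the columns. -/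
structure Orth (A : Matrix (Fin 3) (Fin 3) ℝ) : Prop where
  q0 : A 0 0 ^ 2 - 3 * A 1 0 ^ 2 - 3 * A 2 0 ^ 2 = 1
  q1 : A 0 1 ^ 2 - 3 * A 1 1 ^ 2 - 3 * A 2 1 ^ 2 = -3
  q2 : A 0 2 ^ 2 - 3 * A 1 2 ^ 2 - 3 * A 2 2 ^ 2 = -3
  b01 : A 0 0 * A 0 1 - 3 * (A 1 0 * A 1 1) - 3 * (A 2 0 * A 2 1) = 0
  b02 : A 0 0 * A 0 2 - 3 * (A 1 0 * A 1 2) - 3 * (A 2 0 * A 2 2) = 0
  b12 : A 0 1 * A 0 2 - 3 * (A 1 1 * A 1 2) - 3 * (A 2 1 * A 2 2) = 0

theorem orth_of {A : Matrix (Fin 3) (Fin 3) ℝ} (hA : Aᵀ * J * A = J) : Orth A := by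
  have h := fun i j => congrFun (congrFun hA i) j
  simp only [J, Matrix.mul_apply, Matrix.mul_diagonal, Fin.sum_univ_three, Matrix.transpose_apply] at h
  constructor
  · have := h 0 0; simp [dJ] at this; linarith
  · have := h 1 1; simp [dJ] at this; linarith
  · have := h 2 2; simp [dJ] at this; linarith
  · have := h 0 1; simp [dJ] at this; linarith
  · have := h 0 2; simp [dJ] at this; linarith
  · have := h 1 2; simp [dJ] at this; linarith

/-- Diagonal of the inverse. -/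
noncomputable def dJi : Fin 3 → ℝ := ![1, -1/3, -1/3]

/-- The inverse of the matrix of the form. -/
noncomputable def Ji : Matrix (Fin 3) (Fin 3) ℝ := Matrix.diagonal dJi

theorem Ji_J : Ji * J = 1 := by
  rw [Ji, J, Matrix.diagonal_mul_diagonal, ← Matrix.diagonal_one]
  congr 1
  ext i
  fin_cases i <;> simp [dJ, dJi]

theorem mul_inv_A {A : Matrix (Fin 3) (Fin 3) ℝ} (hA : Aᵀ * J * A = J) :
    A * (Ji * Aᵀ * J) = 1 := by
  rw [mul_eq_one_comm]
  calc Ji * Aᵀ * J * A = Ji * (Aᵀ * J * A) := by simp only [Matrix.mul_assoc]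
    _ = 1 := by rw [hA, Ji_J]

theorem entries {A : Matrix (Fin 3) (Fin 3) ℝ} (hA : Aᵀ * J * A = J)
    (h : ∀ k, ∃ B : Matrix (Fin 3) (Fin 3) ℤ, A * MR (wprod (rw9 k)) = B.map (Int.cast : ℤ → ℝ) * A)
    (i j k l : Fin 3) : IsZ (2592 * (A k i * A l j)) := by
  choose B hB using h
  have h1 : A * (Matrix.single i j (864 : ℝ)) =
      (∑ m, cf i j m • B m).map (Int.cast : ℤ → ℝ) * A := by
    have e1 : (Matrix.single i j (864 : ℝ)) =
        ∑ m, ((cf i j m : ℤ) : ℝ) • MR (wprod (rw9 m)) := by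
      have hc := comb i j
      have hc2 := congrArg (fun X : Matrix (Fin 3) (Fin 3) ℤ => X.map (Int.cast : ℤ → ℝ)) hc
      ext a b
      have hc3 := congrFun (congrFun hc2 a) b
      simp only [Matrix.map_apply, Matrix.sum_apply, Matrix.smul_apply, smul_eq_mul,
        Int.cast_sum, Int.cast_mul] at hc3
      simp only [Matrix.sum_apply, Matrix.smul_apply, smul_eq_mul, MR, Matrix.map_apply, Mt_wprod]
      rw [hc3]
      simp only [Matrix.single_apply]
      split_ifs <;> simp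
    rw [e1, Matrix.mul_sum]
    have e2 : (∑ m, cf i j m • B m).map (Int.cast : ℤ → ℝ) =
        ∑ m, ((cf i j m : ℤ) : ℝ) • (B m).map (Int.cast : ℤ → ℝ) := by
      ext a b
      simp only [Matrix.map_apply, Matrix.sum_apply, Matrix.smul_apply, smul_eq_mul,
        Int.cast_sum, Int.cast_mul]
    rw [e2, Matrix.sum_mul]
    refine Finset.sum_congr rfl fun m _ => ?_
    rw [Matrix.mul_smul, Matrix.smul_mul, hB]
  have h2 : A * (Matrix.single i j (864 : ℝ)) * (Ji * Aᵀ * J) =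
      (∑ m, cf i j m • B m).map (Int.cast : ℤ → ℝ) := by
    rw [h1, Matrix.mul_assoc, mul_inv_A hA, Matrix.mul_one]
  have h3 := congrFun (congrFun h2 k) l
  generalize (∑ m, cf i j m • B m) = Z at h3
  rw [Matrix.map_apply] at h3
  have h4 : (A * (Matrix.single i j (864 : ℝ)) * (Ji * Aᵀ * J)) k l =
      864 * A k i * (dJi j * A l j * dJ l) := by
    rw [Matrix.mul_apply]
    have : ∀ x, (A * (Matrix.single i j (864 : ℝ))) k x = if x = j then A k i * 864 else 0 := by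
      intro x
      by_cases hx : x = j
      · subst hx; simp
      · rw [if_neg hx, Matrix.mul_single_apply_of_ne]
        exact hx
    simp only [this]
    simp only [ite_mul, zero_mul, Finset.sum_ite_eq', Finset.mem_univ, if_true]
    have : (Ji * Aᵀ * J) j l = dJi j * A l j * dJ l := by
      rw [Ji, J, Matrix.mul_diagonal, Matrix.diagonal_mul, Matrix.transpose_apply]
    rw [this]; ring
  rw [h4] at h3
  fin_cases j <;> fin_cases l <;> simp [dJi, dJ] at h3 ⊢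
  · exact ⟨3 * Z k 0, by push_cast; linarith⟩
  · exact ⟨- Z k 1, by push_cast; linarith⟩
  · exact ⟨- Z k 2, by push_cast; linarith⟩
  · exact ⟨-9 * Z k 0, by push_cast; linarith⟩
  · exact ⟨3 * Z k 1, by push_cast; linarith⟩
  · exact ⟨3 * Z k 2, by push_cast; linarith⟩
  · exact ⟨-9 * Z k 0, by push_cast; linarith⟩
  · exact ⟨3 * Z k 1, by push_cast; linarith⟩
  · exact ⟨3 * Z k 2, by push_cast; linarith⟩

theorem det_sq {A : Matrix (Fin 3) (Fin 3) ℝ} (hA : Aᵀ * J * A = J) : A.det = 1 ∨ A.det = -1 := by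
  have h := congrArg Matrix.det hA
  rw [Matrix.det_mul, Matrix.det_mul, Matrix.det_transpose] at h
  have hJ : J.det = 9 := by rw [J, Matrix.det_diagonal, Fin.prod_univ_three]; simp [dJ]; norm_num
  rw [hJ] at h
  have : A.det ^ 2 = 1 := by nlinarith
  have h2 : (A.det - 1) * (A.det + 1) = 0 := by linarith
  rcases mul_eq_zero.1 h2 with h3 | h3
  · left; linarith
  · right; linarith

/-- Integrality up to a denominator. -/
def PZ (A : Matrix (Fin 3) (Fin 3) ℝ) (n : ℕ) : Prop := ∀ k i, IsZ ((n : ℝ) * A k i)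

theorem PZ_start {A : Matrix (Fin 3) (Fin 3) ℝ} (hA : Aᵀ * J * A = J)
    (h : ∀ i j k l, IsZ (2592 * (A k i * A l j))) : PZ A (2 ^ 10 * 3 ^ 8) := by
  intro k i
  have h4 : ∀ a b c d e f' : Fin 3, IsZ (6718464 * (A k i * (A a b * A c d * A e f'))) := by
    intro a b c d e f'
    have := (h i b k a).mul (h d f' c e)
    convert this using 1; ring
  have hd : IsZ (6718464 * (A k i * A.det)) := by
    rw [Matrix.det_fin_three]
    have e : 6718464 * (A k i * (A 0 0 * A 1 1 * A 2 2 - A 0 0 * A 1 2 * A 2 1 - A 0 1 * A 1 0 * A 2 2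
        + A 0 1 * A 1 2 * A 2 0 + A 0 2 * A 1 0 * A 2 1 - A 0 2 * A 1 1 * A 2 0)) =
        6718464 * (A k i * (A 0 0 * A 1 1 * A 2 2)) - 6718464 * (A k i * (A 0 0 * A 1 2 * A 2 1))
        - 6718464 * (A k i * (A 0 1 * A 1 0 * A 2 2)) + 6718464 * (A k i * (A 0 1 * A 1 2 * A 2 0))
        + 6718464 * (A k i * (A 0 2 * A 1 0 * A 2 1)) - 6718464 * (A k i * (A 0 2 * A 1 1 * A 2 0)) := by
      ring
    rw [e]
    exact (((((h4 0 0 1 1 2 2).sub (h4 0 0 1 2 2 1)).sub (h4 0 1 1 0 2 2)).add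
      (h4 0 1 1 2 2 0)).add (h4 0 2 1 0 2 1)).sub (h4 0 2 1 1 2 0)
  have hn : ((2 ^ 10 * 3 ^ 8 : ℕ) : ℝ) = 6718464 := by norm_num
  rw [hn]
  rcases det_sq hA with h1 | h1
  · rw [h1] at hd; simpa using hd
  · rw [h1] at hd
    have := hd.neg
    convert this using 1; ring

theorem mod4 {y z w : ℤ} (h : (y ^ 2 - 3 * z ^ 2 - 3 * w ^ 2) % 4 = 0) :
    y % 2 = 0 ∧ z % 2 = 0 ∧ w % 2 = 0 := by
  have hy : y % 2 = 0 ∨ y % 2 = 1 := by omega
  have hz : z % 2 = 0 ∨ z % 2 = 1 := by omega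
  have hw : w % 2 = 0 ∨ w % 2 = 1 := by omega
  have sq4 : ∀ x : ℤ, (x % 2 = 0 → x ^ 2 % 4 = 0) ∧ (x % 2 = 1 → x ^ 2 % 4 = 1) := by
    intro x
    constructor
    · intro hx
      obtain ⟨t, rfl⟩ : ∃ t, x = 2 * t := ⟨x / 2, by omega⟩
      have : (2 * t) ^ 2 = 4 * t ^ 2 := by ring
      omega
    · intro hx
      obtain ⟨t, rfl⟩ : ∃ t, x = 2 * t + 1 := ⟨x / 2, by omega⟩
      have : (2 * t + 1) ^ 2 = 4 * (t ^ 2 + t) + 1 := by ring
      omega
  have a := sq4 y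
  have b := sq4 z
  have c := sq4 w
  generalize y ^ 2 = Y at *
  generalize z ^ 2 = Z at *
  generalize w ^ 2 = V at *
  omega

theorem mod3 {y z w n : ℤ} (h : y ^ 2 - 3 * z ^ 2 - 3 * w ^ 2 = 9 * n) :
    y % 3 = 0 ∧ z % 3 = 0 ∧ w % 3 = 0 := by
  have sq3 : ∀ x : ℤ, (x % 3 = 0 ∧ x ^ 2 % 3 = 0) ∨ (x % 3 ≠ 0 ∧ x ^ 2 % 3 = 1) := by
    intro x
    have hx : x % 3 = 0 ∨ x % 3 = 1 ∨ x % 3 = 2 := by omega
    rcases hx with hx | hx | hx
    · obtain ⟨t, rfl⟩ : ∃ t, x = 3 * t := ⟨x / 3, by omega⟩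
      have : (3 * t) ^ 2 = 3 * (3 * t ^ 2) := by ring
      left; omega
    · obtain ⟨t, rfl⟩ : ∃ t, x = 3 * t + 1 := ⟨x / 3, by omega⟩
      have : (3 * t + 1) ^ 2 = 3 * (3 * t ^ 2 + 2 * t) + 1 := by ring
      right; omega
    · obtain ⟨t, rfl⟩ : ∃ t, x = 3 * t + 2 := ⟨x / 3, by omega⟩
      have : (3 * t + 2) ^ 2 = 3 * (3 * t ^ 2 + 4 * t + 1) + 1 := by ring
      right; omega
  have a := sq3 y
  have b := sq3 z
  have c := sq3 w
  have hy : y % 3 = 0 := by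
    rcases a with a | a
    · exact a.1
    · exfalso; have := a.2; generalize y ^ 2 = Y at *; generalize z ^ 2 = Z at *
      generalize w ^ 2 = V at *; omega
  obtain ⟨t, rfl⟩ : ∃ t, y = 3 * t := ⟨y / 3, by omega⟩
  have h2 : 3 * t ^ 2 - z ^ 2 - w ^ 2 = 3 * n := by nlinarith
  refine ⟨hy, ?_, ?_⟩
  · generalize z ^ 2 = Z at *; generalize w ^ 2 = V at *; generalize t ^ 2 = U at *; omega
  · generalize z ^ 2 = Z at *; generalize w ^ 2 = V at *; generalize t ^ 2 = U at *; omega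

theorem Orth.col {A : Matrix (Fin 3) (Fin 3) ℝ} (hA : Orth A) (i : Fin 3) : ∃ d : ℤ,
    A 0 i ^ 2 - 3 * A 1 i ^ 2 - 3 * A 2 i ^ 2 = d := by
  fin_cases i
  · exact ⟨1, by simpa using hA.q0⟩
  · exact ⟨-3, by simpa using hA.q1⟩
  · exact ⟨-3, by simpa using hA.q2⟩

theorem PZ_two {A : Matrix (Fin 3) (Fin 3) ℝ} (hA : Orth A) {m : ℕ} (h : PZ A (2 * m)) :
    PZ A m := by
  intro k i
  obtain ⟨d, hd⟩ := hA.col i
  obtain ⟨y, hy⟩ := h 0 i
  obtain ⟨z, hz⟩ := h 1 i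
  obtain ⟨w, hw⟩ := h 2 i
  push_cast at hy hz hw
  have e : y ^ 2 - 3 * z ^ 2 - 3 * w ^ 2 = 4 * ((m : ℤ) ^ 2 * d) := by
    have : ((y ^ 2 - 3 * z ^ 2 - 3 * w ^ 2 : ℤ) : ℝ) = ((4 * ((m : ℤ) ^ 2 * d) : ℤ) : ℝ) := by
      push_cast
      rw [← hy, ← hz, ← hw, ← hd]; ring
    exact_mod_cast this
  obtain ⟨h1, h2, h3⟩ := mod4 (y := y) (z := z) (w := w) (by omega)
  fin_cases k
  · refine ⟨y / 2, ?_⟩
    obtain ⟨t, rfl⟩ : ∃ t, y = 2 * t := ⟨y / 2, by omega⟩
    push_cast at hy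
    rw [show 2 * t / 2 = t by omega]; simp only [Fin.zero_eta]; linarith
  · refine ⟨z / 2, ?_⟩
    obtain ⟨t, rfl⟩ : ∃ t, z = 2 * t := ⟨z / 2, by omega⟩
    push_cast at hz
    rw [show 2 * t / 2 = t by omega]; simp only [Fin.mk_one]; linarith
  · refine ⟨w / 2, ?_⟩
    obtain ⟨t, rfl⟩ : ∃ t, w = 2 * t := ⟨w / 2, by omega⟩
    push_cast at hw
    rw [show 2 * t / 2 = t by omega]; simp only [Fin.reduceFinMk]; linarith

theorem PZ_three {A : Matrix (Fin 3) (Fin 3) ℝ} (hA : Orth A) {m : ℕ} (h : PZ A (3 * m)) :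
    PZ A m := by
  intro k i
  obtain ⟨d, hd⟩ := hA.col i
  obtain ⟨y, hy⟩ := h 0 i
  obtain ⟨z, hz⟩ := h 1 i
  obtain ⟨w, hw⟩ := h 2 i
  push_cast at hy hz hw
  have e : y ^ 2 - 3 * z ^ 2 - 3 * w ^ 2 = 9 * ((m : ℤ) ^ 2 * d) := by
    have : ((y ^ 2 - 3 * z ^ 2 - 3 * w ^ 2 : ℤ) : ℝ) = ((9 * ((m : ℤ) ^ 2 * d) : ℤ) : ℝ) := by
      push_cast
      rw [← hy, ← hz, ← hw, ← hd]; ring
    exact_mod_cast this
  obtain ⟨h1, h2, h3⟩ := mod3 e
  fin_cases k
  · refine ⟨y / 3, ?_⟩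
    obtain ⟨t, rfl⟩ : ∃ t, y = 3 * t := ⟨y / 3, by omega⟩
    push_cast at hy
    rw [show 3 * t / 3 = t by omega]; simp only [Fin.zero_eta]; linarith
  · refine ⟨z / 3, ?_⟩
    obtain ⟨t, rfl⟩ : ∃ t, z = 3 * t := ⟨z / 3, by omega⟩
    push_cast at hz
    rw [show 3 * t / 3 = t by omega]; simp only [Fin.mk_one]; linarith
  · refine ⟨w / 3, ?_⟩
    obtain ⟨t, rfl⟩ : ∃ t, w = 3 * t := ⟨w / 3, by omega⟩
    push_cast at hw
    rw [show 3 * t / 3 = t by omega]; simp only [Fin.reduceFinMk]; linarith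

theorem PZ_one {A : Matrix (Fin 3) (Fin 3) ℝ} (hA : Orth A) :
    ∀ a b : ℕ, PZ A (2 ^ a * 3 ^ b) → PZ A 1 := by
  have h3 : ∀ b : ℕ, PZ A (3 ^ b) → PZ A 1 := by
    intro b
    induction b with
    | zero => intro h; simpa using h
    | succ b ih => intro h; exact ih (PZ_three hA (by rw [← pow_succ']; exact h))
  intro a b
  induction a with
  | zero => intro h; exact h3 b (by simpa using h)
  | succ a ih => intro h; exact ih (PZ_two hA (by rw [← mul_assoc, ← pow_succ']; exact h))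

/-- Reduction of integral vectors of norm one. -/
theorem reduce_one : ∀ (n : ℕ) (u : ℤ × ℤ × ℤ), q u = 1 → 0 < u.1 → sz u ≤ n →
    ∃ g : W, act ℤ g u = (1, 0, 0) := by
  intro n
  induction n with
  | zero =>
    intro u hq hu hn
    exfalso
    obtain ⟨y, z, w⟩ := u
    simp only [q] at hq
    simp only [sz, Nat.cast_zero] at hn
    simp only at hu
    nlinarith [sq_nonneg (z - 2 * w), sq_nonneg (7 * y + 6 * z + 3 * w)]
  | succ n ih =>
    intro u hq hu hn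
    by_cases hf : ∃ i, f i u < 0
    · obtain ⟨i, hi⟩ := hf
      have h1 : sz (S i u) < sz u := sz_S_lt hi
      have h2 : 0 < (S i u).1 := by
        obtain ⟨y, z, w⟩ := u
        simp only [q] at hq
        simp only at hu
        fin_cases i
        · simpa [S] using hu
        · simpa [S] using hu
        · simp only [S]
          by_contra hc
          push Not at hc
          nlinarith [sq_nonneg w, sq_nonneg (2 * y + 3 * z)]
      obtain ⟨g, hg⟩ := ih (S i u) (by rw [q_S]; exact hq) h2 (by push_cast at hn; omega)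
      refine ⟨g * s i, ?_⟩
      rw [map_mul, Equiv.Perm.mul_apply, act_s, hg]
    · push Not at hf
      refine ⟨1, ?_⟩
      obtain ⟨y, z, w⟩ := u
      have h0 := hf 0
      have h1 := hf 1
      have h2 := hf 2
      simp only [f] at h0 h1 h2
      simp only [q] at hq
      simp only at hu
      have hw : w = 0 := by nlinarith [mul_nonneg h0 h2, mul_nonneg h1 h2, mul_nonneg h0 h1]
      subst hw
      have hz : z = 0 := by nlinarith [mul_nonneg h1 h2]
      subst hz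
      have : y = 1 := by nlinarith
      subst this
      simp

/-- The eight elements of the stabiliser of the first basis vector. -/
def d8 : Fin 8 → List (Fin 3)
  | 0 => []
  | 1 => [0]
  | 2 => [1]
  | 3 => [1, 0, 1]
  | 4 => [0, 1, 0]
  | 5 => [0, 1]
  | 6 => [1, 0]
  | 7 => [0, 1, 0, 1]

theorem stab_one {K : Matrix (Fin 3) (Fin 3) ℤ}
    (h00 : K 0 0 = 1) (h10 : K 1 0 = 0) (h20 : K 2 0 = 0) (h01 : K 0 1 = 0) (h02 : K 0 2 = 0)
    (q1 : K 1 1 ^ 2 + K 2 1 ^ 2 = 1) (q2 : K 1 2 ^ 2 + K 2 2 ^ 2 = 1)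
    (b : K 1 1 * K 1 2 + K 2 1 * K 2 2 = 0) : ∃ g : W, Mt g = K := by
  have e : K = !![1, 0, 0; 0, K 1 1, K 1 2; 0, K 2 1, K 2 2] := by
    ext i j
    fin_cases i <;> fin_cases j <;> simp [h00, h10, h20, h01, h02]
  generalize K 1 1 = a at *
  generalize K 1 2 = b' at *
  generalize K 2 1 = c at *
  generalize K 2 2 = d at *
  have ha : a = 0 ∨ a = 1 ∨ a = -1 := by
    have h1 : a ≤ 1 := by nlinarith [sq_nonneg c]
    have h2 : -1 ≤ a := by nlinarith [sq_nonneg c]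
    omega
  have hb : b' = 0 ∨ b' = 1 ∨ b' = -1 := by
    have h1 : b' ≤ 1 := by nlinarith [sq_nonneg d]
    have h2 : -1 ≤ b' := by nlinarith [sq_nonneg d]
    omega
  have hc : c = 0 ∨ c = 1 ∨ c = -1 := by
    have h1 : c ≤ 1 := by nlinarith [sq_nonneg a]
    have h2 : -1 ≤ c := by nlinarith [sq_nonneg a]
    omega
  have hd : d = 0 ∨ d = 1 ∨ d = -1 := by
    have h1 : d ≤ 1 := by nlinarith [sq_nonneg b']
    have h2 : -1 ≤ d := by nlinarith [sq_nonneg b']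
    omega
  have key : ∃ i : Fin 8, ((d8 i).map mS).prod = K := by
    rw [e]
    rcases ha with rfl | rfl | rfl <;> rcases hb with rfl | rfl | rfl <;>
      rcases hc with rfl | rfl | rfl <;> rcases hd with rfl | rfl | rfl <;>
      first
        | (exfalso; revert q1 q2 b; decide +kernel)
        | decide +kernel
  obtain ⟨i, hi⟩ := key
  exact ⟨wprod (d8 i), by rw [Mt_wprod, hi]⟩

/-- Rigidity. -/
theorem rigid {A : Matrix (Fin 3) (Fin 3) ℝ} (hA : Aᵀ * J * A = J) (hpos : 0 < A 0 0)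
    (h : ∀ g ∈ D1.cert.perm.Lam, ∃ g' : W, A * MR g = MR g' * A) : ∃ g : W, A = MR g := by
  have hO := orth_of hA
  have hent : ∀ i j k l, IsZ (2592 * (A k i * A l j)) := by
    intro i j k l
    refine entries hA ?_ i j k l
    intro m
    obtain ⟨g', hg'⟩ := h _ (rw9_mem m)
    exact ⟨Mt g', hg'⟩
  have hP : PZ A 1 := PZ_one hO 10 8 (PZ_start hA hent)
  choose B hB using hP
  have hAB : A = (Matrix.of B).map (Int.cast : ℤ → ℝ) := by
    ext k i
    have := hB k i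
    simpa using this
  have hB' : ∀ k i, A k i = (B k i : ℝ) := by
    intro k i
    have := hB k i
    simpa using this
  have hq : q ((B 0 0, B 1 0, B 2 0) : ℤ × ℤ × ℤ) = 1 := by
    have := hO.q0
    rw [hB', hB', hB'] at this
    simp only [q]
    exact_mod_cast this
  have hp : 0 < B 0 0 := by
    rw [hB'] at hpos; exact_mod_cast hpos
  obtain ⟨g, hg⟩ := reduce_one _ (B 0 0, B 1 0, B 2 0) hq hp (Int.self_le_toNat _)
  -- the matrix K
  have hgO : ∀ g : W, (MR g)ᵀ * J * MR g = J := by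
    intro g
    induction g using W_induction with
    | h1 => rw [MR_one]; simp
    | hs i w ih =>
      rw [MR_mul, Matrix.transpose_mul]
      have e : (MR (s i))ᵀ * J * MR (s i) = J := by
        unfold MR
        rw [Mt_s, J]
        ext a b
        fin_cases i <;> fin_cases a <;> fin_cases b <;>
          simp [mS, Matrix.mul_apply, Fin.sum_univ_three, dJ, Matrix.diagonal] <;> norm_num
      calc (MR w)ᵀ * (MR (s i))ᵀ * J * (MR (s i) * MR w)
          = (MR w)ᵀ * ((MR (s i))ᵀ * J * MR (s i)) * MR w := by simp only [Matrix.mul_assoc]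
        _ = J := by rw [e, ih]
  set K : Matrix (Fin 3) (Fin 3) ℤ := Mt g * Matrix.of B with hK
  have hKR : K.map (Int.cast : ℤ → ℝ) = MR g * A := by
    rw [hK, hAB]
    unfold MR
    exact Matrix.map_mul (f := Int.castRingHom ℝ)
  have hKO : Orth (MR g * A) := by
    apply orth_of
    rw [Matrix.transpose_mul]
    calc Aᵀ * (MR g)ᵀ * J * (MR g * A) = Aᵀ * ((MR g)ᵀ * J * MR g) * A := by
          simp only [Matrix.mul_assoc]
      _ = J := by rw [hgO, hA]
  rw [← hKR] at hKO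
  have hcol := vec_act (R := ℤ) g (B 0 0, B 1 0, B 2 0)
  rw [hg] at hcol
  have hc : ∀ i, K i 0 = vec ((1, 0, 0) : ℤ × ℤ × ℤ) i := by
    intro i
    rw [hcol, hK, Matrix.mul_apply, Matrix.mulVec, dotProduct]
    simp only [Fin.sum_univ_three, Matrix.map_apply, Matrix.of_apply, vec]
    simp
  have h00 : K 0 0 = 1 := by rw [hc]; simp [vec]
  have h10 : K 1 0 = 0 := by rw [hc]; simp [vec]
  have h20 : K 2 0 = 0 := by rw [hc]; simp [vec]
  have b01 := hKO.b01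
  have b02 := hKO.b02
  have b12 := hKO.b12
  have q1 := hKO.q1
  have q2 := hKO.q2
  simp only [Matrix.map_apply] at b01 b02 b12 q1 q2
  rw [h00, h10, h20] at b01 b02
  have h01 : K 0 1 = 0 := by
    have : ((K 0 1 : ℤ) : ℝ) = 0 := by push_cast at b01; linarith
    exact_mod_cast this
  have h02 : K 0 2 = 0 := by
    have : ((K 0 2 : ℤ) : ℝ) = 0 := by push_cast at b02; linarith
    exact_mod_cast this
  rw [h01, h02] at b12
  rw [h01] at q1
  rw [h02] at q2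
  obtain ⟨d, hd⟩ := stab_one h00 h10 h20 h01 h02
    (by
      have : ((K 1 1 ^ 2 + K 2 1 ^ 2 : ℤ) : ℝ) = 1 := by push_cast at q1 ⊢; linarith
      exact_mod_cast this)
    (by
      have : ((K 1 2 ^ 2 + K 2 2 ^ 2 : ℤ) : ℝ) = 1 := by push_cast at q2 ⊢; linarith
      exact_mod_cast this)
    (by
      have : ((K 1 1 * K 1 2 + K 2 1 * K 2 2 : ℤ) : ℝ) = 0 := by push_cast at b12 ⊢; linarith
      exact_mod_cast this)
  refine ⟨g⁻¹ * d, ?_⟩
  have h1 : MR g * A = MR d := by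
    rw [← hKR, ← hd]; rfl
  calc A = MR (g⁻¹ * g) * A := by rw [inv_mul_cancel, MR_one, Matrix.one_mul]
    _ = MR g⁻¹ * (MR g * A) := by rw [MR_mul, Matrix.mul_assoc]
    _ = MR (g⁻¹ * d) := by rw [h1, MR_mul]

end Pool.Agent.H5.Iso
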