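import Mathlib

/-! Transplantation: equality of the ranks of the spaces of Laplace eigenfunctions for two
subgroups of a Fuchsian group coming from two permutation representations with an invertible
intertwiner. -/

set_option autoImplicit false

open scoped Topology
open Filter

namespace Pool.Agent.H5.Iso

/-! ### The Laplacian of a composition with a holomorphic map -/

theorem second_apply {F : ℂ → ℝ} {L : ℂ → ℂ →L[ℝ] ℝ} {L' : ℂ →L[ℝ] ℂ →L[ℝ] ℝ} {z : ℂ}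
    (h1 : fderiv ℝ F =ᶠ[𝓝 z] L) (h2 : HasFDerivAt L L' z) (v : ℂ) :
    iteratedFDeriv ℝ 2 F z ![v, v] = L' v v := by
  rw [iteratedFDeriv_two_apply, h1.fderiv_eq, h2.fderiv]
  rfl

theorem lap_comp {F : ℂ → ℝ} {φ φ' : ℂ → ℂ} {φ2 : ℂ} {z : ℂ} (hF : ContDiffAt ℝ 2 F (φ z))
    (hφ : ∀ᶠ w in 𝓝 z, HasDerivAt φ (φ' w) w) (hφ' : HasDerivAt φ' φ2 z) :
    iteratedFDeriv ℝ 2 (fun w => F (φ w)) z ![1, 1] +
        iteratedFDeriv ℝ 2 (fun w => F (φ w)) z ![Complex.I, Complex.I] =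
      Complex.normSq (φ' z) * (iteratedFDeriv ℝ 2 F (φ z) ![1, 1] +
        iteratedFDeriv ℝ 2 F (φ z) ![Complex.I, Complex.I]) := by
  have hφz : HasDerivAt φ (φ' z) z := hφ.self_of_nhds
  have cz : ContinuousAt φ z := hφz.continuousAt
  -- `F` is differentiable near `φ z`
  have hFd : ∀ᶠ y in 𝓝 (φ z), DifferentiableAt ℝ F y := by
    have h1 : ContDiffAt ℝ 1 F (φ z) := hF.of_le (by norm_num)
    have := h1.eventually (by norm_num)
    filter_upwards [this] with y hy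
    exact hy.differentiableAt (by norm_num)
  have hD : DifferentiableAt ℝ (fderiv ℝ F) (φ z) :=
    ((hF.fderiv_right (m := 1) (by norm_num)).differentiableAt (by norm_num))
  set D := fderiv ℝ (fderiv ℝ F) (φ z) with hDdef
  have e1 : fderiv ℝ (fun w => F (φ w)) =ᶠ[𝓝 z]
      fun w => (fderiv ℝ F (φ w)).comp (φ' w • (1 : ℂ →L[ℝ] ℂ)) := by
    filter_upwards [hφ, cz.eventually hFd] with w hw hFw
    exact (hFw.hasFDerivAt.comp w hw.complexToReal_fderiv).fderiv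
  -- derivative of the right hand side
  have hA : HasFDerivAt (fun w => fderiv ℝ F (φ w)) (D.comp (φ' z • (1 : ℂ →L[ℝ] ℂ))) z :=
    hD.hasFDerivAt.comp z hφz.complexToReal_fderiv
  have hB : HasFDerivAt (fun w => φ' w • (1 : ℂ →L[ℝ] ℂ))
      ((φ2 • (1 : ℂ →L[ℝ] ℂ)).smulRight (1 : ℂ →L[ℝ] ℂ)) z :=
    hφ'.complexToReal_fderiv.smul_const (1 : ℂ →L[ℝ] ℂ)
  have hC := hA.clm_comp hB
  have key : ∀ v : ℂ, iteratedFDeriv ℝ 2 (fun w => F (φ w)) z ![v, v] =
      D (φ' z * v) (φ' z * v) + fderiv ℝ F (φ z) (φ2 * v * v) := by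
    intro v
    rw [second_apply e1 hC v]
    simp
    ring
  have key2 : ∀ v : ℂ, iteratedFDeriv ℝ 2 F (φ z) ![v, v] = D v v := by
    intro v
    rw [iteratedFDeriv_two_apply]
    rfl
  have lin : ∀ p q r s : ℝ, D ((p : ℂ) + q * Complex.I) ((r : ℂ) + s * Complex.I) =
      p * r * D 1 1 + p * s * D 1 Complex.I + q * r * D Complex.I 1 +
        q * s * D Complex.I Complex.I := by
    intro p q r s
    have a1 : (p : ℂ) + q * Complex.I = p • (1 : ℂ) + q • Complex.I := by simp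
    have a2 : (r : ℂ) + s * Complex.I = r • (1 : ℂ) + s • Complex.I := by simp
    rw [a1, a2]
    simp only [map_add, map_smul, _root_.add_apply, _root_.smul_apply, smul_eq_mul]
    ring
  rw [key, key, key2, key2]
  obtain ⟨p, q, hpq⟩ : ∃ p q : ℝ, φ' z = (p : ℂ) + q * Complex.I := ⟨_, _, (Complex.re_add_im _).symm⟩
  have m1 : φ' z * 1 = (p : ℂ) + q * Complex.I := by rw [mul_one, hpq]
  have m2 : φ' z * Complex.I = ((-q : ℝ) : ℂ) + (p : ℝ) * Complex.I := by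
    rw [hpq]
    apply Complex.ext <;> simp
  have m3 : φ2 * Complex.I * Complex.I = -(φ2 * 1 * 1) := by
    rw [mul_assoc, Complex.I_mul_I]; ring
  rw [m1, m2, m3, map_neg, lin, lin, hpq]
  have hn : Complex.normSq ((p : ℂ) + q * Complex.I) = p ^ 2 + q ^ 2 := by
    rw [Complex.normSq_add_mul_I]
  rw [hn]
  ring

/-! ### Eigenfunctions and Moebius maps -/

/-- The eigenfunctions of the hyperbolic Laplacian with eigenvalue `μ` that are invariant under
`G` (the set of the frozen statement). -/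
def Eig (G : Subgroup (UpperHalfPlane ≃ᵢ UpperHalfPlane)) (μ : ℝ) : Set (UpperHalfPlane → ℝ) :=
  {f : UpperHalfPlane → ℝ | ∃ F : ℂ → ℝ,
    ContDiffOn ℝ 2 F {w : ℂ | 0 < w.im} ∧
    (∀ z : UpperHalfPlane, f z = F (z : ℂ)) ∧
    (∀ γ ∈ G, ∀ z : UpperHalfPlane, f (γ z) = f z) ∧
    ∀ z : UpperHalfPlane,
      -((z : ℂ).im ^ 2 * (iteratedFDeriv ℝ 2 F (z : ℂ) ![1, 1]
        + iteratedFDeriv ℝ 2 F (z : ℂ) ![Complex.I, Complex.I])) = μ * f z}

/-- Eigenfunctions without any invariance. -/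
def IsEig (μ : ℝ) (f : UpperHalfPlane → ℝ) : Prop :=
  ∃ F : ℂ → ℝ,
    ContDiffOn ℝ 2 F {w : ℂ | 0 < w.im} ∧
    (∀ z : UpperHalfPlane, f z = F (z : ℂ)) ∧
    ∀ z : UpperHalfPlane,
      -((z : ℂ).im ^ 2 * (iteratedFDeriv ℝ 2 F (z : ℂ) ![1, 1]
        + iteratedFDeriv ℝ 2 F (z : ℂ) ![Complex.I, Complex.I])) = μ * f z

theorem mem_Eig {G : Subgroup (UpperHalfPlane ≃ᵢ UpperHalfPlane)} {μ : ℝ}
    {f : UpperHalfPlane → ℝ} :
    f ∈ Eig G μ ↔ IsEig μ f ∧ ∀ γ ∈ G, ∀ z : UpperHalfPlane, f (γ z) = f z := by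
  constructor
  · rintro ⟨F, h1, h2, h3, h4⟩
    exact ⟨⟨F, h1, h2, h4⟩, h3⟩
  · rintro ⟨⟨F, h1, h2, h4⟩, h3⟩
    exact ⟨F, h1, h2, h3, h4⟩

theorem isOpen_uhp : IsOpen {w : ℂ | 0 < w.im} := isOpen_lt continuous_const Complex.continuous_im

theorem IsEig.zero (μ : ℝ) : IsEig μ (0 : UpperHalfPlane → ℝ) := by
  refine ⟨fun _ => 0, contDiffOn_const, fun z => rfl, fun z => ?_⟩
  have h : ∀ v : ℂ, iteratedFDeriv ℝ 2 (fun _ : ℂ => (0 : ℝ)) (z : ℂ) ![v, v] = 0 := by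
    intro v
    rw [iteratedFDeriv_two_apply]
    simp
  rw [h, h]
  simp

theorem IsEig.add {μ : ℝ} {f g : UpperHalfPlane → ℝ} (hf : IsEig μ f) (hg : IsEig μ g) :
    IsEig μ (f + g) := by
  obtain ⟨F, h1, h2, h3⟩ := hf
  obtain ⟨G, k1, k2, k3⟩ := hg
  refine ⟨fun w => F w + G w, h1.add k1, fun z => by simp [h2, k2], fun z => ?_⟩
  have hz : {w : ℂ | 0 < w.im} ∈ 𝓝 (z : ℂ) := isOpen_uhp.mem_nhds z.im_pos
  have a1 : ContDiffAt ℝ 2 F (z : ℂ) := h1.contDiffAt hz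
  have a2 : ContDiffAt ℝ 2 G (z : ℂ) := k1.contDiffAt hz
  have e : ∀ v : ℂ, iteratedFDeriv ℝ 2 (fun w => F w + G w) (z : ℂ) ![v, v] =
      iteratedFDeriv ℝ 2 F (z : ℂ) ![v, v] + iteratedFDeriv ℝ 2 G (z : ℂ) ![v, v] := by
    intro v
    have := iteratedFDeriv_add_apply (𝕜 := ℝ) (i := 2) (f := F) (g := G) (x := (z : ℂ)) a1 a2
    have e2 : iteratedFDeriv ℝ 2 (fun w => F w + G w) (z : ℂ) =
      iteratedFDeriv ℝ 2 F (z : ℂ) + iteratedFDeriv ℝ 2 G (z : ℂ) := this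
    rw [e2]; rfl
  rw [e, e]
  have b1 := h3 z
  have b2 := k3 z
  rw [Pi.add_apply]
  linear_combination b1 + b2

theorem IsEig.smul {μ : ℝ} {f : UpperHalfPlane → ℝ} (c : ℝ) (hf : IsEig μ f) :
    IsEig μ (c • f) := by
  obtain ⟨F, h1, h2, h3⟩ := hf
  have hs : ContDiffOn ℝ 2 (fun w => c • F w) {w : ℂ | 0 < w.im} := h1.const_smul c
  refine ⟨fun w => c • F w, hs, fun z => by simp [h2], fun z => ?_⟩
  have hz : {w : ℂ | 0 < w.im} ∈ 𝓝 (z : ℂ) := isOpen_uhp.mem_nhds z.im_pos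
  have a1 : ContDiffAt ℝ 2 F (z : ℂ) := h1.contDiffAt hz
  have e : ∀ v : ℂ, iteratedFDeriv ℝ 2 (fun w => c • F w) (z : ℂ) ![v, v] =
      c * iteratedFDeriv ℝ 2 F (z : ℂ) ![v, v] := by
    intro v
    have := iteratedFDeriv_const_smul_apply (𝕜 := ℝ) (i := 2) (a := c) (f := F) (x := (z : ℂ)) a1
    have e2 : iteratedFDeriv ℝ 2 (fun w => c • F w) (z : ℂ) =
      c • iteratedFDeriv ℝ 2 F (z : ℂ) := this
    rw [e2]; rfl
  rw [e, e]
  have b1 := h3 z
  rw [Pi.smul_apply, smul_eq_mul]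
  linear_combination c * b1

/-- The Moebius clause of the frozen statement. -/
def IsMoeb (γ : UpperHalfPlane ≃ᵢ UpperHalfPlane) : Prop :=
  ∃ a b c d : ℝ, a * d - b * c = 1 ∧
    ∀ z : UpperHalfPlane,
      ((γ z : UpperHalfPlane) : ℂ) = ((a : ℂ) * (z : ℂ) + (b : ℂ)) / ((c : ℂ) * (z : ℂ) + (d : ℂ))

theorem denom_ne {a b c d : ℝ} (h : a * d - b * c = 1) {w : ℂ} (hw : 0 < w.im) :
    (c : ℂ) * w + (d : ℂ) ≠ 0 := by
  intro h0
  have him := congrArg Complex.im h0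
  have hre := congrArg Complex.re h0
  simp only [Complex.add_im, Complex.mul_im, Complex.ofReal_re, Complex.ofReal_im, zero_mul,
    add_zero, Complex.zero_im] at him
  simp only [Complex.add_re, Complex.mul_re, Complex.ofReal_re, Complex.ofReal_im, zero_mul,
    sub_zero, Complex.zero_re] at hre
  have hc : c = 0 := by
    rcases mul_eq_zero.1 him with h | h
    · exact h
    · exact absurd h hw.ne'
  rw [hc] at hre h
  have hd : d = 0 := by simpa using hre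
  rw [hd] at h
  norm_num at h

theorem IsEig.comp {μ : ℝ} {f : UpperHalfPlane → ℝ} (hf : IsEig μ f)
    {γ : UpperHalfPlane ≃ᵢ UpperHalfPlane} (hγ : IsMoeb γ) : IsEig μ (fun z => f (γ z)) := by
  obtain ⟨F, h1, h2, h3⟩ := hf
  obtain ⟨a, b, c, d, hdet, hm⟩ := hγ
  set φ : ℂ → ℂ := fun w => ((a : ℂ) * w + (b : ℂ)) / ((c : ℂ) * w + (d : ℂ)) with hφ
  have hden : ∀ w : ℂ, 0 < w.im → (c : ℂ) * w + (d : ℂ) ≠ 0 := fun w hw => denom_ne hdet hw
  have hmaps : ∀ w : ℂ, 0 < w.im → 0 < (φ w).im := by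
    intro w hw
    have := hm ⟨w, hw⟩
    have h5 : ((γ ⟨w, hw⟩ : UpperHalfPlane) : ℂ) = φ w := this
    rw [← h5]
    exact (γ ⟨w, hw⟩).im_pos
  have hdetC : (a : ℂ) * (d : ℂ) - (b : ℂ) * (c : ℂ) = 1 := by exact_mod_cast hdet
  have hder : ∀ w : ℂ, 0 < w.im →
      HasDerivAt φ (1 / ((c : ℂ) * w + (d : ℂ)) ^ 2) w := by
    intro w hw
    have n1 : HasDerivAt (fun w : ℂ => (a : ℂ) * w + (b : ℂ)) (a : ℂ) w := by
      simpa using ((hasDerivAt_id w).const_mul (a : ℂ)).add_const (b : ℂ)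
    have n2 : HasDerivAt (fun w : ℂ => (c : ℂ) * w + (d : ℂ)) (c : ℂ) w := by
      simpa using ((hasDerivAt_id w).const_mul (c : ℂ)).add_const (d : ℂ)
    have := n1.div n2 (hden w hw)
    refine this.congr_deriv ?_
    congr 1
    linear_combination hdetC
  have hder2 : ∀ w : ℂ, 0 < w.im → HasDerivAt (fun w : ℂ => 1 / ((c : ℂ) * w + (d : ℂ)) ^ 2)
      (-(2 * (c : ℂ)) / ((c : ℂ) * w + (d : ℂ)) ^ 3) w := by
    intro w hw
    have n2 : HasDerivAt (fun w : ℂ => (c : ℂ) * w + (d : ℂ)) (c : ℂ) w := by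
      simpa using ((hasDerivAt_id w).const_mul (c : ℂ)).add_const (d : ℂ)
    have hne := hden w hw
    have n3 := (n2.pow 2).inv (pow_ne_zero 2 hne)
    have n4 : HasDerivAt (fun w : ℂ => (((c : ℂ) * w + (d : ℂ)) ^ 2)⁻¹)
      (-(2 * (c : ℂ)) / ((c : ℂ) * w + (d : ℂ)) ^ 3) w := by
      refine n3.congr_deriv ?_
      simp only [Pi.pow_apply]
      field_simp
      ring
    simpa only [one_div] using n4
  refine ⟨fun w => F (φ w), ?_, ?_, ?_⟩
  · intro w hw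
    have hw' : 0 < w.im := hw
    have c1 : ContDiffAt ℝ 2 F (φ w) := h1.contDiffAt (isOpen_uhp.mem_nhds (hmaps w hw'))
    have c2 : ContDiffAt ℝ 2 φ w := by
      have d1 : ContDiffAt ℂ 2 φ w :=
        ((contDiffAt_const.mul contDiffAt_id).add contDiffAt_const).div
          ((contDiffAt_const.mul contDiffAt_id).add contDiffAt_const) (hden w hw')
      exact d1.restrict_scalars ℝ
    exact (ContDiffAt.comp w c1 c2).contDiffWithinAt
  · intro z
    show f (γ z) = F (φ (z : ℂ))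
    rw [h2, hm z]
  · intro z
    have hz : 0 < (z : ℂ).im := z.im_pos
    have hnear : ∀ᶠ w in 𝓝 (z : ℂ), 0 < w.im := isOpen_uhp.mem_nhds hz
    have c1 : ContDiffAt ℝ 2 F (φ (z : ℂ)) := h1.contDiffAt (isOpen_uhp.mem_nhds (hmaps z hz))
    have L := lap_comp (F := F) (φ := φ)
      (φ' := fun w => 1 / ((c : ℂ) * w + (d : ℂ)) ^ 2) (z := (z : ℂ)) c1
      (hnear.mono fun w hw => hder w hw) (hder2 z hz)
    have hE := h3 (γ z)
    have hφz : ((γ z : UpperHalfPlane) : ℂ) = φ (z : ℂ) := hm z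
    rw [hφz] at hE
    show -((z : ℂ).im ^ 2 * (iteratedFDeriv ℝ 2 (fun w => F (φ w)) (z : ℂ) ![1, 1]
        + iteratedFDeriv ℝ 2 (fun w => F (φ w)) (z : ℂ) ![Complex.I, Complex.I])) = μ * f (γ z)
    rw [L, ← hE]
    -- imaginary part
    have hne := hden z hz
    have hns : Complex.normSq ((c : ℂ) * (z : ℂ) + (d : ℂ)) ≠ 0 := by
      rw [Ne, Complex.normSq_eq_zero]; exact hne
    have him : (φ (z : ℂ)).im = (z : ℂ).im / Complex.normSq ((c : ℂ) * (z : ℂ) + (d : ℂ)) := by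
      rw [hφ]
      simp only [Complex.div_im]
      rw [← sub_div]
      congr 1
      simp only [Complex.add_im, Complex.mul_im, Complex.ofReal_re, Complex.ofReal_im, zero_mul,
        add_zero, Complex.add_re, Complex.mul_re, sub_zero]
      linear_combination (z : ℂ).im * hdet
    have hn2 : Complex.normSq (1 / ((c : ℂ) * (z : ℂ) + (d : ℂ)) ^ 2) =
        1 / Complex.normSq ((c : ℂ) * (z : ℂ) + (d : ℂ)) ^ 2 := by
      simp
    rw [hn2, him]
    field_simp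

/-! ### Abstract transplantation -/

section abstract

variable {G V X Y : Type*} [Group G] [AddCommGroup V] [Module ℝ V]

/-- Vectors fixed by the stabiliser of `x0`. -/
def fixedBy (π : G →* (V →ₗ[ℝ] V)) (α : G →* Equiv.Perm X) (x0 : X) : Submodule ℝ V where
  carrier := {v | ∀ g, α g x0 = x0 → π g v = v}
  add_mem' := by
    intro v w hv hw g hg
    rw [map_add, hv g hg, hw g hg]
  zero_mem' := by
    intro g _
    rw [map_zero]
  smul_mem' := by
    intro c v hv g hg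
    rw [map_smul, hv g hg]

variable {π : G →* (V →ₗ[ℝ] V)} {α : G →* Equiv.Perm X} {β : G →* Equiv.Perm Y}

theorem fixedBy_eq {x0 : X} {v : V} (hv : v ∈ fixedBy π α x0) {g h : G}
    (hgh : α g x0 = α h x0) : π g v = π h v := by
  have h1 : α (h⁻¹ * g) x0 = x0 := by
    rw [map_mul, Equiv.Perm.mul_apply, hgh, map_inv]
    simp
  have h2 := hv _ h1
  have h3 : π h (π (h⁻¹ * g) v) = π g v := by
    rw [← Module.End.mul_apply, ← map_mul]
    simp
  rw [← h3, h2]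

/-- The transplanted vectors. -/
noncomputable def tr [Fintype X] (π : G →* (V →ₗ[ℝ] V)) (t : X → G) (M : Y → X → ℝ) (y : Y) :
    V →ₗ[ℝ] V := ∑ x, M y x • π (t x)

theorem tr_apply [Fintype X] (t : X → G) (M : Y → X → ℝ) (y : Y) (v : V) :
    tr π t M y v = ∑ x, M y x • π (t x) v := by
  simp [tr, LinearMap.sum_apply]

theorem tr_equiv [Fintype X] {x0 : X} {t : X → G} (ht : ∀ x, α (t x) x0 = x)
    {M : Y → X → ℝ} (hM : ∀ g x y, M (β g y) (α g x) = M y x) {v : V}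
    (hv : v ∈ fixedBy π α x0) (g : G) (y : Y) : π g (tr π t M y v) = tr π t M (β g y) v := by
  rw [tr_apply, tr_apply, map_sum,
    ← Equiv.sum_comp (α g) (fun x => M (β g y) x • π (t x) v)]
  refine Finset.sum_congr rfl fun x _ => ?_
  rw [hM, map_smul]
  congr 1
  rw [← Module.End.mul_apply, ← map_mul]
  apply fixedBy_eq hv
  rw [map_mul, Equiv.Perm.mul_apply, ht, ht]

theorem tr_mem [Fintype X] {x0 : X} {y0 : Y} {t : X → G} (ht : ∀ x, α (t x) x0 = x)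
    {M : Y → X → ℝ} (hM : ∀ g x y, M (β g y) (α g x) = M y x) {v : V}
    (hv : v ∈ fixedBy π α x0) : tr π t M y0 v ∈ fixedBy π β y0 := by
  intro g hg
  rw [tr_equiv ht hM hv, hg]

theorem tr_tr [Fintype X] [Fintype Y] [DecidableEq X] {x0 : X} {y0 : Y} {t : X → G} {u : Y → G}
    (ht : ∀ x, α (t x) x0 = x) (hu : ∀ y, β (u y) y0 = y)
    {M : Y → X → ℝ} (hM : ∀ g x y, M (β g y) (α g x) = M y x) {N : X → Y → ℝ} {c : ℝ}
    (hNM : ∀ x, ∑ y, N x0 y * M y x = if x = x0 then c else 0) {v : V}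
    (hv : v ∈ fixedBy π α x0) : tr π u N x0 (tr π t M y0 v) = c • v := by
  rw [tr_apply]
  have e1 : ∀ y, N x0 y • π (u y) (tr π t M y0 v) = ∑ x, (N x0 y * M y x) • π (t x) v := by
    intro y
    rw [tr_equiv ht hM hv, hu, tr_apply, Finset.smul_sum]
    refine Finset.sum_congr rfl fun x _ => ?_
    rw [smul_smul]
  simp only [e1]
  rw [Finset.sum_comm]
  have e2 : ∀ x, ∑ y, (N x0 y * M y x) • π (t x) v = (if x = x0 then c else 0) • π (t x) v := by
    intro x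
    rw [← Finset.sum_smul, hNM]
  simp only [e2, ite_smul, zero_smul, Finset.sum_ite_eq', Finset.mem_univ, if_true]
  congr 1
  exact hv _ (ht x0)

theorem rank_fixedBy_eq [Fintype X] [Fintype Y] [DecidableEq X] [DecidableEq Y]
    {x0 : X} {y0 : Y} (hα : ∀ x, ∃ g, α g x0 = x) (hβ : ∀ y, ∃ g, β g y0 = y)
    {M : Y → X → ℝ} (hM : ∀ g x y, M (β g y) (α g x) = M y x)
    {N : X → Y → ℝ} (hN : ∀ g x y, N (α g x) (β g y) = N x y) {c : ℝ} (hc : c ≠ 0)
    (hNM : ∀ x, ∑ y, N x0 y * M y x = if x = x0 then c else 0)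
    (hMN : ∀ y, ∑ x, M y0 x * N x y = if y = y0 then c else 0) :
    Module.rank ℝ (fixedBy π α x0) = Module.rank ℝ (fixedBy π β y0) := by
  choose t ht using hα
  choose u hu using hβ
  have hN' : ∀ g y x, N (α g x) (β g y) = N x y := fun g y x => hN g x y
  let T : fixedBy π α x0 →ₗ[ℝ] fixedBy π β y0 :=
    ((tr π t M y0).comp (Submodule.subtype _)).codRestrict _ fun v => tr_mem ht hM v.2
  let S : fixedBy π β y0 →ₗ[ℝ] fixedBy π α x0 :=
    ((tr π u N x0).comp (Submodule.subtype _)).codRestrict _ fun v => tr_mem hu hN' v.2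
  have h1 : ∀ v, S (T v) = c • v := by
    intro v
    apply Subtype.ext
    exact tr_tr ht hu hM hNM v.2
  have h2 : ∀ v, T (S v) = c • v := by
    intro v
    apply Subtype.ext
    exact tr_tr hu ht hN' hMN v.2
  refine LinearEquiv.rank_eq (LinearEquiv.ofLinearMap T (c⁻¹ • S) ?_ ?_)
  · apply LinearMap.ext
    intro v
    show T (c⁻¹ • S v) = v
    rw [map_smul, h2, smul_smul, inv_mul_cancel₀ hc, one_smul]
  · apply LinearMap.ext
    intro v
    show c⁻¹ • S (T v) = v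
    rw [h1, smul_smul, inv_mul_cancel₀ hc, one_smul]

end abstract

/-! ### The theorem -/

/-- The space of all eigenfunctions (without invariance). -/
def EigAll (μ : ℝ) : Submodule ℝ (UpperHalfPlane → ℝ) where
  carrier := {f | IsEig μ f}
  add_mem' := fun hf hg => IsEig.add hf hg
  zero_mem' := IsEig.zero μ
  smul_mem' := fun c _ hf => IsEig.smul c hf

/-- The action of the group on eigenfunctions. -/
noncomputable def act {G : Type*} [Group G] (ρ : G →* (UpperHalfPlane ≃ᵢ UpperHalfPlane))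
    (hρ : ∀ g, IsMoeb (ρ g)) (μ : ℝ) : G →* (EigAll μ →ₗ[ℝ] EigAll μ) where
  toFun g :=
    { toFun := fun f => ⟨fun z => f.1 (ρ g⁻¹ z), IsEig.comp f.2 (hρ g⁻¹)⟩
      map_add' := fun f h => rfl
      map_smul' := fun c f => rfl }
  map_one' := by
    apply LinearMap.ext
    intro f
    apply Subtype.ext
    funext z
    show f.1 (ρ (1 : G)⁻¹ z) = f.1 z
    rw [inv_one, map_one]
    rfl
  map_mul' := by
    intro g h
    apply LinearMap.ext
    intro f
    apply Subtype.ext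
    funext z
    show f.1 (ρ (g * h)⁻¹ z) = f.1 (ρ h⁻¹ (ρ g⁻¹ z))
    rw [mul_inv_rev, map_mul]
    rfl

theorem rank_Eig {G : Type*} [Group G] {X : Type*} (ρ : G →* (UpperHalfPlane ≃ᵢ UpperHalfPlane))
    (hρ : ∀ g, IsMoeb (ρ g)) (μ : ℝ) (α : G →* Equiv.Perm X) (x0 : X)
    (G1 : Subgroup (UpperHalfPlane ≃ᵢ UpperHalfPlane))
    (hG1 : ∀ γ, γ ∈ G1 ↔ ∃ g, α g x0 = x0 ∧ ρ g = γ) :
    Module.rank ℝ (Submodule.span ℝ (Eig G1 μ)) =
      Module.rank ℝ (fixedBy (act ρ hρ μ) α x0) := by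
  have hinv : ∀ g, α g x0 = x0 ↔ α g⁻¹ x0 = x0 := by
    intro g
    rw [map_inv]
    constructor
    · intro h; rw [Equiv.Perm.inv_eq_iff_eq, h]
    · intro h; rw [Equiv.Perm.inv_eq_iff_eq] at h; exact h.symm
  have hset : Eig G1 μ = ((fixedBy (act ρ hρ μ) α x0).map (EigAll μ).subtype : Set _) := by
    ext f
    rw [mem_Eig]
    constructor
    · rintro ⟨hf, hfi⟩
      refine ⟨⟨f, hf⟩, ?_, rfl⟩
      intro g hg
      apply Subtype.ext
      funext z
      show f (ρ g⁻¹ z) = f z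
      exact hfi _ ((hG1 _).2 ⟨g⁻¹, (hinv g).1 hg, rfl⟩) z
    · rintro ⟨f', hf', rfl⟩
      refine ⟨f'.2, ?_⟩
      intro γ hγ z
      obtain ⟨g, hg, rfl⟩ := (hG1 γ).1 hγ
      have h1 := hf' g⁻¹ ((hinv g).1 hg)
      have h2 := congrArg (fun k : EigAll μ => k.1 z) h1
      have h3 : f'.1 (ρ g⁻¹⁻¹ z) = f'.1 z := h2
      rw [inv_inv] at h3
      exact h3
  rw [hset, Submodule.span_eq]
  exact (LinearEquiv.rank_eq (Submodule.equivMapOfInjective (EigAll μ).subtype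
    (Submodule.injective_subtype _) _)).symm

/-- Transplantation: an invertible intertwiner between two transitive permutation
representations gives isospectral quotients. -/
theorem rank_span_Eig_eq {G : Type*} [Group G] {X Y : Type*} [Fintype X] [Fintype Y]
    [DecidableEq X] [DecidableEq Y] (ρ : G →* (UpperHalfPlane ≃ᵢ UpperHalfPlane))
    (hρ : ∀ g, IsMoeb (ρ g)) (α : G →* Equiv.Perm X) (β : G →* Equiv.Perm Y) (x0 : X) (y0 : Y)
    (hα : ∀ x, ∃ g, α g x0 = x) (hβ : ∀ y, ∃ g, β g y0 = y)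
    (M : Y → X → ℝ) (hM : ∀ g x y, M (β g y) (α g x) = M y x)
    (N : X → Y → ℝ) (hN : ∀ g x y, N (α g x) (β g y) = N x y) {c : ℝ} (hc : c ≠ 0)
    (hNM : ∀ x, ∑ y, N x0 y * M y x = if x = x0 then c else 0)
    (hMN : ∀ y, ∑ x, M y0 x * N x y = if y = y0 then c else 0)
    (G1 G2 : Subgroup (UpperHalfPlane ≃ᵢ UpperHalfPlane))
    (hG1 : ∀ γ, γ ∈ G1 ↔ ∃ g, α g x0 = x0 ∧ ρ g = γ)
    (hG2 : ∀ γ, γ ∈ G2 ↔ ∃ g, β g y0 = y0 ∧ ρ g = γ) (μ : ℝ) :
    Module.rank ℝ (Submodule.span ℝ (Eig G1 μ)) = Module.rank ℝ (Submodule.span ℝ (Eig G2 μ)) := by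
  rw [rank_Eig ρ hρ μ α x0 G1 hG1, rank_Eig ρ hρ μ β y0 G2 hG2]
  exact rank_fixedBy_eq hα hβ hM hN hc hNM hMN

end Pool.Agent.H5.Iso
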