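import Pool.Agent.H5.Iso.Chamber
import Pool.Agent.H5.Iso.Rigid

/-! The hyperboloid model of the upper half plane and the isometric action of the group. -/

namespace Pool.Agent.H5.Iso

open UpperHalfPlane Matrix

/-- The map to the hyperboloid. -/
noncomputable def Th (z : ℍ) : ℝ × ℝ × ℝ :=
  ((1 + (z.re ^ 2 + z.im ^ 2)) / (2 * z.im), -z.re / (√3 * z.im),
    (1 - (z.re ^ 2 + z.im ^ 2)) / (2 * √3 * z.im))

/-- The bilinear form. -/
def bil {R : Type*} [CommRing R] (u v : R × R × R) : R :=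
  u.1 * v.1 - 3 * (u.2.1 * v.2.1) - 3 * (u.2.2 * v.2.2)

theorem bil_self {R : Type*} [CommRing R] (u : R × R × R) : bil u u = q u := by
  simp only [bil, q]; ring

theorem bil_Th (z w : ℍ) : bil (Th z) (Th w) = Real.cosh (dist z w) := by
  rw [UpperHalfPlane.cosh_dist']
  have h1 := z.im_pos
  have h2 := w.im_pos
  have h3 : (√3 : ℝ) ≠ 0 := by positivity
  have h4 : (√3 : ℝ) ^ 2 = 3 := Real.sq_sqrt (by norm_num)
  simp only [bil, Th]
  field_simp
  rw [h4]
  ring

theorem q_Th (z : ℍ) : q (Th z) = 1 := by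
  rw [← bil_self, bil_Th, dist_self, Real.cosh_zero]

theorem Th_pos (z : ℍ) : 0 < (Th z).1 := by
  have h1 := z.im_pos
  simp only [Th]
  positivity

theorem Th_injective : Function.Injective Th := by
  intro z w h
  have h1 := bil_Th z w
  rw [h, bil_self, q_Th] at h1
  have h2 : dist z w = 0 := by
    by_contra hne
    have := Real.one_lt_cosh.2 hne
    linarith
  exact dist_eq_zero.1 h2

theorem Th_surj (v : ℝ × ℝ × ℝ) (hq : q v = 1) (hp : 0 < v.1) : ∃ z : ℍ, Th z = v := by
  obtain ⟨a, b, c⟩ := v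
  simp only [q] at hq
  simp only at hp
  have h3 : (0 : ℝ) < √3 := by positivity
  have h4 : (√3 : ℝ) ^ 2 = 3 := Real.sq_sqrt (by norm_num)
  have hd : 0 < a + √3 * c := by
    by_contra hc
    push Not at hc
    have h5 : 0 ≤ -(√3 * c) - a := by linarith
    nlinarith [mul_nonneg h5 hp.le, mul_nonneg h5 h5, sq_nonneg b]
  have hy : 0 < 1 / (a + √3 * c) := by positivity
  refine ⟨⟨⟨-√3 * b * (1 / (a + √3 * c)), 1 / (a + √3 * c)⟩, hy⟩, ?_⟩
  have hre : (UpperHalfPlane.mk ⟨-√3 * b * (1 / (a + √3 * c)), 1 / (a + √3 * c)⟩ hy).re =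
    -√3 * b * (1 / (a + √3 * c)) := rfl
  have him : (UpperHalfPlane.mk ⟨-√3 * b * (1 / (a + √3 * c)), 1 / (a + √3 * c)⟩ hy).im =
    1 / (a + √3 * c) := rfl
  simp only [Th, Prod.mk.injEq]
  rw [hre, him]
  have hne : a + √3 * c ≠ 0 := hd.ne'
  have h5 : a ^ 2 = 1 + 3 * b ^ 2 + 3 * c ^ 2 := by linarith
  refine ⟨?_, ?_, ?_⟩
  · field_simp
    nlinarith [h4]
  · field_simp
  · field_simp
    nlinarith [h4]

theorem bil_S {R : Type*} [CommRing R] (i : Fin 3) (u v : R × R × R) :
    bil (S i u) (S i v) = bil u v := by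
  obtain ⟨y, z, w⟩ := u
  obtain ⟨y', z', w'⟩ := v
  fin_cases i <;> simp [bil, S] <;> ring

theorem bil_act {R : Type*} [CommRing R] (g : W) (u v : R × R × R) :
    bil (act R g u) (act R g v) = bil u v := by
  induction g using W_induction with
  | h1 => simp
  | hs i w ih => rw [act_s_mul, act_s_mul, bil_S, ih]

theorem act_pos (g : W) (v : ℝ × ℝ × ℝ) (hq : q v = 1) (hp : 0 < v.1) : 0 < (act ℝ g v).1 := by
  induction g using W_induction with
  | h1 => simpa using hp
  | hs i w ih =>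
    rw [act_s_mul]
    have h1 : q (act ℝ w v) = 1 := by rw [q_act, hq]
    generalize act ℝ w v = u at *
    obtain ⟨y, z, t⟩ := u
    simp only [q] at h1
    simp only at ih
    fin_cases i
    · simpa [S] using ih
    · simpa [S] using ih
    · simp only [S]
      by_contra hc
      push Not at hc
      nlinarith [sq_nonneg t, sq_nonneg (2 * y + 3 * z)]

/-- The action on the upper half plane. -/
noncomputable def F (g : W) (z : ℍ) : ℍ :=
  (Th_surj (act ℝ g (Th z)) (by rw [q_act, q_Th]) (act_pos g _ (q_Th z) (Th_pos z))).choose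

theorem Th_F (g : W) (z : ℍ) : Th (F g z) = act ℝ g (Th z) :=
  (Th_surj (act ℝ g (Th z)) (by rw [q_act, q_Th]) (act_pos g _ (q_Th z) (Th_pos z))).choose_spec

theorem F_mul (g h : W) (z : ℍ) : F (g * h) z = F g (F h z) := by
  apply Th_injective
  rw [Th_F, Th_F, Th_F, map_mul, Equiv.Perm.mul_apply]

theorem F_one (z : ℍ) : F 1 z = z := by
  apply Th_injective
  rw [Th_F]; simp

theorem dist_F (g : W) (z w : ℍ) : dist (F g z) (F g w) = dist z w := by
  have h := bil_Th (F g z) (F g w)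
  rw [Th_F, Th_F, bil_act, bil_Th] at h
  exact (Real.cosh_strictMonoOn.injOn (Set.mem_Ici.2 dist_nonneg) (Set.mem_Ici.2 dist_nonneg)
    h.symm)

/-- The homomorphism to the isometry group. -/
noncomputable def rho : W →* (ℍ ≃ᵢ ℍ) where
  toFun g :=
    { toFun := F g
      invFun := F g⁻¹
      left_inv := fun z => by rw [← F_mul, inv_mul_cancel, F_one]
      right_inv := fun z => by rw [← F_mul, mul_inv_cancel, F_one]
      isometry_toFun := Isometry.of_dist_eq (dist_F g) }
  map_one' := by ext1 z; exact F_one z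
  map_mul' g h := by ext1 z; exact F_mul g h z

theorem rho_apply (g : W) (z : ℍ) : rho g z = F g z := rfl

theorem Th_rho (g : W) (z : ℍ) : Th (rho g z) = act ℝ g (Th z) := Th_F g z

/-- Scaling a triple. -/
def sc {R : Type*} [CommRing R] (c : R) (v : R × R × R) : R × R × R := (c * v.1, c * v.2.1, c * v.2.2)

theorem act_sc (g : W) (c : ℝ) (v : ℝ × ℝ × ℝ) : act ℝ g (sc c v) = sc c (act ℝ g v) := by
  induction g using W_induction with
  | h1 => simp
  | hs i w ih =>
    rw [act_s_mul, act_s_mul, ih]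
    obtain ⟨y, z, t⟩ := act ℝ w v
    fin_cases i <;> simp [S, sc] <;> (try constructor) <;> ring

/-- Casting a triple. -/
def cv (v : ℤ × ℤ × ℤ) : ℝ × ℝ × ℝ := (v.1, v.2.1, v.2.2)

theorem act_cv (g : W) (v : ℤ × ℤ × ℤ) : act ℝ g (cv v) = cv (act ℤ g v) := by
  induction g using W_induction with
  | h1 => simp
  | hs i w ih =>
    rw [act_s_mul, act_s_mul, ih]
    obtain ⟨y, z, t⟩ := act ℤ w v
    fin_cases i <;> simp [S, cv]

theorem cv_injective : Function.Injective cv := by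
  rintro ⟨a, b, c⟩ ⟨a', b', c'⟩ h
  simp only [cv, Prod.mk.injEq, Int.cast_inj] at h
  obtain ⟨h1, h2, h3⟩ := h
  rw [h1, h2, h3]

theorem exists_z0 : ∃ z : ℍ, Th z = sc (1 / √34) (cv p) := by
  have h4 : (√34 : ℝ) ^ 2 = 34 := Real.sq_sqrt (by norm_num)
  apply Th_surj
  · simp only [q, sc, cv, p]
    push_cast
    field_simp
    rw [h4]; norm_num
  · simp only [sc, cv, p]
    positivity

/-- The base point. -/
noncomputable def z0 : ℍ := exists_z0.choose

theorem Th_z0 : Th z0 = sc (1 / √34) (cv p) := exists_z0.choose_spec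

theorem rho_z0_eq {g h : W} (e : rho g z0 = rho h z0) : g = h := by
  have h1 : Th (rho g z0) = Th (rho h z0) := by rw [e]
  rw [Th_rho, Th_rho, Th_z0, act_sc, act_sc, act_cv, act_cv] at h1
  apply act_injective
  apply cv_injective
  have h3 : (1 / √34 : ℝ) ≠ 0 := by positivity
  simp only [sc, Prod.mk.injEq, mul_right_inj' h3] at h1
  obtain ⟨a, b, c⟩ := h1
  exact Prod.ext a (Prod.ext b c)

theorem rho_injective : Function.Injective rho := fun g h e => rho_z0_eq (by rw [e])

theorem sz_eq (g : W) : ((sz (act ℤ g p) : ℤ) : ℝ) = 34 * Real.cosh (dist z0 (rho g z0)) := by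
  have h4 : (√34 : ℝ) ^ 2 = 34 := Real.sq_sqrt (by norm_num)
  rw [← bil_Th, Th_rho, Th_z0, act_sc, act_cv]
  obtain ⟨y, z, w⟩ := act ℤ g p
  simp only [sz, bil, sc, cv, p]
  push_cast
  field_simp
  rw [h4]; ring

theorem good_bound {v : ℤ × ℤ × ℤ} (h : Good v) {C : ℤ} (hC : sz v ≤ C) :
    v ∈ (Finset.Icc (-C) C ×ˢ Finset.Icc (-C) C ×ˢ Finset.Icc (-C) C : Finset (ℤ × ℤ × ℤ)) := by
  have hs := h.sz_pos
  obtain ⟨y, z, w⟩ := v
  obtain ⟨h1, h2⟩ := h
  simp only [q] at h1
  simp only at h2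
  simp only [sz] at hC hs
  have h3 : y ≤ 7 * y + 6 * z + 3 * w := by
    by_contra hc
    push Not at hc
    nlinarith [sq_nonneg (z - 2 * w), sq_nonneg (6 * y + 6 * z + 3 * w)]
  have h4 : z ≤ y := by nlinarith [sq_nonneg w]
  have h5 : -y ≤ z := by nlinarith [sq_nonneg w]
  have h6 : w ≤ y := by nlinarith [sq_nonneg z]
  have h7 : -y ≤ w := by nlinarith [sq_nonneg z]
  simp only [Finset.mem_product, Finset.mem_Icc]
  omega

theorem finite_sz (C : ℝ) : {g : W | ((sz (act ℤ g p) : ℤ) : ℝ) ≤ C}.Finite := by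
  have h1 : ((fun g : W => act ℤ g p) '' {g : W | ((sz (act ℤ g p) : ℤ) : ℝ) ≤ C}).Finite := by
    refine Set.Finite.subset (Finset.finite_toSet (Finset.Icc (-⌊C⌋) ⌊C⌋ ×ˢ Finset.Icc (-⌊C⌋) ⌊C⌋ ×ˢ
      Finset.Icc (-⌊C⌋) ⌊C⌋ : Finset (ℤ × ℤ × ℤ))) ?_
    rintro v ⟨g, hg, rfl⟩
    exact good_bound (good_act g) (Int.le_floor.2 hg)
  exact Set.Finite.of_finite_image h1 (fun g _ h _ e => act_injective e)

theorem finite_dist (z : ℍ) (R : ℝ) : {g : W | dist (rho g z) z ≤ R}.Finite := by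
  refine (finite_sz (34 * Real.cosh (R + 2 * dist z z0))).subset ?_
  intro g hg
  have hg' : dist (rho g z) z ≤ R := hg
  show ((sz (act ℤ g p) : ℤ) : ℝ) ≤ _
  rw [sz_eq]
  have h1 : dist z0 (rho g z0) ≤ R + 2 * dist z z0 := by
    have h2 : dist (rho g z) (rho g z0) = dist z z0 := (rho g).isometry.dist_eq _ _
    have h3 : dist z0 (rho g z0) ≤ dist z0 z + dist z (rho g z) + dist (rho g z) (rho g z0) := by
      have := dist_triangle z0 z (rho g z0)
      have := dist_triangle z (rho g z) (rho g z0)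
      linarith
    rw [h2, dist_comm z0 z, dist_comm z (rho g z)] at h3
    linarith
  have h4 := Real.cosh_le_cosh.2 (by
    rw [abs_of_nonneg dist_nonneg, abs_of_nonneg (dist_nonneg.trans h1)]; exact h1 :
      |dist z0 (rho g z0)| ≤ |R + 2 * dist z z0|)
  linarith

/-- Proper discontinuity. -/
theorem proper (K : Set ℍ) (hK : IsCompact K) :
    {γ : ℍ ≃ᵢ ℍ | γ ∈ rho.range ∧ (⇑γ '' K ∩ K).Nonempty}.Finite := by
  obtain ⟨R, hR⟩ := hK.isBounded.subset_closedBall z0
  refine ((finite_dist z0 (2 * R)).image rho).subset ?_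
  rintro γ ⟨⟨g, rfl⟩, ⟨_, ⟨z, hz, rfl⟩, hz2⟩⟩
  refine ⟨g, ?_, rfl⟩
  have h1 : dist z z0 ≤ R := hR hz
  have h2 : dist (rho g z) z0 ≤ R := hR hz2
  have h3 : dist (rho g z) (rho g z0) = dist z z0 := (rho g).isometry.dist_eq _ _
  show dist (rho g z0) z0 ≤ 2 * R
  have := dist_triangle (rho g z0) (rho g z) z0
  rw [dist_comm (rho g z0) (rho g z)] at this
  linarith

/-- Every point can be moved into the closed chamber. -/
theorem to_chamber (z : ℍ) : ∃ g : W, ∀ i, 0 ≤ f i (act ℝ g (Th z)) := by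
  have hfin : {g : W | dist (rho g z) z0 ≤ dist z z0}.Finite := by
    refine (finite_dist z (2 * dist z z0)).subset ?_
    intro g hg
    have hg' : dist (rho g z) z0 ≤ dist z z0 := hg
    show dist (rho g z) z ≤ 2 * dist z z0
    have := dist_triangle (rho g z) z0 z
    rw [dist_comm z0 z] at this
    linarith
  obtain ⟨g, hg, hmin⟩ := Set.exists_min_image _ (fun g : W => dist (rho g z) z0) hfin
    ⟨1, by simp⟩
  refine ⟨g, fun i => ?_⟩
  by_contra hc
  push Not at hc
  have h4 : (0 : ℝ) < √34 := by positivity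
  have key : ∀ h : W, sz (act ℝ h (Th z)) = √34 * Real.cosh (dist (rho h z) z0) := by
    intro h
    rw [← bil_Th, Th_rho, Th_z0]
    have h5 : (√34 : ℝ) ^ 2 = 34 := Real.sq_sqrt (by norm_num)
    obtain ⟨y, z', w⟩ := act ℝ h (Th z)
    simp only [sz, bil, sc, cv, p]
    push_cast
    field_simp
    ring
  have hlt : sz (act ℝ (s i * g) (Th z)) < sz (act ℝ g (Th z)) := by
    rw [act_s_mul]
    fin_cases i
    · have := sz_S0 (act ℝ g (Th z)); simp only [Fin.zero_eta] at hc ⊢; linarith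
    · have := sz_S1 (act ℝ g (Th z)); simp only [Fin.mk_one] at hc ⊢; linarith
    · have := sz_S2 (act ℝ g (Th z)); simp only [Fin.reduceFinMk] at hc ⊢; linarith
  rw [key, key] at hlt
  have h6 : dist (rho (s i * g) z) z0 < dist (rho g z) z0 := by
    have h7 := lt_of_mul_lt_mul_left hlt h4.le
    have h8 := Real.cosh_lt_cosh.1 h7
    rwa [abs_of_nonneg dist_nonneg, abs_of_nonneg dist_nonneg] at h8
  have hg' : dist (rho g z) z0 ≤ dist z z0 := hg
  have := hmin (s i * g) (h6.le.trans hg')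
  linarith

theorem exists_zI : ∃ z : ℍ, Th z = (1, 0, 0) := Th_surj _ (by norm_num [q]) (by norm_num)

/-- The point with coordinates `(1,0,0)`. -/
noncomputable def zI : ℍ := exists_zI.choose

theorem Th_zI : Th zI = (1, 0, 0) := exists_zI.choose_spec

theorem chamber_bounded {z : ℍ} (h : ∀ i, 0 ≤ f i (Th z)) : dist z zI ≤ 3 := by
  have h1 := bil_Th z zI
  rw [Th_zI] at h1
  have h2 : (Th z).1 ≤ 3 := by
    have hq := q_Th z
    have hp := Th_pos z
    have a0 := h 0
    have a1 := h 1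
    have a2 := h 2
    generalize Th z = u at *
    obtain ⟨y, z', w⟩ := u
    simp only [q] at hq
    simp only [f] at a0 a1 a2
    simp only at hp ⊢
    nlinarith [mul_nonneg a0 a1, mul_nonneg a0 a2, mul_nonneg a1 a2]
  have h3 : Real.cosh (dist z zI) ≤ 3 := by
    rw [← h1]; simp only [bil]; linarith
  by_contra hc
  push Not at hc
  have h4 : Real.cosh 3 < Real.cosh (dist z zI) := by
    rw [Real.cosh_lt_cosh, abs_of_pos (by norm_num), abs_of_nonneg dist_nonneg]; exact hc
  have h5 : (3 : ℝ) < Real.cosh 3 := by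
    rw [Real.cosh_eq]
    have h6 : (6 : ℝ) < Real.exp 3 := by
      have h7 : Real.exp 3 = Real.exp 1 ^ 3 := by
        rw [← Real.exp_nat_mul]; norm_num
      rw [h7]
      have h8 := Real.exp_one_gt_d9
      have : (2 : ℝ) ^ 3 < Real.exp 1 ^ 3 := by
        apply pow_lt_pow_left₀ (by linarith) (by norm_num) (by norm_num)
      linarith
    have := Real.exp_pos (-3)
    linarith
  linarith

end Pool.Agent.H5.Iso
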